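import Mathlib

namespace Pool.Agent.P.MP_88303f_co

set_option linter.unusedSectionVars false

open Finset

variable {V : Type*} [DecidableEq V] (G : SimpleGraph V) [DecidableRel G.Adj]

def IsM (S I : Finset V) : Prop :=
  I ⊆ S ∧ (∀ a ∈ I, ∀ b ∈ I, ¬ G.Adj a b) ∧ ∀ x ∈ S, x ∉ I → ∃ a ∈ I, G.Adj x a

instance (S I : Finset V) : Decidable (IsM G S I) := by
  unfold IsM; infer_instance

def ms (S : Finset V) : Finset (Finset V) := S.powerset.filter (IsM G S)

def mis (S : Finset V) : ℕ := (ms G S).card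

def nb (S : Finset V) (x : V) : Finset V := S.filter (G.Adj x)

def cnb (S : Finset V) (x : V) : Finset V := insert x (nb G S x)

def dg (S : Finset V) (x : V) : ℕ := (nb G S x).card

def e2 (S : Finset V) : ℕ := ∑ x ∈ S, dg G S x

def ed (S : Finset V) : ℕ := e2 G S / 2

variable {G}

lemma mem_ms {S I : Finset V} : I ∈ ms G S ↔ IsM G S I := by
  unfold ms
  rw [mem_filter, mem_powerset]
  exact ⟨fun h => h.2, fun h => ⟨h.1, h⟩⟩

omit [DecidableEq V] in
lemma mem_nb {S : Finset V} {x y : V} : y ∈ nb G S x ↔ y ∈ S ∧ G.Adj x y := by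
  unfold nb; rw [mem_filter]

lemma mem_cnb {S : Finset V} {x y : V} : y ∈ cnb G S x ↔ y = x ∨ (y ∈ S ∧ G.Adj x y) := by
  unfold cnb; rw [mem_insert, mem_nb]

omit [DecidableEq V] in
lemma nb_subset (S : Finset V) (x : V) : nb G S x ⊆ S := filter_subset _ _

lemma cnb_subset {S : Finset V} {x : V} (hx : x ∈ S) : cnb G S x ⊆ S := by
  intro y hy
  rcases mem_cnb.1 hy with h | h
  · exact h ▸ hx
  · exact h.1

omit [DecidableEq V] in
lemma self_not_mem_nb (S : Finset V) (x : V) : x ∉ nb G S x := by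
  intro h; exact G.irrefl (mem_nb.1 h).2

lemma card_cnb (S : Finset V) (x : V) : (cnb G S x).card = dg G S x + 1 := by
  unfold cnb dg; rw [card_insert_of_notMem (self_not_mem_nb S x)]

lemma card_sdiff_cnb {S : Finset V} {x : V} (hx : x ∈ S) :
    (S \ cnb G S x).card + (dg G S x + 1) = S.card := by
  rw [← card_cnb, card_sdiff_add_card_eq_card (cnb_subset hx)]

omit [DecidableEq V] in
lemma dg_mono {S T : Finset V} (h : T ⊆ S) (x : V) : dg G T x ≤ dg G S x :=
  card_le_card (filter_subset_filter _ h)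

/- counting lemmas -/

lemma count_with {S : Finset V} {z : V} :
    ((ms G S).filter (fun I => z ∈ I)).card ≤ mis G (S \ cnb G S z) := by
  unfold mis
  apply card_le_card_of_injOn (fun I => I.erase z)
  · intro I hI
    simp only [coe_filter, Set.mem_ofPred_eq, mem_ms] at hI
    obtain ⟨⟨h1, h2, h3⟩, hz⟩ := hI
    simp only [mem_coe, mem_ms]
    refine ⟨?_, ?_, ?_⟩
    · intro a ha
      rw [mem_erase] at ha
      rw [mem_sdiff, mem_cnb]
      refine ⟨h1 ha.2, ?_⟩
      rintro (h | h)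
      · exact ha.1 h
      · exact h2 z hz a ha.2 h.2
    · intro a ha b hb
      exact h2 a (mem_of_mem_erase ha) b (mem_of_mem_erase hb)
    · intro x hx hxI
      rw [mem_sdiff, mem_cnb] at hx
      have hxz : x ≠ z := fun h => hx.2 (Or.inl h)
      have : x ∉ I := fun h => hxI (mem_erase.2 ⟨hxz, h⟩)
      obtain ⟨a, ha, hxa⟩ := h3 x hx.1 this
      refine ⟨a, mem_erase.2 ⟨?_, ha⟩, hxa⟩
      rintro rfl
      exact hx.2 (Or.inr ⟨hx.1, hxa.symm⟩)
  · intro I hI J hJ h
    simp only [coe_filter, Set.mem_ofPred_eq] at hI hJ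
    have := congrArg (insert z) h
    simpa [insert_erase hI.2, insert_erase hJ.2] using this

lemma isM_erase {S I : Finset V} {w : V} (h : IsM G S I) (hw : w ∉ I) : IsM G (S.erase w) I := by
  obtain ⟨h1, h2, h3⟩ := h
  refine ⟨?_, h2, ?_⟩
  · intro a ha
    exact mem_erase.2 ⟨fun h => hw (h ▸ ha), h1 ha⟩
  · intro x hx hxI
    exact h3 x (mem_of_mem_erase hx) hxI

lemma count_without {S : Finset V} {w : V} :
    ((ms G S).filter (fun I => w ∉ I)).card ≤ mis G (S.erase w) := by
  unfold mis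
  apply card_le_card
  intro I hI
  rw [mem_filter, mem_ms] at hI
  exact mem_ms.2 (isM_erase hI.1 hI.2)

lemma count_with_without {S : Finset V} {z w : V} :
    ((ms G S).filter (fun I => z ∈ I ∧ w ∉ I)).card ≤ mis G ((S \ cnb G S z).erase w) := by
  unfold mis
  apply card_le_card_of_injOn (fun I => I.erase z)
  · intro I hI
    simp only [coe_filter, Set.mem_ofPred_eq, mem_ms] at hI
    obtain ⟨⟨h1, h2, h3⟩, hz, hw⟩ := hI
    simp only [mem_coe, mem_ms]
    apply isM_erase _ (fun h => hw (mem_of_mem_erase h))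
    refine ⟨?_, ?_, ?_⟩
    · intro a ha
      rw [mem_erase] at ha
      rw [mem_sdiff, mem_cnb]
      refine ⟨h1 ha.2, ?_⟩
      rintro (h | h)
      · exact ha.1 h
      · exact h2 z hz a ha.2 h.2
    · intro a ha b hb
      exact h2 a (mem_of_mem_erase ha) b (mem_of_mem_erase hb)
    · intro x hx hxI
      rw [mem_sdiff, mem_cnb] at hx
      have hxz : x ≠ z := fun h => hx.2 (Or.inl h)
      have : x ∉ I := fun h => hxI (mem_erase.2 ⟨hxz, h⟩)
      obtain ⟨a, ha, hxa⟩ := h3 x hx.1 this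
      refine ⟨a, mem_erase.2 ⟨?_, ha⟩, hxa⟩
      rintro rfl
      exact hx.2 (Or.inr ⟨hx.1, hxa.symm⟩)
  · intro I hI J hJ h
    simp only [coe_filter, Set.mem_ofPred_eq] at hI hJ
    have := congrArg (insert z) h
    simpa [insert_erase hI.2.1, insert_erase hJ.2.1] using this

lemma mis_branch (S : Finset V) (w : V) :
    mis G S ≤ mis G (S.erase w) + mis G (S \ cnb G S w) := by
  have h := card_filter_add_card_filter_not (s := ms G S) (fun I => w ∈ I)
  have h1 := count_with (G := G) (S := S) (z := w)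
  have h2 := count_without (G := G) (S := S) (w := w)
  unfold mis at *
  omega

lemma isM_meets {S I : Finset V} {y : V} (h : IsM G S I) (hy : y ∈ S) :
    ∃ z ∈ cnb G S y, z ∈ I := by
  by_cases hyI : y ∈ I
  · exact ⟨y, mem_cnb.2 (Or.inl rfl), hyI⟩
  · obtain ⟨a, ha, hya⟩ := h.2.2 y hy hyI
    exact ⟨a, mem_cnb.2 (Or.inr ⟨h.1 ha, hya⟩), ha⟩

lemma mis_cover {S : Finset V} {y : V} (hy : y ∈ S) :
    mis G S ≤ ∑ z ∈ cnb G S y, mis G (S \ cnb G S z) := by
  have h1 : ms G S ⊆ (cnb G S y).biUnion (fun z => (ms G S).filter (fun I => z ∈ I)) := by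
    intro I hI
    obtain ⟨z, hz, hzI⟩ := isM_meets (mem_ms.1 hI) hy
    exact mem_biUnion.2 ⟨z, hz, mem_filter.2 ⟨hI, hzI⟩⟩
  calc mis G S ≤ _ := card_le_card h1
    _ ≤ _ := card_biUnion_le
    _ ≤ _ := sum_le_sum (fun z _ => count_with)

lemma mis_cover3 {S : Finset V} {y w z : V} (hy : y ∈ S) (hnb : nb G S y = {w, z}) :
    mis G S ≤ mis G (S \ cnb G S w) + ((ms G S).filter (fun I => z ∈ I ∧ w ∉ I)).card
      + mis G (S \ cnb G S y) := by
  have h1 : ms G S ⊆ (ms G S).filter (fun I => w ∈ I) ∪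
      (ms G S).filter (fun I => z ∈ I ∧ w ∉ I) ∪ (ms G S).filter (fun I => y ∈ I) := by
    intro I hI
    obtain ⟨t, ht, htI⟩ := isM_meets (mem_ms.1 hI) hy
    simp only [mem_union, mem_filter]
    unfold cnb at ht
    rw [hnb] at ht
    simp only [mem_insert, mem_singleton] at ht
    by_cases hw : w ∈ I
    · exact Or.inl (Or.inl ⟨hI, hw⟩)
    · rcases ht with rfl | rfl | rfl
      · exact Or.inr ⟨hI, htI⟩
      · exact absurd htI hw
      · exact Or.inl (Or.inr ⟨hI, htI, hw⟩)
  have h2 := card_le_card h1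
  have h3 := card_union_le ((ms G S).filter (fun I => w ∈ I) ∪
      (ms G S).filter (fun I => z ∈ I ∧ w ∉ I)) ((ms G S).filter (fun I => y ∈ I))
  have h4 := card_union_le ((ms G S).filter (fun I => w ∈ I))
      ((ms G S).filter (fun I => z ∈ I ∧ w ∉ I))
  have h5 := count_with (G := G) (S := S) (z := w)
  have h6 := count_with (G := G) (S := S) (z := y)
  unfold mis at *
  omega

lemma count_twin {S : Finset V} {z w : V} (hw : w ∈ S) (h : ∀ t ∈ S, G.Adj w t → G.Adj z t) :
    ((ms G S).filter (fun I => z ∈ I ∧ w ∉ I)).card = 0 := by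
  rw [card_eq_zero, filter_eq_empty_iff]
  rintro I hI ⟨hz, hwI⟩
  obtain ⟨h1, h2, h3⟩ := mem_ms.1 hI
  obtain ⟨a, ha, hwa⟩ := h3 w hw hwI
  exact h2 z hz a ha (h a (h1 ha) hwa)

lemma mis_empty : mis G (∅ : Finset V) = 1 := by
  unfold mis ms
  rw [powerset_empty, filter_singleton, if_pos]
  · simp
  · refine ⟨subset_refl _, by simp, by simp⟩

lemma mis_le_insert (S : Finset V) (w : V) (hw : w ∉ S) : mis G S ≤ mis G (insert w S) := by
  unfold mis
  apply card_le_card_of_injOn (fun I => if ∃ a ∈ I, G.Adj w a then I else insert w I)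
  · intro I hI
    simp only [mem_coe, mem_ms] at hI ⊢
    obtain ⟨h1, h2, h3⟩ := hI
    split_ifs with h
    · refine ⟨h1.trans (subset_insert _ _), h2, ?_⟩
      intro x hx hxI
      rcases mem_insert.1 hx with rfl | hx
      · exact h
      · exact h3 x hx hxI
    · push Not at h
      refine ⟨insert_subset_insert _ h1, ?_, ?_⟩
      · intro a ha b hb hab
        rcases mem_insert.1 ha with ha' | ha' <;> rcases mem_insert.1 hb with hb' | hb'
        · rw [ha', hb'] at hab; exact G.irrefl hab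
        · rw [ha'] at hab; exact h b hb' hab
        · rw [hb'] at hab; exact h a ha' hab.symm
        · exact h2 a ha' b hb' hab
      · intro x hx hxI
        rw [mem_insert, not_or] at hxI
        rcases mem_insert.1 hx with rfl | hx
        · exact absurd rfl hxI.1
        · obtain ⟨a, ha, hxa⟩ := h3 x hx hxI.2
          exact ⟨a, mem_insert_of_mem ha, hxa⟩
  · intro I hI J hJ h
    simp only [mem_coe, mem_ms] at hI hJ
    have hI' : w ∉ I := fun h => hw (hI.1 h)
    have hJ' : w ∉ J := fun h => hw (hJ.1 h)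
    have := congrArg (fun K => K.erase w) h
    simp only at this
    split_ifs at this <;>
      simpa [erase_insert hI', erase_insert hJ', erase_eq_of_notMem hI', erase_eq_of_notMem hJ']
        using this

lemma mis_pos (S : Finset V) : 0 < mis G S := by
  induction S using Finset.induction_on with
  | empty => rw [mis_empty]; exact one_pos
  | insert w S hw ih => exact lt_of_lt_of_le ih (mis_le_insert S w hw)

/- edge counting -/

omit [DecidableEq V] in
lemma dg_eq_sum (S : Finset V) (x : V) : dg G S x = ∑ y ∈ S, if G.Adj x y then 1 else 0 := by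
  unfold dg nb; rw [card_filter]

lemma dg_split {S T : Finset V} (h : T ⊆ S) (x : V) :
    dg G S x = dg G (S \ T) x + dg G T x := by
  simp only [dg_eq_sum]; rw [sum_sdiff h]

omit [DecidableEq V] in
lemma cross_symm (A B : Finset V) : ∑ x ∈ A, dg G B x = ∑ y ∈ B, dg G A y := by
  simp only [dg_eq_sum]
  rw [sum_comm]
  apply sum_congr rfl; intro y _; apply sum_congr rfl; intro x _
  simp only [G.adj_comm x y]

lemma e2_split {S T : Finset V} (h : T ⊆ S) :
    e2 G S + e2 G T = e2 G (S \ T) + 2 * ∑ z ∈ T, dg G S z := by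
  unfold e2
  have h1 : ∑ x ∈ S, dg G S x = ∑ x ∈ S \ T, dg G S x + ∑ x ∈ T, dg G S x := by
    rw [sum_sdiff h]
  have h2 : ∑ x ∈ S \ T, dg G S x = ∑ x ∈ S \ T, dg G (S \ T) x + ∑ x ∈ S \ T, dg G T x := by
    rw [← sum_add_distrib]; exact sum_congr rfl (fun x _ => dg_split h x)
  have h3 : ∑ x ∈ T, dg G S x = ∑ x ∈ T, dg G (S \ T) x + ∑ x ∈ T, dg G T x := by
    rw [← sum_add_distrib]; exact sum_congr rfl (fun x _ => dg_split h x)
  have h4 := cross_symm (G := G) (S \ T) T
  omega

omit [DecidableEq V] in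
lemma e2_singleton (x : V) : e2 G {x} = 0 := by
  unfold e2; rw [sum_singleton, dg_eq_sum, sum_singleton, if_neg G.irrefl]

lemma e2_erase {S : Finset V} {x : V} (hx : x ∈ S) :
    e2 G S = e2 G (S.erase x) + 2 * dg G S x := by
  have := e2_split (G := G) (singleton_subset_iff.2 hx)
  rw [e2_singleton, sum_singleton, sdiff_singleton_eq_erase] at this
  omega

lemma two_ed (S : Finset V) : 2 * ed G S = e2 G S := by
  unfold ed
  have : 2 ∣ e2 G S := by
    induction S using Finset.induction_on with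
    | empty => simp [e2]
    | insert w S hw ih =>
      rw [e2_erase (mem_insert_self w S), erase_insert hw]
      omega
  omega

lemma ed_split {S T : Finset V} (h : T ⊆ S) :
    ed G S + ed G T = ed G (S \ T) + ∑ z ∈ T, dg G S z := by
  have := e2_split (G := G) h
  rw [← two_ed, ← two_ed, ← two_ed] at this
  omega

lemma ed_erase {S : Finset V} {x : V} (hx : x ∈ S) :
    ed G (S.erase x) + dg G S x = ed G S := by
  have := e2_erase (G := G) hx
  rw [← two_ed, ← two_ed] at this
  omega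

lemma two_ed_le {S T : Finset V} (h : T ⊆ S) : 2 * ed G T ≤ ∑ z ∈ T, dg G S z := by
  rw [two_ed]; exact sum_le_sum (fun z _ => dg_mono h z)

lemma ed_mono {S T : Finset V} (h : T ⊆ S) : ed G T ≤ ed G S := by
  have h1 := two_ed (G := G) S
  have h2 := two_ed_le (G := G) h
  have h3 : ∑ z ∈ T, dg G S z ≤ e2 G S := sum_le_sum_of_subset h
  omega

omit [DecidableEq V] in
lemma dg_nb_self (S : Finset V) (w : V) : dg G (nb G S w) w = dg G S w := by
  unfold dg nb; rw [filter_filter]; simp only [and_self]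

lemma ed_cnb (S : Finset V) (w : V) : ed G (cnb G S w) = ed G (nb G S w) + dg G S w := by
  have h := ed_erase (G := G) (S := cnb G S w) (x := w) (mem_cnb.2 (Or.inl rfl))
  have h1 : (cnb G S w).erase w = nb G S w := erase_insert (self_not_mem_nb S w)
  have h2 : dg G (cnb G S w) w = dg G S w := by
    unfold dg; congr 1; ext t; simp only [mem_nb, mem_cnb]
    constructor
    · rintro ⟨h | h, h'⟩
      · exact absurd (h ▸ h') G.irrefl
      · exact h
    · intro h; exact ⟨Or.inr h, h.2⟩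
  rw [h1, h2] at h
  omega

/-- exact count of the edges removed with a closed neighbourhood -/
lemma ed_sdiff_cnb {S : Finset V} {w : V} (hw : w ∈ S) :
    ed G S + ed G (nb G S w) = ed G (S \ cnb G S w) + ∑ z ∈ nb G S w, dg G S z := by
  have h := ed_split (G := G) (cnb_subset (G := G) hw)
  rw [ed_cnb] at h
  have : ∑ z ∈ cnb G S w, dg G S z = dg G S w + ∑ z ∈ nb G S w, dg G S z := by
    unfold cnb; rw [sum_insert (self_not_mem_nb S w)]
  omega

lemma nb_inner {S : Finset V} {w : V} (hw : w ∈ S) :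
    2 * ed G (nb G S w) + dg G S w ≤ ∑ z ∈ nb G S w, dg G S z := by
  rw [two_ed]
  unfold e2
  have : dg G S w = ∑ _z ∈ nb G S w, 1 := by simp [dg]
  rw [this, ← sum_add_distrib]
  apply sum_le_sum
  intro z hz
  have h1 : insert w (nb G (nb G S w) z) ⊆ nb G S z := by
    intro t ht
    rcases mem_insert.1 ht with rfl | ht
    · exact mem_nb.2 ⟨hw, (mem_nb.1 hz).2.symm⟩
    · exact mem_nb.2 ⟨(mem_nb.1 (mem_nb.1 ht).1).1, (mem_nb.1 ht).2⟩
  have h2 := card_le_card h1
  rw [card_insert_of_notMem (fun h => self_not_mem_nb S w (mem_nb.1 h).1)] at h2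
  exact h2

lemma rem_upper {S : Finset V} {w : V} (hw : w ∈ S) {D : ℕ} (hD : ∀ x ∈ S, dg G S x ≤ D) :
    ed G S ≤ ed G (S \ cnb G S w) + dg G S w * D := by
  have h := ed_sdiff_cnb (G := G) hw
  have h2 : ∑ z ∈ nb G S w, dg G S z ≤ dg G S w * D := by
    have := sum_le_card_nsmul (nb G S w) (fun z => dg G S z) D
      (fun z hz => hD z (nb_subset S w hz))
    simpa [dg] using this
  omega

lemma rem_lower {S : Finset V} {w : V} (hw : w ∈ S) {d : ℕ} (hd : ∀ x ∈ S, d ≤ dg G S x) :
    2 * ed G (S \ cnb G S w) + dg G S w * (d + 1) ≤ 2 * ed G S := by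
  have h := ed_sdiff_cnb (G := G) hw
  have h1 := nb_inner (G := G) hw
  have h2 : dg G S w * d ≤ ∑ z ∈ nb G S w, dg G S z := by
    have := card_nsmul_le_sum (nb G S w) (fun z => dg G S z) d
      (fun z hz => hd z (nb_subset S w hz))
    simpa [dg] using this
  rw [mul_add]
  omega

lemma rem_lower0 {S : Finset V} {w : V} (hw : w ∈ S) :
    ed G (S \ cnb G S w) + dg G S w ≤ ed G S := by
  have h := ed_sdiff_cnb (G := G) hw
  have h1 := nb_inner (G := G) hw
  omega

lemma handshake_le {S : Finset V} {D : ℕ} (hD : ∀ x ∈ S, dg G S x ≤ D) :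
    2 * ed G S ≤ S.card * D := by
  rw [two_ed]
  have := sum_le_card_nsmul S (fun z => dg G S z) D hD
  simpa [e2] using this

lemma handshake_ge {S : Finset V} {d : ℕ} (hd : ∀ x ∈ S, d ≤ dg G S x) :
    S.card * d ≤ 2 * ed G S := by
  rw [two_ed]
  have := card_nsmul_le_sum S (fun z => dg G S z) d hd
  simpa [e2] using this

lemma dg_lt_card {S : Finset V} {x : V} (hx : x ∈ S) : dg G S x + 1 ≤ S.card := by
  have := card_sdiff_cnb (G := G) hx
  omega

lemma mis_isolated {S : Finset V} {x : V} (hx : x ∈ S) (h0 : dg G S x = 0) :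
    mis G S ≤ mis G (S.erase x) := by
  have h := mis_cover (G := G) hx
  have h1 : nb G S x = ∅ := card_eq_zero.1 h0
  have h2 : cnb G S x = {x} := by unfold cnb; rw [h1]; rfl
  rw [h2, sum_singleton, h2, sdiff_singleton_eq_erase] at h
  exact h

/-- leaf branching -/
lemma leaf_facts {S : Finset V} {x : V} (hx : x ∈ S) (h1 : dg G S x = 1) :
    ∃ t ∈ S, G.Adj x t ∧ nb G S x = {t} ∧
      mis G S ≤ mis G (S \ cnb G S x) + mis G (S \ cnb G S t) ∧
      ed G (S \ cnb G S x) + dg G S t = ed G S := by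
  obtain ⟨t, ht⟩ := card_eq_one.1 h1
  have htm : t ∈ nb G S x := by rw [ht]; exact mem_singleton_self t
  refine ⟨t, (mem_nb.1 htm).1, (mem_nb.1 htm).2, ht, ?_, ?_⟩
  · have h := mis_cover (G := G) hx
    have hxt : x ∉ ({t} : Finset V) := by rw [← ht]; exact self_not_mem_nb S x
    have h2 : cnb G S x = insert x {t} := by unfold cnb; rw [ht]
    have h3 : ∑ z ∈ cnb G S x, mis G (S \ cnb G S z)
        = mis G (S \ cnb G S x) + mis G (S \ cnb G S t) := by
      conv_lhs => rw [h2, sum_insert hxt, sum_singleton]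
    rw [h3] at h; exact h
  · have h := ed_sdiff_cnb (G := G) hx
    rw [ht, sum_singleton] at h
    have : ed G {t} = 0 := by unfold ed; rw [e2_singleton]
    omega

/- clique components -/

def Simpl (G : SimpleGraph V) [DecidableRel G.Adj] (S : Finset V) (y : V) : Prop :=
  ∀ a ∈ S, ∀ b ∈ S, G.Adj y a → G.Adj y b → a ≠ b → G.Adj a b

def CC (G : SimpleGraph V) [DecidableRel G.Adj] (S : Finset V) (y : V) : Prop :=
  Simpl G S y ∧ ∀ a ∈ S, G.Adj y a → dg G S a = dg G S y

def NoCl (G : SimpleGraph V) [DecidableRel G.Adj] (S : Finset V) : Prop := ∀ y ∈ S, ¬ CC G S y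

lemma simpl_cnb_subset {S : Finset V} {y z : V} (hy : y ∈ S) (h : Simpl G S y)
    (hz : z ∈ cnb G S y) : cnb G S y ⊆ cnb G S z := by
  intro t ht
  rw [mem_cnb] at hz ht ⊢
  by_cases htz : t = z
  · exact Or.inl htz
  · right
    rcases hz with hz | hz
    · rcases ht with ht | ht
      · exact absurd (ht.trans hz.symm) htz
      · rw [hz]; exact ht
    · rcases ht with ht | ht
      · rw [ht]; exact ⟨hy, hz.2.symm⟩
      · exact ⟨ht.1, h z hz.1 t ht.1 hz.2 ht.2 (Ne.symm htz)⟩

lemma simpl_dg_inside {S : Finset V} {y z : V} (hy : y ∈ S) (h : Simpl G S y)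
    (hz : z ∈ cnb G S y) : dg G (cnb G S y) z = dg G S y := by
  have h1 : nb G (cnb G S y) z = (cnb G S y).erase z := by
    ext t
    rw [mem_nb, mem_erase]
    constructor
    · rintro ⟨h1, h2⟩; exact ⟨fun h => G.irrefl (h ▸ h2), h1⟩
    · rintro ⟨h1, h2⟩
      refine ⟨h2, ?_⟩
      rcases mem_cnb.1 (simpl_cnb_subset hy h hz h2) with h3 | h3
      · exact absurd h3 h1
      · exact h3.2
  unfold dg at *
  rw [h1, card_erase_of_mem hz, card_cnb]; rfl

lemma simpl_ed {S : Finset V} {y : V} (hy : y ∈ S) (h : Simpl G S y) :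
    ed G (cnb G S y) = (dg G S y + 1).choose 2 := by
  have h1 := two_ed (G := G) (cnb G S y)
  unfold e2 at h1
  rw [sum_congr rfl (fun z hz => simpl_dg_inside hy h hz), sum_const, card_cnb, smul_eq_mul] at h1
  rw [Nat.choose_two_right]
  simp only [Nat.add_sub_cancel]
  omega

lemma simpl_sdiff {S : Finset V} {y z : V} (hy : y ∈ S) (h : Simpl G S y)
    (hz : z ∈ cnb G S y) :
    S \ cnb G S z = (S \ cnb G S y) \ nb G (S \ cnb G S y) z := by
  ext t
  simp only [mem_sdiff, mem_nb]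
  constructor
  · rintro ⟨h1, h2⟩
    refine ⟨⟨h1, fun h3 => h2 (simpl_cnb_subset hy h hz h3)⟩, fun h3 => h2 ?_⟩
    exact mem_cnb.2 (Or.inr ⟨h1, h3.2⟩)
  · rintro ⟨⟨h1, h2⟩, h3⟩
    refine ⟨h1, fun h4 => ?_⟩
    rcases mem_cnb.1 h4 with h5 | h5
    · exact h2 (h5 ▸ hz)
    · exact h3 ⟨⟨h1, h2⟩, h5.2⟩

lemma simpl_dg_split {S : Finset V} {y z : V} (hy : y ∈ S) (h : Simpl G S y)
    (hz : z ∈ cnb G S y) : dg G S z = dg G (S \ cnb G S y) z + dg G S y := by
  rw [dg_split (cnb_subset (G := G) hy) z, simpl_dg_inside hy h hz]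

lemma simpl_ed_rest {S : Finset V} {y : V} (hy : y ∈ S) (h : Simpl G S y) :
    ed G (S \ cnb G S y) + ((dg G S y + 1).choose 2
      + ∑ z ∈ nb G S y, dg G (S \ cnb G S y) z) = ed G S := by
  have h1 := ed_split (G := G) (cnb_subset (G := G) hy)
  rw [sum_congr rfl (fun z hz => simpl_dg_split hy h hz), sum_add_distrib, sum_const, card_cnb,
    smul_eq_mul, simpl_ed hy h] at h1
  have h2 : ∑ z ∈ cnb G S y, dg G (S \ cnb G S y) z
      = dg G (S \ cnb G S y) y + ∑ z ∈ nb G S y, dg G (S \ cnb G S y) z := by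
    conv_lhs => unfold cnb
    rw [sum_insert (self_not_mem_nb S y)]; rfl
  have h3 := simpl_dg_split hy h (z := y) (mem_cnb.2 (Or.inl rfl))
  have h4 : 2 * (dg G S y + 1).choose 2 = (dg G S y + 1) * dg G S y := by
    rw [Nat.choose_two_right]
    simp only [Nat.add_sub_cancel]
    have := Nat.even_mul_succ_self (dg G S y)
    rw [mul_comm] at this
    obtain ⟨k, hk⟩ := this
    omega
  omega

lemma cc_facts {S : Finset V} {y : V} (hy : y ∈ S) (h : CC G S y) :
    mis G S ≤ (dg G S y + 1) * mis G (S \ cnb G S y) ∧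
      ed G (S \ cnb G S y) + (dg G S y + 1).choose 2 = ed G S := by
  have h0 : ∀ z ∈ cnb G S y, dg G (S \ cnb G S y) z = 0 := by
    intro z hz
    have h1 := simpl_dg_split hy h.1 hz
    rcases mem_cnb.1 hz with h2 | h2
    · rw [h2] at h1 ⊢; omega
    · have := h.2 z h2.1 h2.2; omega
  constructor
  · have h1 := mis_cover (G := G) hy
    have h2 : ∀ z ∈ cnb G S y, mis G (S \ cnb G S z) = mis G (S \ cnb G S y) := by
      intro z hz
      rw [simpl_sdiff hy h.1 hz, card_eq_zero.1 (h0 z hz), sdiff_empty]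
    rw [sum_congr rfl h2, sum_const, card_cnb, smul_eq_mul] at h1
    exact h1
  · have h1 := simpl_ed_rest hy h.1
    rw [sum_eq_zero (fun z hz => h0 z (mem_insert_of_mem hz))] at h1
    simpa using h1

omit [DecidableEq V] in
lemma simpl_of_dg_le_one {S : Finset V} {y : V} (h : dg G S y ≤ 1) : Simpl G S y := by
  intro a ha b hb hya hyb hab
  exact absurd (card_le_one.1 h a (mem_nb.2 ⟨ha, hya⟩) b (mem_nb.2 ⟨hb, hyb⟩)) hab

lemma noCl_erase {S : Finset V} (h : ∀ y ∈ S, ¬ Simpl G S y) (w : V) : NoCl G (S.erase w) := by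
  rintro y hy ⟨h1, h2⟩
  have hyS := mem_of_mem_erase hy
  -- every vertex of the clique has the same closed neighbourhood in `S.erase w`
  have key : ∀ z ∈ cnb G (S.erase w) y, cnb G (S.erase w) z = cnb G (S.erase w) y := by
    intro z hz
    symm
    apply eq_of_subset_of_card_le (simpl_cnb_subset hy h1 hz)
    rw [card_cnb, card_cnb]
    rcases mem_cnb.1 hz with h3 | h3
    · rw [h3]
    · rw [h2 z h3.1 h3.2]
  have clq : ∀ a ∈ cnb G (S.erase w) y, ∀ b ∈ cnb G (S.erase w) y, a ≠ b → G.Adj a b := by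
    intro a ha b hb hab
    rw [← key a ha] at hb
    rcases mem_cnb.1 hb with h3 | h3
    · exact absurd h3.symm hab
    · exact h3.2
  by_cases hall : ∀ z ∈ cnb G (S.erase w) y, G.Adj w z
  · apply h y hyS
    intro a ha b hb hya hyb hab
    by_cases haw : a = w
    · have hbw : b ≠ w := fun h => hab (haw.trans h.symm)
      rw [haw]
      exact hall b (mem_cnb.2 (Or.inr ⟨mem_erase.2 ⟨hbw, hb⟩, hyb⟩))
    · by_cases hbw : b = w
      · rw [hbw]
        exact (hall a (mem_cnb.2 (Or.inr ⟨mem_erase.2 ⟨haw, ha⟩, hya⟩))).symm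
      · exact h1 a (mem_erase.2 ⟨haw, ha⟩) b (mem_erase.2 ⟨hbw, hb⟩) hya hyb hab
  · push Not at hall
    obtain ⟨z, hz, hwz⟩ := hall
    apply h z (mem_of_mem_erase (cnb_subset hy hz))
    intro a ha b hb hza hzb hab
    have haw : a ≠ w := fun h => hwz (h ▸ hza.symm)
    have hbw : b ≠ w := fun h => hwz (h ▸ hzb.symm)
    apply clq a _ b _ hab
    · rw [← key z hz]; exact mem_cnb.2 (Or.inr ⟨mem_erase.2 ⟨haw, ha⟩, hza⟩)
    · rw [← key z hz]; exact mem_cnb.2 (Or.inr ⟨mem_erase.2 ⟨hbw, hb⟩, hzb⟩)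

end Pool.Agent.P.MP_88303f_co
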