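import Mathlib

namespace Pool.Agent.P.MP_88303f_co

def mx (f : ℕ → ℕ) : ℕ → ℕ
  | 0 => 0
  | n + 1 => max (f n) (mx f n)

def al (f : ℕ → Bool) : ℕ → Bool
  | 0 => true
  | n + 1 => f n && al f n

def ex (f : ℕ → Bool) : ℕ → Bool
  | 0 => false
  | n + 1 => f n || ex f n

lemma le_mx (f : ℕ → ℕ) {i n : ℕ} (h : i < n) : f i ≤ mx f n := by
  induction n with
  | zero => omega
  | succ n ih =>
    unfold mx
    rcases Nat.lt_succ_iff_lt_or_eq.1 h with h | h
    · exact (ih h).trans (le_max_right _ _)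
    · rw [h]; exact le_max_left _ _

lemma al_spec {f : ℕ → Bool} {n : ℕ} (h : al f n = true) {i : ℕ} (hi : i < n) : f i = true := by
  induction n with
  | zero => omega
  | succ n ih =>
    unfold al at h
    rw [Bool.and_eq_true] at h
    rcases Nat.lt_succ_iff_lt_or_eq.1 hi with h' | h'
    · exact ih h.2 h'
    · rw [h']; exact h.1

lemma ex_spec {f : ℕ → Bool} {n : ℕ} (h : ex f n = true) : ∃ i < n, f i = true := by
  induction n with
  | zero => simp [ex] at h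
  | succ n ih =>
    unfold ex at h
    rw [Bool.or_eq_true] at h
    rcases h with h | h
    · exact ⟨n, by omega, h⟩
    · obtain ⟨i, hi, h⟩ := ih h
      exact ⟨i, by omega, h⟩

/-- maximum of `u dv de` over `lo ≤ de ≤ hi` -/
def rng (u : ℕ → ℕ → ℕ) (dv lo hi : ℕ) : ℕ := mx (fun i => u dv (lo + i)) (hi + 1 - lo)

lemma le_rng (u : ℕ → ℕ → ℕ) {dv lo hi de : ℕ} (h1 : lo ≤ de) (h2 : de ≤ hi) :
    u dv de ≤ rng u dv lo hi := by
  have := le_mx (fun i => u dv (lo + i)) (i := de - lo) (n := hi + 1 - lo) (by omega)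
  simp only [show lo + (de - lo) = de by omega] at this
  exact this

/-- best profile value plus one; zero when there is no profile -/
def pf (val : ℕ → ℕ) (mo : ℕ) : ℕ → ℕ → ℕ
  | 0, O => if O = 0 then 1 else 0
  | j + 1, O => mx (fun o => if o ≤ O then
      (if pf val mo j (O - o) = 0 then 0 else if val o = 0 then 0
        else val o + pf val mo j (O - o)) else 0) (mo + 1)

lemma pf_spec {α : Type*} [DecidableEq α] (val : ℕ → ℕ) (mo : ℕ) (T : Finset α) (o : α → ℕ)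
    (w : α → ℚ) (h1 : ∀ z ∈ T, o z ≤ mo) (h2 : ∀ z ∈ T, 0 < w z)
    (h3 : ∀ z ∈ T, w z ≤ val (o z)) :
    ∑ z ∈ T, w z + 1 ≤ pf val mo T.card (∑ z ∈ T, o z) := by
  induction T using Finset.induction_on with
  | empty => simp [pf]
  | insert a T ha ih =>
    have ih' := ih (fun z hz => h1 z (Finset.mem_insert_of_mem hz))
      (fun z hz => h2 z (Finset.mem_insert_of_mem hz))
      (fun z hz => h3 z (Finset.mem_insert_of_mem hz))
    rw [Finset.card_insert_of_notMem ha, Finset.sum_insert ha, Finset.sum_insert ha]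
    have hs : 0 ≤ ∑ z ∈ T, w z :=
      Finset.sum_nonneg (fun z hz => (h2 z (Finset.mem_insert_of_mem hz)).le)
    have h4 := h1 a (Finset.mem_insert_self _ _)
    have h5 := h2 a (Finset.mem_insert_self _ _)
    have h6 := h3 a (Finset.mem_insert_self _ _)
    have hne : pf val mo T.card (∑ z ∈ T, o z) ≠ 0 := by
      intro h; rw [h] at ih'; simp at ih'; linarith
    have hne2 : val (o a) ≠ 0 := by
      intro h; rw [h] at h6; simp at h6; linarith
    have := le_mx (fun x => if x ≤ o a + ∑ z ∈ T, o z then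
      (if pf val mo T.card (o a + ∑ z ∈ T, o z - x) = 0 then 0 else if val x = 0 then 0
        else val x + pf val mo T.card (o a + ∑ z ∈ T, o z - x)) else 0) (i := o a) (n := mo + 1)
        (by omega)
    simp only [Nat.le_add_right, if_true, Nat.add_sub_cancel_left, hne, hne2, if_false] at this
    unfold pf
    have h7 : ((val (o a) + pf val mo T.card (∑ z ∈ T, o z) : ℕ) : ℚ) ≤ _ := Nat.cast_le.2 this
    push_cast at h7
    linarith

def sval (u : ℕ → ℕ → ℕ) (D k base cs x0 : ℕ) (o : ℕ) : ℕ :=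
  if o = 0 then x0 else rng u (k + o) (base + cs) (base + o * D)

def prof (u : ℕ → ℕ → ℕ) (D k O base cs x0 b : ℕ) : Bool :=
  x0 == 0 || pf (sval u D k base cs x0) (D + 1 - k) (k - 1) O == 0 ||
    Nat.ble (x0 + pf (sval u D k base cs x0) (D + 1 - k) (k - 1) O) (b + 1)

def tri (u : ℕ → ℕ → ℕ) (b : ℕ) : Bool :=
  u 3 4 == 0 || (u 4 6 == 0 || Nat.ble (2 * u 3 4 + u 4 6) b) &&
  al (fun i => u 5 (5 + i) == 0 || rng u (5 + i) (5 + i) (4 + (i + 1) * 3) == 0 ||
    (if i = 0 then u 5 5 else u 4 5) == 0 ||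
    Nat.ble (2 * (u 5 (5 + i) + rng u (5 + i) (5 + i) (4 + (i + 1) * 3))
      + (if i = 0 then u 5 5 else u 4 5)) b) 3

def simpOK (u : ℕ → ℕ → ℕ) (D k O b : ℕ) : Bool :=
  prof u D k O (k * (k - 1) / 2 + O) 0 (u (k + 1) (k * (k - 1) / 2 + O)) b &&
  (if D = 3 ∧ k = 3 ∧ O = 1 then tri u b
   else prof u D k O (k * (k - 1) / 2 + O) 1 (u k (k * (k - 1) / 2 + O)) b)

def degTwo (u : ℕ → ℕ → ℕ) (D p q b : ℕ) : Bool :=
  u 3 (p + q) == 0 || rng u (p + 1) (p + (p + 1) / 2) (2 + (p - 1) * D) == 0 ||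
    Nat.ble (rng u (p + 1) (p + (p + 1) / 2) (2 + (p - 1) * D)
      + rng u (q + 2) (p + q) (p + 1 + (q - 1) * D) + u 3 (p + q)) b

def nsOK (u : ℕ → ℕ → ℕ) (n1 D : ℕ) (f2 : Bool) (b : ℕ) : Bool :=
  n1 == 0 || rng u (D + 1) (D + (D + 1) / 2) (D * D) == 0 ||
    Nat.ble (n1 + rng u (D + 1) (D + (D + 1) / 2) (D * D)) b ||
    (Nat.ble D 3 && al (fun i => al (fun j => degTwo u D (i + 2) (j + 2) b) (D - 1)) (D - 1) &&
      (!f2 || D == 2 || rng u 4 6 9 == 0 || Nat.ble (n1 + rng u 4 6 9) b))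

def chkN (u : ℕ → ℕ → ℕ) (n1 D : ℕ) (f1 f2 : Bool) (b : ℕ) : Bool :=
  u 1 D == 0 || rng u (D + 1) D (D * D) == 0 || Nat.ble (u 1 D + rng u (D + 1) D (D * D)) b ||
    (al (fun i => al (fun j => simpOK u D (i + 2) (j + 1) b) ((i + 1) * (D - 1 - i))) (D - 1) &&
      (!f1 || nsOK u n1 D f2 b))

def chkU (u : ℕ → ℕ → ℕ) (D bN bU : ℕ) : Bool :=
  Nat.ble bN bU && al (fun i => Nat.ble ((i + 1) * u (i + 1) ((i + 1) * i / 2)) bU) (D + 1)

end Pool.Agent.P.MP_88303f_co
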