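import Pool.Agent.P.MP_88303f_co.Num
import Pool.Agent.P.MP_88303f_co.Chk
import Pool.Agent.P.MP_88303f_co.Tab

namespace Pool.Agent.P.MP_88303f_co

def cn : ℕ → ℕ | 0 => 18 | 1 => 19 | 2 => 20 | 3 => 20 | 4 => 21 | 5 => 19 | _ => 20
def ca : ℕ → ℕ | 0 => 99 | 1 => 105 | 2 => 111 | 3 => 111 | 4 => 117 | 5 => 105 | _ => 111
def cb : ℕ → ℕ | 0 => 270 | 1 => 300 | 2 => 332 | 3 => 342 | 4 => 366 | 5 => 288 | _ => 320
def cv : ℕ → ℕ | 0 => 729 | 1 => 972 | 2 => 1296 | 3 => 1458 | 4 => 1728 | 5 => 768 | _ => 1024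
def cr : ℕ → ℕ → ℕ
  | 0, r => 3 * r + 15 | 1, r => 3 * r + 16 | 2, r => 3 * r + 16 | 3, r => 3 * r + 18
  | 4, _ => 3 | 5, _ => 1 | _, _ => 0

def Core (m n val : ℕ) : Prop := ∃ τ < 7, ∃ r q, q ≤ cr τ r ∧ n = 3 * r + cn τ ∧
  2 * m = 9 * (r * r) + ca τ * r + cb τ + 2 * q ∧ val = cv τ * 3 ^ r + mm q

lemma mkA {m : ℕ} (r q : ℕ) (h1 : q ≤ 3 * r + 15) (h2 : 2 * m = 9 * (r * r) + 99 * r + 270 + 2 * q) :
    Core m (3 * r + 18) (729 * 3 ^ r + mm q) := ⟨0, by omega, r, q, h1, rfl, h2, rfl⟩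
lemma mkB {m : ℕ} (r q : ℕ) (h1 : q ≤ 3 * r + 16) (h2 : 2 * m = 9 * (r * r) + 105 * r + 300 + 2 * q) :
    Core m (3 * r + 19) (972 * 3 ^ r + mm q) := ⟨1, by omega, r, q, h1, rfl, h2, rfl⟩
lemma mkC {m : ℕ} (r q : ℕ) (h1 : q ≤ 3 * r + 16) (h2 : 2 * m = 9 * (r * r) + 111 * r + 332 + 2 * q) :
    Core m (3 * r + 20) (1296 * 3 ^ r + mm q) := ⟨2, by omega, r, q, h1, rfl, h2, rfl⟩
lemma mkD {m : ℕ} (r q : ℕ) (h1 : q ≤ 3 * r + 18) (h2 : 2 * m = 9 * (r * r) + 111 * r + 342 + 2 * q) :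
    Core m (3 * r + 20) (1458 * 3 ^ r + mm q) := ⟨3, by omega, r, q, h1, rfl, h2, rfl⟩
lemma mkE {m : ℕ} (r q : ℕ) (h1 : q ≤ 3) (h2 : 2 * m = 9 * (r * r) + 117 * r + 366 + 2 * q) :
    Core m (3 * r + 21) (1728 * 3 ^ r + mm q) := ⟨4, by omega, r, q, h1, rfl, h2, rfl⟩
lemma mkF {m : ℕ} (r q : ℕ) (h1 : q ≤ 1) (h2 : 2 * m = 9 * (r * r) + 105 * r + 288 + 2 * q) :
    Core m (3 * r + 19) (768 * 3 ^ r + mm q) := ⟨5, by omega, r, q, h1, rfl, h2, rfl⟩
lemma mkG {m : ℕ} (r q : ℕ) (h1 : q ≤ 0) (h2 : 2 * m = 9 * (r * r) + 111 * r + 320 + 2 * q) :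
    Core m (3 * r + 20) (1024 * 3 ^ r + mm q) := ⟨6, by omega, r, q, h1, rfl, h2, rfl⟩
lemma mkA' {m : ℕ} (r q : ℕ) (h1 : q ≤ 3 * r + 18)
    (h2 : 2 * m = 9 * (r * r) + 117 * r + 378 + 2 * q) :
    Core m (3 * r + 21) (2187 * 3 ^ r + mm q) := by
  have := mkA (m := m) (r + 1) q (by omega) (by rw [h2]; ring)
  rwa [show 3 * (r + 1) + 18 = 3 * r + 21 by ring, pow_succ,
    show 729 * (3 ^ r * 3) = 2187 * 3 ^ r by ring] at this

lemma mm_le_of {q r c : ℕ} (hc : 2 ≤ c) (h : q ≤ 3 * r + c) : mm q ≤ 3 ^ r * mm c := by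
  rw [← mm_three_mul r c hc]; exact mm_mono h

lemma mm_ge_of {q r c : ℕ} (hc : 2 ≤ c) (h : 3 * r + c ≤ q) : 3 ^ r * mm c ≤ mm q := by
  rw [← mm_three_mul r c hc]; exact mm_mono h

lemma mm_vals : mm 0 = 1 ∧ mm 1 = 1 ∧ mm 3 = 3 ∧ mm 5 = 6 ∧ mm 7 = 12 ∧ mm 11 = 54 ∧ mm 12 = 81 ∧
    mm 14 = 162 ∧ mm 15 = 243 ∧ mm 16 = 324 ∧ mm 18 = 729 := by decide

theorem cascade {m' n' val' q : ℕ} (h : Core m' n' val') (hq : q * (q + 5) ≤ 2 * m') :
    ∃ n val, Core (m' + q) n val ∧ val' + mm q + n ≤ val + n' + 1 := by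
  obtain ⟨τ, hτ, r, q', h1, rfl, h3, rfl⟩ := h
  have hP : 1 ≤ 3 ^ r := Nat.one_le_pow _ _ (by norm_num)
  have hadd := mm_add_le q' q
  obtain ⟨v0, v1, v3, v5, v7, v11, v12, v14, v15, v16, v18⟩ := mm_vals
  interval_cases τ <;> simp only [cn, ca, cb, cv, cr] at h1 h3 ⊢
  · have hb : q ≤ 3 * r + 15 := by by_contra hc; nlinarith
    by_cases ht : q' + q ≤ 3 * r + 15
    · exact ⟨_, _, mkA r (q' + q) ht (by omega), by omega⟩
    · have h4 := mm_major (c := q' + q - (3 * r + 15)) h1 hb (by omega)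
      have h5 := mm_three_mul r 15 (by omega)
      exact ⟨_, _, mkB r (q' + q - (3 * r + 15)) (by omega) (by omega), by rw [v15] at h5; omega⟩
  · have hb : q ≤ 3 * r + 16 := by by_contra hc; nlinarith
    by_cases ht : q' + q ≤ 3 * r + 16
    · exact ⟨_, _, mkB r (q' + q) ht (by omega), by omega⟩
    · have h4 := mm_major (c := q' + q - (3 * r + 16)) h1 hb (by omega)
      have h5 := mm_three_mul r 16 (by omega)
      exact ⟨_, _, mkC r (q' + q - (3 * r + 16)) (by omega) (by omega), by rw [v16] at h5; omega⟩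
  · have hb : q ≤ 3 * r + 16 := by by_contra hc; nlinarith
    by_cases ht : q' + q ≤ 3 * r + 16
    · exact ⟨_, _, mkC r (q' + q) ht (by omega), by omega⟩
    have h4 := mm_major (c := q' + q - (3 * r + 16)) h1 hb (by omega)
    have h5 := mm_three_mul r 16 (by omega)
    rw [v16] at h5
    by_cases ht2 : q' + q ≤ 3 * r + 19
    · have h6 := mm_mono (a := q' + q - (3 * r + 16)) (b := 3) (by omega)
      have h7 := mm_pos (q' + q - (3 * r + 17))
      exact ⟨_, _, mkE r (q' + q - (3 * r + 17)) (by omega) (by omega), by omega⟩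
    by_cases ht3 : q' + q ≤ 3 * r + 23
    · have h6 := mm_mono (a := q' + q - (3 * r + 16)) (b := 7) (by omega)
      have h7 := mm_ge_of (q := q' + q - 5) (r := r) (c := 15) (by omega) (by omega)
      rw [v15] at h7
      exact ⟨_, _, mkD r (q' + q - 5) (by omega) (by omega), by omega⟩
    · have h6 := mm_mono h1
      have h7 := mm_mono hb
      exact ⟨_, _, mkA' r (q' + q - (3 * r + 23)) (by omega) (by omega), by omega⟩
  · have hb : q ≤ 3 * r + 18 := by by_contra hc; nlinarith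
    by_cases ht : q' + q ≤ 3 * r + 18
    · exact ⟨_, _, mkD r (q' + q) ht (by omega), by omega⟩
    · have h4 := mm_major (c := q' + q - (3 * r + 18)) h1 hb (by omega)
      have h5 := mm_three_mul r 18 (by omega)
      exact ⟨_, _, mkA' r (q' + q - (3 * r + 18)) (by omega) (by omega), by rw [v18] at h5; omega⟩
  · have hb : q ≤ 3 * r + 16 := by by_contra hc; nlinarith
    by_cases ht : q' + q ≤ 3
    · exact ⟨_, _, mkE r (q' + q) ht (by omega), by omega⟩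
    by_cases ht2 : q' + q ≤ 5
    · have h6 := mm_mono ht2
      have h7 := mm_ge_of (q := q' + q + 3 * r + 12) (r := r) (c := 16) (by omega) (by omega)
      rw [v16] at h7
      exact ⟨_, _, mkD r (q' + q + 3 * r + 12) (by omega) (by omega), by omega⟩
    · have h6 := mm_mono h1
      have h7 := mm_le_of (by omega) hb
      rw [v16] at h7
      exact ⟨_, _, mkA' r (q' + q - 6) (by omega) (by omega), by omega⟩
  · have hb : q ≤ 3 * r + 14 := by by_contra hc; nlinarith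
    by_cases ht : q' + q ≤ 1
    · exact ⟨_, _, mkF r (q' + q) ht (by omega), by omega⟩
    by_cases ht2 : q' + q ≤ 5
    · have h6 := mm_mono ht2
      have h7 := mm_ge_of (q := q' + q + 3 * r + 9) (r := r) (c := 11) (by omega) (by omega)
      rw [v11] at h7
      exact ⟨_, _, mkA r (q' + q + 3 * r + 9) (by omega) (by omega), by omega⟩
    · have h6 := mm_mono h1
      have h7 := mm_le_of (by omega) hb
      rw [v14] at h7
      exact ⟨_, _, mkB r (q' + q - 6) (by omega) (by omega), by omega⟩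
  · have hb : q ≤ 3 * r + 15 := by by_contra hc; nlinarith
    have h6 := mm_mono h1
    by_cases ht : q' + q ≤ 0
    · exact ⟨_, _, mkG r (q' + q) ht (by omega), by omega⟩
    by_cases ht1 : q ≤ 1
    · have h8 := mm_mono ht1
      have h7 := mm_ge_of (q := q + 3 * r + 10) (r := r) (c := 11) (by omega) (by omega)
      rw [v11] at h7
      exact ⟨_, _, mkB r (q + 3 * r + 10) (by omega) (by omega), by omega⟩
    by_cases ht2 : q ≤ 5
    · have h8 := mm_mono ht2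
      have h7 := mm_ge_of (q := q + 3 * r + 10) (r := r) (c := 12) (by omega) (by omega)
      rw [v12] at h7
      exact ⟨_, _, mkB r (q + 3 * r + 10) (by omega) (by omega), by omega⟩
    · have h7 := mm_le_of (by omega) hb
      rw [v15] at h7
      exact ⟨_, _, mkC r (q - 6) (by omega) (by omega), by omega⟩

def ccB (m N K : ℕ) : Bool := ex (fun τ => ex (fun r =>
  Nat.ble (9 * (r * r) + ca τ * r + cb τ) (2 * m) &&
  (2 * m - (9 * (r * r) + ca τ * r + cb τ)) % 2 == 0 &&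
  Nat.ble ((2 * m - (9 * (r * r) + ca τ * r + cb τ)) / 2) (cr τ r) &&
  Nat.ble (N + (3 * r + cn τ))
    (cv τ * 3 ^ r + mm ((2 * m - (9 * (r * r) + ca τ * r + cb τ)) / 2) + K)) 5) 7

lemma ccB_spec {m N K : ℕ} (h : ccB m N K = true) : ∃ n val, Core m n val ∧ N + n ≤ val + K := by
  obtain ⟨τ, hτ, h⟩ := ex_spec h
  obtain ⟨r, _, h⟩ := ex_spec h
  simp only [Bool.and_eq_true, Nat.ble_eq, beq_iff_eq] at h
  obtain ⟨⟨⟨h1, h2⟩, h3⟩, h4⟩ := h
  exact ⟨_, _, ⟨τ, hτ, r, _, h3, rfl, by omega, rfl⟩, h4⟩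

def Unc (m n val : ℕ) : Prop := (m ≤ 134 ∧ n = 29 ∧ val = tT 30 (435 - m)) ∨ Core m n val

theorem tab_casc : al (fun m => al (fun q => Nat.blt (2 * m) (q * (q + 5)) ||
    (if Nat.ble (m + q) 134 then Nat.ble (tT 30 (435 - m) + mm q) (tT 30 (435 - (m + q)) + 1)
     else ccB (m + q) (tT 30 (435 - m) + mm q) 30)) 15) 135 = true := by decide +kernel

theorem tab_base : al (fun i => ccB (135 + i) (tT 30 (435 - (135 + i)) + 1) 30) 270 = true := by
  decide +kernel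

theorem cascade' {m' n' val' q : ℕ} (h : Unc m' n' val') (hq : q * (q + 5) ≤ 2 * m') :
    ∃ n val, Unc (m' + q) n val ∧ val' + mm q + n ≤ val + n' + 1 := by
  rcases h with ⟨h1, rfl, rfl⟩ | h
  · have hb : q < 15 := by by_contra hc; nlinarith
    have h2 := al_spec (al_spec tab_casc (i := m') (by omega)) hb
    simp only [Bool.or_eq_true, Nat.blt_eq] at h2
    rcases h2 with h2 | h2
    · omega
    split_ifs at h2 with h3
    · rw [Nat.ble_eq] at h2 h3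
      exact ⟨_, _, Or.inl ⟨h3, rfl, rfl⟩, by omega⟩
    · obtain ⟨n, val, h4, h5⟩ := ccB_spec h2
      exact ⟨n, val, Or.inr h4, by omega⟩
  · obtain ⟨n, val, h4, h5⟩ := cascade h hq
    exact ⟨n, val, Or.inr h4, h5⟩

end Pool.Agent.P.MP_88303f_co
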