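import Pool.Agent.P.MP_88303f_co.FinT
import Pool.Agent.P.MP_88303f_co.Core

namespace Pool.Agent.P.MP_88303f_co

set_option linter.unusedSectionVars false

open Finset

variable {V : Type*} [DecidableEq V] {G : SimpleGraph V} [DecidableRel G.Adj]

lemma win_le {S : Finset V} (h24 : 24 ≤ S.card) (h5 : ∀ x ∈ S, dg G S x ≤ 5) {r v0 y K : ℕ}
    (hv : S.card = 3 * r + v0) (hy : y < 17) (he : ed G S + 1 = S.card + y)
    (hK : tSU 5 (v0 % 3) y * 3 ^ (v0 / 3) ≤ 3 ^ 30 * K) : mis G S ≤ K * 3 ^ r := by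
  have h := (sc_valid S h24 5 (by omega) le_rfl h5).1
  rw [sig_in _ _ _ _ _ y hy he, show S.card % 3 = v0 % 3 by omega,
    show S.card / 3 = v0 / 3 + r by omega, pow_add, ← mul_assoc] at h
  have h2 := h.trans (Nat.mul_le_mul_right _ hK)
  rw [mul_assoc] at h2
  exact Nat.le_of_mul_le_mul_left h2 (by positivity)

lemma tail_le {S : Finset V} (h5 : ∀ x ∈ S, dg G S x ≤ 5) {r v0 k K : ℕ}
    (hv : S.card = 3 * r + v0) (he : S.card + k ≤ ed G S)
    (hK : gg v0 ≤ K * (36 / 35) ^ k) : mis G S ≤ K * 3 ^ r := by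
  have h := tail_gen S h5 he
  rw [hv, gg_three_mul] at h
  have h2 : (mis G S : ℚ) * (36 / 35) ^ k ≤ K * 3 ^ r * (36 / 35) ^ k := by
    calc _ ≤ _ := h
      _ ≤ 3 ^ r * (K * (36 / 35) ^ k) := by gcongr
      _ = _ := by ring
  have h3 := le_of_mul_le_mul_right h2 (by positivity)
  exact_mod_cast h3

lemma big_branch {S : Finset V} (h5 : ¬ ∀ x ∈ S, dg G S x ≤ 5) :
    ∃ T : Finset V, ∃ d q, 6 ≤ d ∧ T.card + 1 = S.card ∧ ed G T + d = ed G S ∧
      q + d + 1 = S.card ∧ 2 * ed G S ≤ S.card * d ∧ mis G S ≤ mis G T + mm q := by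
  have hS : S.Nonempty := by
    rw [nonempty_iff_ne_empty]; rintro rfl; simp at h5
  obtain ⟨w, hw, hmax⟩ := exists_max_image S (dg G S) hS
  refine ⟨S.erase w, dg G S w, (S \ cnb G S w).card, ?_, card_erase_add_one hw, ed_erase hw,
    card_sdiff_cnb hw, handshake_le hmax, ?_⟩
  · by_contra h
    exact h5 (fun x hx => (hmax x hx).trans (by omega))
  · exact (mis_branch S w).trans (Nat.add_le_add_left (mis_le_mm _) _)

lemma A_psi (S : Finset V) {k n : ℕ} (h1 : ed G S + k ≤ S.card) (h2 : S.card = n + 2 * k) :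
    mis G S ≤ 2 ^ k * mm n := by
  have h := (mis_le_BA (G := G) S).trans
    (BA_shift_le (v := S.card) (e := n + k) (dv := 0) (de := 0) rfl (by omega))
  rw [show (S.card : ℤ) - ((n + k : ℕ) : ℤ) = k by omega,
    show 2 * ((n + k : ℕ) : ℤ) - S.card + (0 : ℕ) - 2 * (0 : ℕ) = n by omega, psi_nat,
    zpow_natCast] at h
  simp only [pow_zero, div_one, one_mul] at h
  exact_mod_cast h

lemma A_zero (S : Finset V) {r : ℕ} (h1 : ed G S = S.card) (h2 : S.card = 3 * r + 17) :
    mis G S ≤ 432 * 3 ^ r := by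
  have h := mis_le_BA (G := G) S
  unfold BA phi at h
  rw [h1, if_neg (by omega), show (2 * (S.card : ℤ) - S.card).toNat = 3 * r + 17 by omega,
    phiN_three_mul r 17 (by omega), show phiN 17 = 432 by decide +kernel, sub_self] at h
  simp only [zpow_zero, one_mul] at h
  rw [mul_comm]
  exact_mod_cast h

lemma mm_vals2 : mm 10 = 36 ∧ mm 11 = 54 ∧ mm 12 = 81 ∧ mm 13 = 108 ∧ mm 14 = 162 ∧
    mm 15 = 243 ∧ mm 16 = 324 ∧ mm 17 = 486 ∧ mm 18 = 729 ∧ mm 19 = 972 ∧ mm 20 = 1458 ∧
    mm 21 = 2187 := by decide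

theorem sp0_chk : al (fun x => Nat.ble (tSU 5 (18 % 3) (x + 2) * 3 ^ (18 / 3))
    (3 ^ 30 * (486 + mm (14 - x)))) 5 = true := by decide +kernel

theorem sp2_chk : al (fun x => Nat.ble (tSU 5 (20 % 3) (x + 2) * 3 ^ (20 / 3))
    (3 ^ 30 * (972 + mm (15 - x)))) 3 = true := by decide +kernel

theorem sp0 {S : Finset V} {r x : ℕ} (hr : 2 ≤ r) (hv : S.card = 3 * r + 18) (h1 : 1 ≤ x)
    (h2 : x ≤ 5) (he : ed G S = S.card + x) :
    mis G S ≤ 486 * 3 ^ r + mm (3 * r + 15 - x) := by
  obtain ⟨v10, v11, v12, v13, v14, v15, v16, v17, v18, v19, v20, v21⟩ := mm_vals2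
  by_cases h5 : ∀ x ∈ S, dg G S x ≤ 5
  · have h := al_spec sp0_chk (i := x - 1) (by omega)
    rw [Nat.ble_eq] at h
    have h3 := win_le (by omega) h5 hv (by omega) (by omega) h
    have h4 := mm_three_mul r (14 - (x - 1)) (by omega)
    rw [show 3 * r + (14 - (x - 1)) = 3 * r + 15 - x by omega] at h4
    rw [h4]; nlinarith
  · obtain ⟨T, d, q, b1, b2, b3, b4, b5, b6⟩ := big_branch h5
    by_cases h3 : x + 2 ≤ d
    · have h4 := mis_le_mm (G := G) T
      have h6 := mm_le_of (q := T.card) (r := r) (c := 17) (by omega) (by omega)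
      have h7 := mm_mono (a := q) (b := 3 * r + 15 - x) (by omega)
      rw [v17] at h6
      omega
    · have h4 := A_zero (G := G) T (r := r) (by omega) (by omega)
      have h6 := mm_le_of (q := q) (r := r) (c := 11) (by omega) (by omega)
      rw [v11] at h6
      omega

theorem sp1a {S : Finset V} {r : ℕ} (hr : 2 ≤ r) (hv : S.card = 3 * r + 19)
    (he : ed G S = S.card + 1) : mis G S ≤ 756 * 3 ^ r := by
  obtain ⟨v10, v11, v12, v13, v14, v15, v16, v17, v18, v19, v20, v21⟩ := mm_vals2
  by_cases h5 : ∀ x ∈ S, dg G S x ≤ 5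
  · exact win_le (y := 2) (by omega) h5 hv (by omega) (by omega) (by decide +kernel)
  · obtain ⟨T, d, q, b1, b2, b3, b4, b5, b6⟩ := big_branch h5
    have h4 := A_psi (G := G) T (k := 3) (n := 3 * r + 12) (by omega) (by omega)
    have h6 := mm_le_of (q := q) (r := r) (c := 12) (by omega) (by omega)
    rw [mm_three_mul r 12 (by omega), v12] at h4
    rw [v12] at h6
    omega

theorem sp1b {S : Finset V} {r : ℕ} (hr : 2 ≤ r) (hv : S.card = 3 * r + 19)
    (he : ed G S = S.card + 7) : mis G S ≤ 765 * 3 ^ r := by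
  obtain ⟨v10, v11, v12, v13, v14, v15, v16, v17, v18, v19, v20, v21⟩ := mm_vals2
  by_cases h5 : ∀ x ∈ S, dg G S x ≤ 5
  · exact win_le (y := 8) (by omega) h5 hv (by omega) (by omega) (by decide +kernel)
  · obtain ⟨T, d, q, b1, b2, b3, b4, b5, b6⟩ := big_branch h5
    by_cases h3 : 8 ≤ d
    · have h4 := mis_le_mm (G := G) T
      have h6 := mm_le_of (q := T.card) (r := r) (c := 18) (by omega) (by omega)
      have h7 := mm_le_of (q := q) (r := r) (c := 10) (by omega) (by omega)
      rw [v18] at h6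
      rw [v10] at h7
      omega
    · have h4 := sp0 (G := G) (S := T) (r := r) (x := 8 - d) hr (by omega) (by omega) (by omega)
        (by omega)
      have h6 := mm_le_of (q := 3 * r + 15 - (8 - d)) (r := r) (c := 14) (by omega) (by omega)
      have h7 := mm_le_of (q := q) (r := r) (c := 12) (by omega) (by omega)
      rw [v14] at h6
      rw [v12] at h7
      omega

theorem sp2 {S : Finset V} {r x : ℕ} (hr : 2 ≤ r) (hv : S.card = 3 * r + 20) (h1 : 1 ≤ x)
    (h2 : x ≤ 3) (he : ed G S = S.card + x) :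
    mis G S ≤ 972 * 3 ^ r + mm (3 * r + 16 - x) := by
  obtain ⟨v10, v11, v12, v13, v14, v15, v16, v17, v18, v19, v20, v21⟩ := mm_vals2
  by_cases h5 : ∀ x ∈ S, dg G S x ≤ 5
  · have h := al_spec sp2_chk (i := x - 1) (by omega)
    rw [Nat.ble_eq] at h
    have h3 := win_le (by omega) h5 hv (by omega) (by omega) h
    have h4 := mm_three_mul r (15 - (x - 1)) (by omega)
    rw [show 3 * r + (15 - (x - 1)) = 3 * r + 16 - x by omega] at h4
    rw [h4]; nlinarith
  · obtain ⟨T, d, q, b1, b2, b3, b4, b5, b6⟩ := big_branch h5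
    have h4 := mis_le_mm (G := G) T
    have h6 := mm_le_of (q := T.card) (r := r) (c := 19) (by omega) (by omega)
    have h7 := mm_mono (a := q) (b := 3 * r + 16 - x) (by omega)
    rw [v19] at h6
    omega

def winB (v0 y : ℕ) : Bool := ex (fun τ => ex (fun q =>
  cb τ + 2 * q + 2 * y + 3 * v0 == v0 * v0 + 2 && Nat.ble q (cr τ 0) &&
  ((cn τ + 1 == v0 && Nat.blt τ 4 && Nat.ble 2 q &&
      Nat.ble (tSU 5 (v0 % 3) y * 3 ^ (v0 / 3)) (3 ^ 30 * (cv τ + mm q))) ||
   (cn τ == v0 && Nat.ble (tSU 5 (v0 % 3) y * 3 ^ (v0 / 3)) (3 ^ 30 * cv τ)))) 19) 7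

theorem win19 : al (fun i => winB 19 (i + 4)) 13 = true := by decide +kernel
theorem win20 : al (fun i => winB 20 (i + 1)) 16 = true := by decide +kernel
theorem win21 : al (fun i => winB 21 (i + 2)) 15 = true := by decide +kernel

lemma win_spec {S : Finset V} (h24 : 24 ≤ S.card) (h5 : ∀ x ∈ S, dg G S x ≤ 5) {r v0 y m : ℕ}
    (hv : S.card = 3 * r + v0) (hy : y < 17) (he : ed G S + 1 = S.card + y)
    (hm : 2 * ed G S + 2 * m + S.card = S.card * S.card) (h : winB v0 y = true) :
    ∃ n val, Core m n val ∧ mis G S + n + 1 ≤ val + S.card := by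
  obtain ⟨τ, hτ, h⟩ := ex_spec h
  obtain ⟨q, _, h⟩ := ex_spec h
  simp only [Bool.and_eq_true, Bool.or_eq_true, Nat.ble_eq, Nat.blt_eq, beq_iff_eq] at h
  obtain ⟨⟨h1, h2⟩, ⟨⟨⟨h3, h4⟩, h6⟩, h7⟩ | ⟨h3, h7⟩⟩ := h
  · have h8 := win_le h24 h5 hv hy he h7
    refine ⟨_, _, ⟨τ, hτ, r, 3 * r + q, ?_, rfl, ?_, rfl⟩, ?_⟩
    · interval_cases τ <;> simp only [cr] at h2 ⊢ <;> omega
    · rw [hv] at hm he
      subst h3
      interval_cases τ <;> simp only [cn, ca, cb] at h1 hm he ⊢ <;> nlinarith
    · rw [mm_three_mul r q h6]; nlinarith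
  · have h8 := win_le h24 h5 hv hy he h7
    have h9 := mm_pos q
    refine ⟨_, _, ⟨τ, hτ, r, q, ?_, rfl, ?_, rfl⟩, ?_⟩
    · interval_cases τ <;> simp only [cr] at h2 ⊢ <;> omega
    · rw [hv] at hm he
      subst h3
      interval_cases τ <;> simp only [cn, ca, cb] at h1 hm he ⊢ <;> nlinarith
    · omega

def Xlow (v e : ℕ) : Prop := (v % 3 = 0 → v + 1 ≤ e) ∧ (v % 3 = 1 → v + 3 ≤ e) ∧ v ≤ e

theorem unc_bound (v : ℕ) (h30 : 30 ≤ v) : ∀ (S : Finset V) (m : ℕ), S.card = v →
    2 * ed G S + 2 * m + v = v * v → Xlow v (ed G S) →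
    ∃ n val, Unc m n val ∧ mis G S + n + 1 ≤ val + v := by
  obtain ⟨v10, v11, v12, v13, v14, v15, v16, v17, v18, v19, v20, v21⟩ := mm_vals2
  induction v, h30 using Nat.le_induction with
  | base =>
    intro S m hv hm hx
    have h1 := finT_valid (G := G) S hv.le
    rw [hv, show ed G S = 435 - m by omega] at h1
    by_cases h2 : m ≤ 134
    · exact ⟨_, _, Or.inl ⟨h2, rfl, rfl⟩, by omega⟩
    · have h3 := al_spec tab_base (i := m - 135) (by unfold Xlow at hx; omega)
      rw [show 135 + (m - 135) = m by omega] at h3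
      obtain ⟨n, val, h4, h5⟩ := ccB_spec h3
      exact ⟨n, val, Or.inr h4, by omega⟩
  | succ v h30 ih =>
    intro S m hv hm hx
    obtain ⟨x1, x2, x3⟩ := hx
    obtain ⟨r, hr⟩ : ∃ r, v = 3 * r + 19 ∨ v = 3 * r + 20 ∨ v = 3 * r + 21 :=
      ⟨(v - 19) / 3, by omega⟩
    have hP : 1 ≤ 3 ^ r := Nat.one_le_pow _ _ (by norm_num)
    have s1 : (3 * r + 19 + 1) * (3 * r + 19 + 1) = 9 * (r * r) + 120 * r + 400 := by ring
    have s2 : (3 * r + 20 + 1) * (3 * r + 20 + 1) = 9 * (r * r) + 126 * r + 441 := by ring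
    have s3 : (3 * r + 21 + 1) * (3 * r + 21 + 1) = 9 * (r * r) + 132 * r + 484 := by ring
    by_cases h5 : ∀ x ∈ S, dg G S x ≤ 5
    · have hh := handshake_le h5
      by_cases hw : ed G S ≤ v + 1 + 15
      · obtain ⟨y, hy⟩ : ∃ y, ed G S + 1 = S.card + y := ⟨ed G S + 1 - S.card, by omega⟩
        rw [← hv] at hm ⊢
        have : ∃ n val, Core m n val ∧ mis G S + n + 1 ≤ val + S.card := by
          rcases hr with rfl | rfl | rfl
          · have h := al_spec win20 (i := y - 1) (by omega)
            rw [show y - 1 + 1 = y by omega] at h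
            exact win_spec (r := r) (by omega) h5 (by omega) (by omega) hy hm h
          · have h := al_spec win21 (i := y - 2) (by omega)
            rw [show y - 2 + 2 = y by omega] at h
            exact win_spec (r := r) (by omega) h5 (by omega) (by omega) hy hm h
          · have h := al_spec win19 (i := y - 4) (by omega)
            rw [show y - 4 + 4 = y by omega] at h
            exact win_spec (r := r + 1) (by omega) h5 (by omega) (by omega) hy hm h
        obtain ⟨n, val, h1, h2⟩ := this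
        exact ⟨n, val, Or.inr h1, h2⟩
      · rcases hr with rfl | rfl | rfl
        · rw [s1] at hm
          by_cases hl : ed G S ≤ 6 * r + 40
          · have h := tail_le (r := r) (v0 := 20) (k := 16) (K := 972) h5 (by omega) (by omega)
              (by decide +kernel)
            exact ⟨_, _, Or.inr (mkB r (6 * r + 40 - ed G S) (by omega) (by omega)), by omega⟩
          · have h := tail_le (r := r) (v0 := 20) (k := 33) (K := 729) h5 (by omega) (by omega)
              (by decide +kernel)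
            exact ⟨_, _, Or.inr (mkA r (9 * r + 55 - ed G S) (by omega) (by omega)), by omega⟩
        · rw [s2] at hm
          by_cases hl : ed G S ≤ 6 * r + 39
          · have h := tail_le (r := r) (v0 := 21) (k := 16) (K := 1458) h5 (by omega) (by omega)
              (by decide +kernel)
            exact ⟨_, _, Or.inr (mkD r (6 * r + 39 - ed G S) (by omega) (by omega)), by omega⟩
          · have h := tail_le (r := r) (v0 := 21) (k := 31) (K := 972) h5 (by omega) (by omega)
              (by decide +kernel)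
            by_cases hl2 : ed G S ≤ 6 * r + 44
            · exact ⟨_, _, Or.inr (mkC r (6 * r + 44 - ed G S) (by omega) (by omega)), by omega⟩
            · exact ⟨_, _, Or.inr (mkB r (9 * r + 60 - ed G S) (by omega) (by omega)), by omega⟩
        · rw [s3] at hm
          by_cases hl : ed G S ≤ 6 * r + 42
          · have h := tail_le (r := r) (v0 := 22) (k := 16) (K := 2187) h5 (by omega) (by omega)
              (by decide +kernel)
            exact ⟨_, _, Or.inr (mkA' r (6 * r + 42 - ed G S) (by omega) (by omega)), by omega⟩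
          · have h := tail_le (r := r) (v0 := 22) (k := 30) (K := 1458) h5 (by omega) (by omega)
              (by decide +kernel)
            exact ⟨_, _, Or.inr (mkD r (9 * r + 60 - ed G S) (by omega) (by omega)), by omega⟩
    · obtain ⟨T, d, q, b1, b2, b3, b4, b5, b6⟩ := big_branch h5
      rw [hv] at b2 b4 b5
      have hsq : (v + 1) * (v + 1) = v * v + 2 * v + 1 := by ring
      by_cases hx' : Xlow v (ed G T)
      · have hq : (v + 1) * q ≤ 2 * m := by
          have : (v + 1) * (v + 1) = (v + 1) * q + (v + 1) * d + (v + 1) := by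
            rw [← b4]; ring
          omega
        have hq2 : q * (q + 7) ≤ (v + 1) * q := by
          rw [mul_comm]; exact Nat.mul_le_mul_right _ (by omega)
        have hq3 : q * (q + 7) = q * (q + 5) + 2 * q := by ring
        obtain ⟨n', val', h1, h2⟩ := ih T (m - q) (by omega) (by omega) hx'
        obtain ⟨n, val, h3, h4⟩ := cascade' (q := q) h1 (by omega)
        rw [show m - q + q = m by omega] at h3
        exact ⟨n, val, h3, by omega⟩
      · have h4 := mis_le_mm (G := G) T
        unfold Xlow at hx'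
        rcases hr with rfl | rfl | rfl
        · rw [s1] at hm
          have h6 := mm_le_of (q := T.card) (r := r) (c := 19) (by omega) (by omega)
          rw [v19] at h6
          by_cases hl : 3 * r + 24 ≤ ed G S
          · have h7 := mm_mono (a := q) (b := 6 * r + 40 - ed G S) (by omega)
            exact ⟨_, _, Or.inr (mkB r (6 * r + 40 - ed G S) (by omega) (by omega)), by omega⟩
          · have h7 := mm_le_of (q := q) (r := r) (c := 13) (by omega) (by omega)
            rw [v13] at h7
            exact ⟨_, _, Or.inr (mkC r (3 * r + 24 - ed G S) (by omega) (by omega)), by omega⟩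
        · rw [s2] at hm
          have h6 := mm_le_of (q := T.card) (r := r) (c := 20) (by omega) (by omega)
          rw [v20] at h6
          have h7 := mm_mono (a := q) (b := 6 * r + 39 - ed G S) (by omega)
          exact ⟨_, _, Or.inr (mkD r (6 * r + 39 - ed G S) (by omega) (by omega)), by omega⟩
        · rw [s3] at hm
          have h6 := mm_le_of (q := T.card) (r := r) (c := 21) (by omega) (by omega)
          rw [v21] at h6
          have h7 := mm_mono (a := q) (b := 6 * r + 42 - ed G S) (by omega)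
          exact ⟨_, _, Or.inr (mkA' r (6 * r + 42 - ed G S) (by omega) (by omega)), by omega⟩

end Pool.Agent.P.MP_88303f_co
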