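import Mathlib

namespace Pool.Agent.P.MP_88303f_co

/-- Product of the part sizes when `n` is split into `k` parts as evenly as possible. -/
def bal (n k : ℕ) : ℕ := (n / k) ^ (k - n % k) * (n / k + 1) ^ (n % k)

/-- Number of pairs lying inside a part when `n` is split into `k` parts as evenly as possible. -/
def inner (n k : ℕ) : ℕ := k * (n / k).choose 2 + n % k * (n / k)

/-- Total size of the `j` largest parts when `n` is split into `k` parts as evenly as possible. -/
def top (n k j : ℕ) : ℕ := j * (n / k) + min j (n % k)

/-- The explicit value: a maximum over `n, k, j, q < v`. -/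
def muFormula (v e : ℕ) : ℕ :=
  (Finset.range v).sup fun n => (Finset.range v).sup fun k => (Finset.range v).sup fun j =>
    (Finset.range v).sup fun q =>
      if k ≤ n ∧ (k = 0 → n = 0) ∧ j ≤ k ∧ j ≤ q ∧ q ≤ top n k j ∧
          e + n.choose 2 + q = v.choose 2 + inner n k then
        (v - 1 - n) + bal n k + (if j < k then bal q j else 0)
      else 0

end Pool.Agent.P.MP_88303f_co
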