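import Pool.Agent.P.MP_88303f_co.Basic
import Pool.Agent.P.MP_88303f_co.Defs

namespace Pool.Agent.P.MP_88303f_co

set_option linter.unusedSectionVars false

open Finset

lemma choose_two_succ (n : ℕ) : (n + 1).choose 2 = n.choose 2 + n := by
  rw [Nat.choose_succ_succ' n 1, Nat.choose_one_right, add_comm]

section general

variable {V : Type*} [DecidableEq V] {G : SimpleGraph V} [DecidableRel G.Adj]

lemma ed_insert {S : Finset V} {w : V} (hw : w ∉ S) :
    ed G (insert w S) = ed G S + dg G S w := by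
  have h := ed_erase (G := G) (mem_insert_self w S)
  rw [erase_insert hw] at h
  have h2 : dg G (insert w S) w = dg G S w := by
    rw [dg_eq_sum, dg_eq_sum, sum_insert hw, if_neg G.irrefl, zero_add]
  omega

lemma mis_insert_ge {S : Finset V} {w : V} (hw : w ∉ S)
    (h : ∀ I, IsM G S I → ∃ a ∈ I, G.Adj w a) :
    mis G S + mis G (S \ nb G S w) ≤ mis G (insert w S) := by
  have hinj : Set.InjOn (fun I : Finset V => insert w I) (ms G (S \ nb G S w)) := by
    intro I hI J hJ hIJ
    simp only [mem_coe, mem_ms] at hI hJ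
    have hI' : w ∉ I := fun h => hw (mem_sdiff.1 (hI.1 h)).1
    have hJ' : w ∉ J := fun h => hw (mem_sdiff.1 (hJ.1 h)).1
    have := congrArg (fun K => K.erase w) hIJ
    simpa [erase_insert hI', erase_insert hJ'] using this
  have hd : Disjoint (ms G S) ((ms G (S \ nb G S w)).image (fun I => insert w I)) := by
    rw [disjoint_left]
    intro I hI hI'
    obtain ⟨J, _, rfl⟩ := mem_image.1 hI'
    exact hw ((mem_ms.1 hI).1 (mem_insert_self _ _))
  unfold mis
  rw [← card_image_of_injOn hinj, ← card_union_of_disjoint hd]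
  apply card_le_card
  intro I hI
  rw [mem_ms]
  rcases mem_union.1 hI with hI | hI
  · obtain ⟨h1, h2, h3⟩ := mem_ms.1 hI
    refine ⟨h1.trans (subset_insert _ _), h2, ?_⟩
    intro x hx hxI
    rcases mem_insert.1 hx with rfl | hx
    · exact h I ⟨h1, h2, h3⟩
    · exact h3 x hx hxI
  · obtain ⟨J, hJ, rfl⟩ := mem_image.1 hI
    obtain ⟨h1, h2, h3⟩ := mem_ms.1 hJ
    have hna : ∀ b ∈ J, ¬ G.Adj w b := by
      intro b hb hwb
      have := mem_sdiff.1 (h1 hb)
      exact this.2 (mem_nb.2 ⟨this.1, hwb⟩)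
    refine ⟨insert_subset_insert _ (h1.trans sdiff_subset), ?_, ?_⟩
    · intro a ha b hb hab
      rcases mem_insert.1 ha with ha' | ha' <;> rcases mem_insert.1 hb with hb' | hb'
      · rw [ha', hb'] at hab; exact G.irrefl hab
      · rw [ha'] at hab; exact hna b hb' hab
      · rw [hb'] at hab; exact hna a ha' hab.symm
      · exact h2 a ha' b hb' hab
    · intro x hx hxI
      rw [mem_insert, not_or] at hxI
      rcases mem_insert.1 hx with rfl | hx
      · exact absurd rfl hxI.1
      · by_cases hwx : G.Adj w x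
        · exact ⟨w, mem_insert_self _ _, hwx.symm⟩
        · obtain ⟨a, ha, hxa⟩ := h3 x (mem_sdiff.2 ⟨hx, fun h => hwx (mem_nb.1 h).2⟩) hxI.2
          exact ⟨a, mem_insert_of_mem ha, hxa⟩

lemma add_clique {S K : Finset V} (hd : Disjoint S K)
    (hK : ∀ a ∈ K, ∀ b ∈ K, a ≠ b → G.Adj a b) (hc : ∀ a ∈ K, ∀ b ∈ S, ¬ G.Adj a b) :
    K.card * mis G S ≤ mis G (S ∪ K) ∧ ed G (S ∪ K) = ed G S + K.card.choose 2 := by
  constructor
  · unfold mis
    rw [← card_product]
    apply card_le_card_of_injOn (fun p => insert p.1 p.2)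
    · rintro ⟨z, I⟩ hp
      simp only [coe_product, Set.mem_prod, mem_coe, mem_ms] at hp ⊢
      obtain ⟨hz, h1, h2, h3⟩ := hp
      refine ⟨insert_subset (mem_union_right _ hz) (h1.trans subset_union_left), ?_, ?_⟩
      · intro a ha b hb hab
        rcases mem_insert.1 ha with ha' | ha' <;> rcases mem_insert.1 hb with hb' | hb'
        · rw [ha', hb'] at hab; exact G.irrefl hab
        · rw [ha'] at hab; exact hc z hz b (h1 hb') hab
        · rw [hb'] at hab; exact hc z hz a (h1 ha') hab.symm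
        · exact h2 a ha' b hb' hab
      · intro x hx hxI
        rw [mem_insert, not_or] at hxI
        rcases mem_union.1 hx with hx | hx
        · obtain ⟨a, ha, hxa⟩ := h3 x hx hxI.2
          exact ⟨a, mem_insert_of_mem ha, hxa⟩
        · exact ⟨z, mem_insert_self _ _, hK x hx z hz hxI.1⟩
    · rintro ⟨z, I⟩ hp ⟨z', I'⟩ hp' h
      simp only [coe_product, Set.mem_prod, mem_coe, mem_ms] at hp hp' h
      have hzI : z ∉ I := fun h => disjoint_left.1 hd (hp.2.1 h) hp.1
      have hzI' : z ∉ I' := fun h => disjoint_left.1 hd (hp'.2.1 h) hp.1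
      have hzz : z = z' := by
        have : z ∈ insert z' I' := h ▸ mem_insert_self z I
        rcases mem_insert.1 this with h | h
        · exact h
        · exact absurd h hzI'
      subst hzz
      have := congrArg (fun K => K.erase z) h
      simp only [erase_insert hzI, erase_insert hzI'] at this
      rw [this]
  · have h1 := ed_split (G := G) (subset_union_right (s₁ := S) (s₂ := K))
    rw [union_sdiff_cancel_right hd] at h1
    have h2 : ∀ z ∈ K, dg G K z = K.card - 1 := by
      intro z hz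
      rw [← card_erase_of_mem hz]
      unfold dg; congr 1; ext t
      rw [mem_nb, mem_erase]
      exact ⟨fun h => ⟨(G.ne_of_adj h.2).symm, h.1⟩, fun h => ⟨h.2, hK z hz t h.2 h.1.symm⟩⟩
    have h3 : ∀ z ∈ K, dg G (S ∪ K) z = K.card - 1 := by
      intro z hz
      rw [dg_split (subset_union_right (s₁ := S) (s₂ := K)), union_sdiff_cancel_right hd, h2 z hz]
      have : dg G S z = 0 := by
        unfold dg; rw [card_eq_zero, eq_empty_iff_forall_notMem]
        intro t ht; exact hc z hz t (mem_nb.1 ht).1 (mem_nb.1 ht).2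
      omega
    have h4 := two_ed (G := G) K
    unfold e2 at h4
    rw [sum_congr rfl h2, sum_const, smul_eq_mul] at h4
    rw [sum_congr rfl h3, sum_const, smul_eq_mul] at h1
    rw [Nat.choose_two_right]
    omega

end general

abbrev VV : Type := Σ _ : ℕ, ℕ

def cl (a : ℕ → ℕ) (k : ℕ) : Finset VV := (range k).sigma (fun i => range (a i))

lemma mem_cl {a : ℕ → ℕ} {k : ℕ} {p : VV} : p ∈ cl a k ↔ p.1 < k ∧ p.2 < a p.1 := by
  unfold cl; rw [mem_sigma, mem_range, mem_range]

lemma cl_facts {G : SimpleGraph VV} [DecidableRel G.Adj] (a : ℕ → ℕ) (k : ℕ)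
    (h : ∀ p q : VV, p.1 < k → q.1 < k → (G.Adj p q ↔ p ≠ q ∧ p.1 = q.1)) :
    ∏ i ∈ range k, a i ≤ mis G (cl a k) ∧ ed G (cl a k) = ∑ i ∈ range k, (a i).choose 2 := by
  induction k with
  | zero =>
    have : cl a 0 = ∅ := by simp [cl]
    rw [this, mis_empty]; simp [ed, e2]
  | succ k ih =>
    obtain ⟨i1, i2⟩ := ih (fun p q hp hq => h p q (by omega) (by omega))
    set K : Finset VV := ({k} : Finset ℕ).sigma (fun i => range (a i)) with hK
    have hm : ∀ p : VV, p ∈ K ↔ p.1 = k ∧ p.2 < a p.1 := by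
      intro p; rw [hK, mem_sigma, mem_singleton, mem_range]
    have hu : cl a (k + 1) = cl a k ∪ K := by
      ext p; rw [mem_union, mem_cl, mem_cl, hm]; omega
    have hc : K.card = a k := by rw [hK, card_sigma]; simp
    have := add_clique (G := G) (S := cl a k) (K := K)
      (by
        rw [disjoint_left]; intro p hp hp'
        have := (mem_cl.1 hp).1; have := ((hm p).1 hp').1; omega)
      (by
        intro p hp q hq hpq
        have h1 := ((hm p).1 hp).1; have h2 := ((hm q).1 hq).1
        exact (h p q (by omega) (by omega)).2 ⟨hpq, by omega⟩)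
      (by
        intro p hp q hq hpq
        have h1 := ((hm p).1 hp).1; have h2 := (mem_cl.1 hq).1
        have := ((h p q (by omega) (by omega)).1 hpq).2
        omega)
    rw [hu, prod_range_succ, sum_range_succ, this.2, i2, hc]
    refine ⟨le_trans ?_ this.1, rfl⟩
    rw [hc, mul_comm]
    exact Nat.mul_le_mul_left _ i1

lemma card_cl (a : ℕ → ℕ) (k : ℕ) : (cl a k).card = ∑ i ∈ range k, a i := by
  unfold cl; rw [card_sigma]; simp

def GG (b : ℕ → ℕ) (k j : ℕ) : SimpleGraph VV where
  Adj p q := p ≠ q ∧ (p.1 = q.1 ∨ p.1 = k + 1 ∨ q.1 = k + 1 ∨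
    (p.1 = k ∧ (j ≤ q.1 ∨ b q.1 ≤ q.2)) ∨ (q.1 = k ∧ (j ≤ p.1 ∨ b p.1 ≤ p.2)))
  symm := ⟨by
    rintro p q ⟨h1, h2⟩
    exact ⟨h1.symm, by tauto⟩⟩
  loopless := ⟨fun p h => h.1 rfl⟩

instance (b : ℕ → ℕ) (k j : ℕ) : DecidableRel (GG b k j).Adj := by
  intro p q; unfold GG; infer_instance

lemma GG_adj {b : ℕ → ℕ} {k j : ℕ} {p q : VV} : (GG b k j).Adj p q ↔ p ≠ q ∧
    (p.1 = q.1 ∨ p.1 = k + 1 ∨ q.1 = k + 1 ∨
    (p.1 = k ∧ (j ≤ q.1 ∨ b q.1 ≤ q.2)) ∨ (q.1 = k ∧ (j ≤ p.1 ∨ b p.1 ≤ p.2))) := Iff.rfl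

theorem family (a b : ℕ → ℕ) (k j u : ℕ) (hj : j ≤ k) (ha : ∀ i < k, 1 ≤ a i)
    (hb : ∀ i < j, b i ≤ a i) :
    ∃ S : Finset VV, S.card = ∑ i ∈ range k, a i + 1 + u ∧
      ed (GG b k j) S + ∑ i ∈ range j, b i + (∑ i ∈ range k, a i).choose 2
        = ∑ i ∈ range k, (a i).choose 2 + (∑ i ∈ range k, a i + 1 + u).choose 2 ∧
      u + ∏ i ∈ range k, a i + (if j < k then ∏ i ∈ range j, b i else 0) ≤ mis (GG b k j) S ∧
      (⟨k, 0⟩ : VV) ∈ S ∧ ∀ p ∈ S, p.1 ≤ k ∨ (p.1 = k + 1 ∧ p.2 < u) := by
  induction u with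
  | zero =>
    have hw : (⟨k, 0⟩ : VV) ∉ cl a k := fun h => absurd (mem_cl.1 h).1 (lt_irrefl k)
    have hadj : ∀ p q : VV, p.1 < k → q.1 < k → ((GG b k j).Adj p q ↔ p ≠ q ∧ p.1 = q.1) := by
      intro p q hp hq
      rw [GG_adj]
      constructor
      · rintro ⟨h1, h2⟩; exact ⟨h1, by omega⟩
      · rintro ⟨h1, h2⟩; exact ⟨h1, Or.inl h2⟩
    obtain ⟨f1, f2⟩ := cl_facts a k hadj
    obtain ⟨g1, _⟩ := cl_facts b j (fun p q hp hq => hadj p q (by omega) (by omega))
    have hsd : cl a k \ nb (GG b k j) (cl a k) ⟨k, 0⟩ = cl b j := by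
      ext p
      rw [mem_sdiff, mem_nb, mem_cl, mem_cl, GG_adj]
      constructor
      · rintro ⟨h1, h2⟩
        have hne : (⟨k, 0⟩ : VV) ≠ p := by
          intro h; rw [← h] at h1; exact absurd h1.1 (lt_irrefl k)
        by_contra h3
        apply h2
        refine ⟨h1, hne, Or.inr (Or.inr (Or.inr (Or.inl ⟨rfl, by omega⟩)))⟩
      · rintro ⟨h1, h2⟩
        have := hb p.1 h1
        refine ⟨by omega, ?_⟩
        rintro ⟨_, _, h4⟩
        simp only at h4
        omega
    have hdg := card_sdiff_add_card_eq_card (nb_subset (G := GG b k j) (cl a k) ⟨k, 0⟩)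
    rw [hsd, card_cl, card_cl] at hdg
    refine ⟨insert ⟨k, 0⟩ (cl a k), ?_, ?_, ?_, mem_insert_self _ _, ?_⟩
    · rw [card_insert_of_notMem hw, card_cl]
    · rw [ed_insert hw, f2, add_zero, choose_two_succ]
      unfold dg
      omega
    · split_ifs with hjk
      · have := mis_insert_ge (G := GG b k j) hw (by
          intro I hI
          have hm : (⟨k - 1, 0⟩ : VV) ∈ cl a k := mem_cl.2 ⟨by simp only; omega,
            ha (k - 1) (by omega)⟩
          obtain ⟨z, hz, hzI⟩ := isM_meets hI hm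
          refine ⟨z, hzI, ?_⟩
          have hz1 : z.1 = k - 1 := by
            rcases mem_cnb.1 hz with h | h
            · rw [h]
            · exact ((hadj _ _ (mem_cl.1 hm).1 (mem_cl.1 h.1).1).1 h.2).2.symm
          rw [GG_adj]
          refine ⟨?_, Or.inr (Or.inr (Or.inr (Or.inl ⟨rfl, by omega⟩)))⟩
          intro h; rw [← h] at hz1; simp only at hz1; omega)
        rw [hsd] at this
        omega
      · have := mis_le_insert (G := GG b k j) _ _ hw
        omega
    · intro p hp
      rcases mem_insert.1 hp with h | h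
      · rw [h]; exact Or.inl le_rfl
      · exact Or.inl (mem_cl.1 h).1.le
  | succ u ih =>
    obtain ⟨S, h1, h2, h3, h4, h5⟩ := ih
    have hw : (⟨k + 1, u⟩ : VV) ∉ S := by
      intro h; have := h5 _ h; simp only at this; omega
    have hall : ∀ p ∈ S, (GG b k j).Adj ⟨k + 1, u⟩ p := by
      intro p hp
      rw [GG_adj]
      exact ⟨fun h => hw (h ▸ hp), Or.inr (Or.inl rfl)⟩
    have hnb : nb (GG b k j) S ⟨k + 1, u⟩ = S := by
      ext p; rw [mem_nb]; exact ⟨fun h => h.1, fun h => ⟨h, hall p h⟩⟩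
    refine ⟨insert ⟨k + 1, u⟩ S, ?_, ?_, ?_, mem_insert_of_mem h4, ?_⟩
    · rw [card_insert_of_notMem hw, h1]; ring
    · rw [ed_insert hw, ← add_assoc (_ + 1), choose_two_succ]
      unfold dg
      rw [hnb, h1]
      omega
    · have := mis_insert_ge (G := GG b k j) hw (by
        intro I hI
        obtain ⟨z, _, hzI⟩ := isM_meets hI h4
        exact ⟨z, hzI, hall z (hI.1 hzI)⟩)
      rw [hnb, sdiff_self, bot_eq_empty, mis_empty] at this
      omega
    · intro p hp
      rcases mem_insert.1 hp with h | h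
      · rw [h]; exact Or.inr ⟨rfl, by simp⟩
      · have := h5 p h; omega

/- balanced partitions -/

def part (n k i : ℕ) : ℕ := if i < n % k then n / k + 1 else n / k

lemma prod_step {M : Type*} [CommMonoid M] (x y : M) {r k : ℕ} (h : r ≤ k) :
    ∏ i ∈ range k, (if i < r then x else y) = y ^ (k - r) * x ^ r := by
  obtain ⟨t, rfl⟩ := Nat.exists_eq_add_of_le h
  rw [prod_range_add, prod_congr rfl (fun i hi => if_pos (mem_range.1 hi)),
    prod_congr rfl (fun i _ => if_neg (by omega))]
  simp [mul_comm]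

lemma sum_step (x y : ℕ) {r k : ℕ} (h : r ≤ k) :
    ∑ i ∈ range k, (if i < r then x else y) = (k - r) * y + r * x := by
  obtain ⟨t, rfl⟩ := Nat.exists_eq_add_of_le h
  rw [sum_range_add, sum_congr rfl (fun i hi => if_pos (mem_range.1 hi)),
    sum_congr rfl (fun i _ => if_neg (by omega))]
  simp [add_comm]

lemma mod_le' {n k : ℕ} (h : k = 0 → n = 0) : n % k ≤ k := by
  rcases Nat.eq_zero_or_pos k with h0 | h0
  · rw [h h0]; simp
  · exact (Nat.mod_lt _ h0).le

lemma prod_part {n k : ℕ} (h : k = 0 → n = 0) : ∏ i ∈ range k, part n k i = bal n k :=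
  prod_step _ _ (mod_le' h)

lemma sum_part {n k : ℕ} (h : k = 0 → n = 0) : ∑ i ∈ range k, part n k i = n := by
  unfold part
  rw [sum_step _ _ (mod_le' h)]
  have h1 := Nat.div_add_mod n k
  obtain ⟨t, ht⟩ := Nat.exists_eq_add_of_le (mod_le' h)
  generalize n % k = r at *
  generalize n / k = c at *
  subst ht
  rw [Nat.add_sub_cancel_left, ← h1]; ring

lemma sum_choose_part {n k : ℕ} (h : k = 0 → n = 0) :
    ∑ i ∈ range k, (part n k i).choose 2 = inner n k := by
  unfold part inner
  rw [sum_congr rfl (fun i _ => apply_ite (fun x => Nat.choose x 2) _ _ _),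
    sum_step _ _ (mod_le' h)]
  obtain ⟨t, ht⟩ := Nat.exists_eq_add_of_le (mod_le' h)
  generalize n % k = r at *
  generalize n / k = c at *
  subst ht
  rw [Nat.add_sub_cancel_left, Nat.choose_succ_succ' c 1, Nat.choose_one_right]; ring

lemma part_le {n k j q i : ℕ} (hi : i < j) (h : q ≤ top n k j) : part q j i ≤ part n k i := by
  unfold part
  unfold top at h
  have h1 := Nat.div_add_mod q j
  have h2 := Nat.mod_lt q (show 0 < j by omega)
  generalize n % k = r at *
  generalize n / k = c at *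
  generalize q % j = s at *
  generalize q / j = d at *
  rcases lt_trichotomy d c with h3 | h3 | h3
  · split_ifs <;> omega
  · subst h3; split_ifs <;> omega
  · have h4 : j * (c + 1) ≤ j * d := Nat.mul_le_mul_left _ h3
    rw [mul_add, mul_one] at h4
    have h5 : d = c + 1 := by
      by_contra h5
      have h6 : j * (c + 2) ≤ j * d := Nat.mul_le_mul_left _ (by omega)
      rw [mul_add] at h6
      omega
    split_ifs <;> omega

/- transfer to `Fin v` -/

lemma ncard_edges {W : Type*} [Fintype W] [DecidableEq W] (H : SimpleGraph W)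
    [DecidableRel H.Adj] : H.edgeSet.ncard = ed H univ := by
  have h1 := H.sum_degrees_eq_twice_card_edges
  have h2 := two_ed (G := H) univ
  have h3 : e2 H univ = ∑ v, H.degree v := by
    unfold e2 dg nb
    apply sum_congr rfl
    intro x _
    rw [← SimpleGraph.card_neighborFinset_eq_degree, SimpleGraph.neighborFinset_eq_filter]
  have h4 : H.edgeSet.ncard = H.edgeFinset.card := by
    rw [← Set.ncard_coe_finset, SimpleGraph.coe_edgeFinset]
  omega

lemma ncard_mis {W : Type*} [Fintype W] [DecidableEq W] (H : SimpleGraph W)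
    [DecidableRel H.Adj] : {S : Set W | Maximal H.IsIndepSet S}.ncard = mis H univ := by
  unfold mis
  rw [← Set.ncard_coe_finset, ← Set.ncard_image_of_injective _ Finset.coe_injective]
  congr 1
  ext S
  simp only [Set.mem_ofPred_eq, Set.mem_image, mem_coe, mem_ms]
  constructor
  · intro h
    classical
    refine ⟨S.toFinset, ⟨subset_univ _, ?_, ?_⟩, Set.coe_toFinset S⟩
    · intro a ha b hb hab
      exact h.1 (Set.mem_toFinset.1 ha) (Set.mem_toFinset.1 hb) (H.ne_of_adj hab) hab
    · intro x _ hx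
      by_contra hcon
      push Not at hcon
      apply hx
      rw [Set.mem_toFinset]
      have : H.IsIndepSet (insert x S) := by
        intro a ha b hb hab hadj
        rcases ha with ha | ha <;> rcases hb with hb | hb
        · exact hab (ha.trans hb.symm)
        · exact hcon b (Set.mem_toFinset.2 hb) (ha ▸ hadj)
        · exact hcon a (Set.mem_toFinset.2 ha) (hb ▸ hadj.symm)
        · exact h.1 ha hb hab hadj
      exact h.2 this (Set.subset_insert _ _) (Set.mem_insert _ _)
  · rintro ⟨I, ⟨_, h2, h3⟩, rfl⟩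
    refine ⟨fun a ha b hb _ hab => h2 a ha b hb hab, ?_⟩
    intro T hT hIT x hx
    by_contra hxI
    obtain ⟨a, ha, hxa⟩ := h3 x (mem_univ _) hxI
    exact hT hx (hIT ha) (H.ne_of_adj hxa) hxa

lemma transfer {V : Type*} [DecidableEq V] (G : SimpleGraph V) [DecidableRel G.Adj]
    (S : Finset V) {v : ℕ} (hv : S.card = v) :
    ∃ H : SimpleGraph (Fin v), H.edgeSet.ncard = ed G S ∧
      mis G S ≤ {T : Set (Fin v) | Maximal H.IsIndepSet T}.ncard := by
  let f : Fin v ↪ V := (S.equivFinOfCardEq hv).symm.toEmbedding.trans (Function.Embedding.subtype _)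
  have hf : univ.map f = S := by
    apply eq_of_subset_of_card_le
    · intro x hx
      obtain ⟨i, _, rfl⟩ := mem_map.1 hx
      exact ((S.equivFinOfCardEq hv).symm i).2
    · rw [card_map, card_univ, Fintype.card_fin, hv]
  let H : SimpleGraph (Fin v) := G.comap f
  have : DecidableRel H.Adj := fun a b => Classical.propDecidable _
  have hadj : ∀ a b, H.Adj a b ↔ G.Adj (f a) (f b) := fun _ _ => Iff.rfl
  refine ⟨H, ?_, ?_⟩
  · rw [ncard_edges, ← hf]
    unfold ed e2
    simp only [dg_eq_sum, sum_map]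
    congr 1
    exact sum_congr rfl (fun a _ => sum_congr rfl (fun b _ => if_congr (hadj a b) rfl rfl))
  · rw [ncard_mis]
    unfold mis
    apply card_le_card_of_injOn (fun I => univ.filter (fun x => f x ∈ I))
    · intro I hI
      simp only [mem_coe, mem_ms] at hI ⊢
      obtain ⟨h1, h2, h3⟩ := hI
      refine ⟨subset_univ _, ?_, ?_⟩
      · intro a ha b hb
        exact h2 _ (mem_filter.1 ha).2 _ (mem_filter.1 hb).2
      · intro x _ hx
        obtain ⟨a, ha, hxa⟩ := h3 (f x) (hf ▸ mem_map_of_mem f (mem_univ x))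
          (fun h => hx (mem_filter.2 ⟨mem_univ _, h⟩))
        have := h1 ha
        rw [← hf] at this
        obtain ⟨i, _, rfl⟩ := mem_map.1 this
        exact ⟨i, mem_filter.2 ⟨mem_univ _, ha⟩, hxa⟩
    · intro I hI J hJ h
      simp only [mem_coe, mem_ms] at hI hJ
      have key : ∀ I J : Finset V, I ⊆ S →
          univ.filter (fun x => f x ∈ I) = univ.filter (fun x => f x ∈ J) → I ⊆ J := by
        intro I J hI h a ha
        have := hI ha
        rw [← hf] at this
        obtain ⟨i, _, rfl⟩ := mem_map.1 this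
        have h1 : i ∈ univ.filter (fun x => f x ∈ I) := mem_filter.2 ⟨mem_univ _, ha⟩
        rw [h] at h1
        exact (mem_filter.1 h1).2
      exact Subset.antisymm (key I J hI.1 h) (key J I hJ.1 h.symm)

def Adm (v e n k j q : ℕ) : Prop :=
  k ≤ n ∧ (k = 0 → n = 0) ∧ j ≤ k ∧ j ≤ q ∧ q ≤ top n k j ∧
    e + n.choose 2 + q = v.choose 2 + inner n k

def value (v n k j q : ℕ) : ℕ := (v - 1 - n) + bal n k + (if j < k then bal q j else 0)

theorem realize {v e n k j q : ℕ} (hn : n < v) (h : Adm v e n k j q) :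
    ∃ H : SimpleGraph (Fin v), H.edgeSet.ncard = e ∧
      value v n k j q ≤ {T : Set (Fin v) | Maximal H.IsIndepSet T}.ncard := by
  obtain ⟨h1, h2, h3, h4, h5, h6⟩ := h
  have hq : j = 0 → q = 0 := by
    rintro rfl; simp [top] at h5; exact h5
  obtain ⟨S, f1, f2, f3, -, -⟩ := family (part n k) (part q j) k j (v - 1 - n) h3
    (by
      intro i hi
      have : 1 ≤ n / k := (Nat.one_le_div_iff (by omega)).2 h1
      unfold part; split_ifs <;> omega)
    (fun i hi => part_le hi h5)
  rw [sum_part h2] at f1 f2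
  rw [sum_part hq, sum_choose_part h2, show n + 1 + (v - 1 - n) = v by omega] at f2
  rw [prod_part h2, prod_part hq] at f3
  obtain ⟨H, g1, g2⟩ := transfer (GG (part q j) k j) S (v := v) (by omega)
  exact ⟨H, by omega, f3.trans g2⟩

lemma top_le {n k j : ℕ} (h3 : j ≤ k) : top n k j ≤ n := by
  unfold top
  have h1 := Nat.div_add_mod n k
  have h4 : j * (n / k) ≤ k * (n / k) := Nat.mul_le_mul_right _ h3
  omega

theorem le_muFormula {v e n k j q : ℕ} (hn : n < v) (h : Adm v e n k j q) :
    value v n k j q ≤ muFormula v e := by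
  obtain ⟨h1, h2, h3, h4, h5, h6⟩ := h
  have h7 := top_le (n := n) h3
  unfold muFormula
  refine le_trans ?_ (le_sup (f := fun n => _) (mem_range.2 hn))
  refine le_trans ?_ (le_sup (f := fun k => _) (mem_range.2 (show k < v by omega)))
  refine le_trans ?_ (le_sup (f := fun j => _) (mem_range.2 (show j < v by omega)))
  refine le_trans ?_ (le_sup (f := fun q => _) (mem_range.2 (show q < v by omega)))
  rw [if_pos ⟨h1, h2, h3, h4, h5, h6⟩]
  exact le_rfl

theorem muFormula_attained {v e : ℕ} (h : 0 < muFormula v e) :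
    ∃ n k j q, n < v ∧ Adm v e n k j q ∧ muFormula v e = value v n k j q := by
  have hv : (range v).Nonempty := by
    rw [nonempty_range_iff]; rintro rfl; simp [muFormula] at h
  unfold muFormula at h ⊢
  obtain ⟨n, hn, h1⟩ := exists_mem_eq_sup _ hv (fun n => (range v).sup fun k =>
    (range v).sup fun j => (range v).sup fun q =>
      if k ≤ n ∧ (k = 0 → n = 0) ∧ j ≤ k ∧ j ≤ q ∧ q ≤ top n k j ∧
          e + n.choose 2 + q = v.choose 2 + inner n k then
        (v - 1 - n) + bal n k + (if j < k then bal q j else 0)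
      else 0)
  rw [h1] at h ⊢
  obtain ⟨k, _, h2⟩ := exists_mem_eq_sup _ hv (fun k =>
    (range v).sup fun j => (range v).sup fun q =>
      if k ≤ n ∧ (k = 0 → n = 0) ∧ j ≤ k ∧ j ≤ q ∧ q ≤ top n k j ∧
          e + n.choose 2 + q = v.choose 2 + inner n k then
        (v - 1 - n) + bal n k + (if j < k then bal q j else 0)
      else 0)
  rw [h2] at h ⊢
  obtain ⟨j, _, h3⟩ := exists_mem_eq_sup _ hv (fun j => (range v).sup fun q =>
      if k ≤ n ∧ (k = 0 → n = 0) ∧ j ≤ k ∧ j ≤ q ∧ q ≤ top n k j ∧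
          e + n.choose 2 + q = v.choose 2 + inner n k then
        (v - 1 - n) + bal n k + (if j < k then bal q j else 0)
      else 0)
  rw [h3] at h ⊢
  obtain ⟨q, _, h4⟩ := exists_mem_eq_sup _ hv (fun q =>
      if k ≤ n ∧ (k = 0 → n = 0) ∧ j ≤ k ∧ j ≤ q ∧ q ≤ top n k j ∧
          e + n.choose 2 + q = v.choose 2 + inner n k then
        (v - 1 - n) + bal n k + (if j < k then bal q j else 0)
      else 0)
  rw [h4] at h ⊢
  refine ⟨n, k, j, q, mem_range.1 hn, ?_⟩
  split_ifs at h ⊢ with h5 h6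
  · exact ⟨h5, by simp [value, h6]⟩
  · exact ⟨h5, by simp [value, h6]⟩
  · omega

end Pool.Agent.P.MP_88303f_co
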