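import Pool.Agent.P.MP_88303f_co.FinDef

namespace Pool.Agent.P.MP_88303f_co

theorem fin2 : al (fun v => finRow 2 (v + 1)) 30 = true := by decide +kernel
theorem fin3 : al (fun v => finRow 3 (v + 1)) 30 = true := by decide +kernel
theorem fin4 : al (fun v => finRow 4 (v + 1)) 30 = true := by decide +kernel
theorem fin5 : al (fun v => finRow 5 (v + 1)) 30 = true := by decide +kernel

end Pool.Agent.P.MP_88303f_co
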