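import Pool.Agent.P.MP_88303f_co.Chk
import Pool.Agent.P.MP_88303f_co.Tab

namespace Pool.Agent.P.MP_88303f_co

def finU (D v e : ℕ) (dv de : ℕ) : ℕ :=
  if Nat.ble dv v && Nat.ble de e then tU D (v - dv) (e - de) else 0

def finChk (D v e : ℕ) : Bool :=
  Nat.blt (v * D) (2 * e) ||
    ((D == 2 || Nat.ble (tN (D - 1) v e) (tN D v e)) &&
      chkN (finU D v e) (if Nat.ble D e then tN D (v - 1) (e - D) else 0) D (Nat.ble v e)
        (Nat.ble (3 * v) (2 * e)) (tN D v e) &&
      chkU (finU D v e) D (tN D v e) (tU D v e))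

def finRow (D v : ℕ) : Bool := al (fun e => finChk D v e) 76

end Pool.Agent.P.MP_88303f_co
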