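import Mathlib

namespace Pool.Agent.P.MP_88303f_co

set_option linter.unusedSimpArgs false

/-- the Moon Moser function -/
def mm : ℕ → ℕ
  | 0 => 1 | 1 => 1 | 2 => 2 | 3 => 3 | 4 => 4
  | n + 5 => 3 * mm (n + 2)

lemma mm_add_three {n : ℕ} (h : 2 ≤ n) : mm (n + 3) = 3 * mm n := by
  obtain ⟨k, rfl⟩ := Nat.exists_eq_add_of_le' h
  rfl

lemma mm_three_mul (r c : ℕ) (h : 2 ≤ c) : mm (3 * r + c) = 3 ^ r * mm c := by
  induction r with
  | zero => simp
  | succ r ih =>
    rw [show 3 * (r + 1) + c = 3 * r + c + 3 by ring, mm_add_three (by omega), ih]; ring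

lemma ind3 (P : ℕ → Prop) (k : ℕ) (h0 : ∀ n < k + 3, P n) (h1 : ∀ n, k ≤ n → P n → P (n + 3)) :
    ∀ n, P n := by
  intro n
  induction n using Nat.strong_induction_on with
  | _ n ih =>
    by_cases h : n < k + 3
    · exact h0 n h
    · obtain ⟨j, rfl⟩ : ∃ j, n = j + 3 := ⟨n - 3, by omega⟩
      exact h1 j (by omega) (ih j (by omega))

lemma mm_pos (n : ℕ) : 0 < mm n := by
  induction n using ind3 (k := 2) with
  | h0 n h => interval_cases n <;> decide
  | h1 n h ih => rw [mm_add_three h]; omega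

lemma mm_conv (n : ℕ) : mm (n + 1) + mm (n + 1) ≤ mm n + mm (n + 2) := by
  induction n using ind3 (k := 2) with
  | h0 n h => interval_cases n <;> decide
  | h1 n h ih =>
    rw [show n + 3 + 1 = n + 1 + 3 by ring, show n + 3 + 2 = n + 2 + 3 by ring,
      mm_add_three h, mm_add_three (by omega), mm_add_three (by omega)]
    omega

lemma mm_step {a b : ℕ} (h : a ≤ b) : mm (a + 1) + mm b ≤ mm a + mm (b + 1) := by
  induction b, h using Nat.le_induction with
  | base => omega
  | succ b _ ih => have := mm_conv b; rw [show b + 1 + 1 = b + 2 by ring]; omega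

lemma mm_shift {a b : ℕ} (h : a ≤ b) (k : ℕ) : mm (a + k) + mm b ≤ mm a + mm (b + k) := by
  induction k with
  | zero => simp
  | succ k ih =>
    have := mm_step (a := a + k) (b := b + k) (by omega)
    rw [← add_assoc, ← add_assoc]; omega

lemma mm_mono {a b : ℕ} (h : a ≤ b) : mm a ≤ mm b := by
  induction b, h using Nat.le_induction with
  | base => exact le_rfl
  | succ b _ ih =>
    have := mm_step (a := 0) (b := b) (Nat.zero_le _)
    have h1 : mm (0 + 1) = 1 := rfl
    have h0 : mm 0 = 1 := rfl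
    omega

lemma mm_add_le (a b : ℕ) : mm a + mm b ≤ mm (a + b) + 1 := by
  have := mm_shift (a := 0) (b := b) (Nat.zero_le _) a
  have h0 : mm 0 = 1 := rfl
  rw [zero_add, add_comm b a] at this
  omega

lemma mm_major {a b R c : ℕ} (ha : a ≤ R) (hb : b ≤ R) (h : a + b = R + c) :
    mm a + mm b ≤ mm R + mm c := by
  have := mm_shift (a := c) (b := b) (by omega) (R - b)
  rw [show c + (R - b) = a by omega, show b + (R - b) = R by omega] at this
  omega

lemma mm_two (n : ℕ) : 2 * mm n ≤ mm (n + 2) := by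
  induction n using ind3 (k := 2) with
  | h0 n h => interval_cases n <;> decide
  | h1 n h ih =>
    rw [show n + 3 + 2 = n + 2 + 3 by ring, mm_add_three h, mm_add_three (by omega)]
    omega

lemma mm_three (n : ℕ) : 3 * mm n ≤ mm (n + 3) := by
  by_cases h : 2 ≤ n
  · rw [mm_add_three h]
  · have : n < 2 := by omega
    interval_cases n <;> decide

lemma mm_mul (a n : ℕ) : a * mm n ≤ mm (n + a) := by
  induction a using ind3 (k := 2) generalizing n with
  | h0 a h =>
    interval_cases a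
    · simp
    · simpa using mm_mono (Nat.le_succ n)
    · exact mm_two n
    · exact mm_three n
    · have h1 := mm_two n
      have h2 := mm_two (n + 2)
      rw [show n + 2 + 2 = n + 4 by ring] at h2
      omega
  | h1 a h ih =>
    have h1 := ih n
    have h2 := mm_three (n + a)
    rw [show n + (a + 3) = n + a + 3 by ring]
    have h3 : (a + 3) * mm n ≤ 3 * (a * mm n) := by
      rw [← mul_assoc]; exact Nat.mul_le_mul_right _ (by omega)
    omega

/-- the sparse function -/
def phiN : ℕ → ℚ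
  | 0 => 1 | 1 => 1 | 2 => 3 / 2 | 3 => 3 | 4 => 3 | 5 => 5 | 6 => 9 | 7 => 10 | 8 => 16
  | n + 9 => 3 * phiN (n + 6)

def phi (s : ℤ) : ℚ := if s ≤ 0 then 2 ^ s else phiN s.toNat

def psi (s : ℤ) : ℚ := if s ≤ 0 then 2 ^ s else mm s.toNat

lemma phi_add_three {s : ℤ} (h : 6 ≤ s) : phi (s + 3) = 3 * phi s := by
  unfold phi
  rw [if_neg (by omega), if_neg (by omega)]
  obtain ⟨k, rfl⟩ : ∃ k : ℕ, s = k + 6 := ⟨(s - 6).toNat, by omega⟩
  rw [show ((k : ℤ) + 6 + 3).toNat = k + 9 by omega, show ((k : ℤ) + 6).toNat = k + 6 by omega]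
  rfl

lemma psi_add_three {s : ℤ} (h : 2 ≤ s) : psi (s + 3) = 3 * psi s := by
  unfold psi
  rw [if_neg (by omega), if_neg (by omega), show (s + 3).toNat = s.toNat + 3 by omega,
    mm_add_three (by omega)]
  push_cast; ring

lemma phi_neg {s : ℤ} (h : s ≤ 0) (c : ℕ) : phi (s - c) = 2 ^ s / 2 ^ c := by
  unfold phi
  rw [if_pos (by omega), zpow_sub₀ (by norm_num), zpow_natCast]

lemma psi_neg {s : ℤ} (h : s ≤ 0) (c : ℕ) : psi (s - c) = 2 ^ s / 2 ^ c := by
  unfold psi
  rw [if_pos (by omega), zpow_sub₀ (by norm_num), zpow_natCast]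

lemma indZ (P : ℤ → Prop) (h0 : ∀ s ≤ 0, P s) (h1 : ∀ s, 1 ≤ s → s ≤ 16 → P s)
    (h2 : ∀ s, 14 ≤ s → P s → P (s + 3)) : ∀ s, P s := by
  intro s
  by_cases h : s ≤ 0
  · exact h0 s h
  · obtain ⟨n, rfl⟩ : ∃ n : ℕ, s = n := ⟨s.toNat, by omega⟩
    induction n using ind3 (k := 14) with
    | h0 n hn => exact h1 _ (by omega) (by omega)
    | h1 n hn ih =>
      push_cast
      exact h2 _ (by omega) (ih (by omega))

lemma phi_sh {s : ℤ} (h : 14 ≤ s) (c : ℕ) (hc : c ≤ 8) : phi (s + 3 - c) = 3 * phi (s - c) := by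
  rw [← phi_add_three (by omega)]; congr 1; ring

lemma psi_sh {s : ℤ} (h : 14 ≤ s) (c : ℕ) (hc : c ≤ 8) : psi (s + 3 - c) = 3 * psi (s - c) := by
  rw [← psi_add_three (by omega)]; congr 1; ring

/-- a combined inequality scheme -/
lemma scheme (a b c d : ℚ) (i j k l : ℕ) (hi : i ≤ 8) (hj : j ≤ 8) (hk : k ≤ 8) (hl : l ≤ 8)
    (h0 : a / 2 ^ i + b / 2 ^ j ≤ c / 2 ^ k + d / 2 ^ l)
    (h1 : ∀ s : ℤ, 1 ≤ s → s ≤ 16 →
      a * phi (s - i) + b * psi (s - j) ≤ c * phi (s - k) + d * psi (s - l)) (s : ℤ) :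
    a * phi (s - i) + b * psi (s - j) ≤ c * phi (s - k) + d * psi (s - l) := by
  induction s using indZ with
  | h0 s hs =>
    rw [phi_neg hs, phi_neg hs, psi_neg hs, psi_neg hs]
    have hp : (0 : ℚ) < 2 ^ s := zpow_pos (by norm_num) s
    have := mul_le_mul_of_nonneg_left h0 hp.le
    calc _ = 2 ^ s * (a / 2 ^ i + b / 2 ^ j) := by ring
      _ ≤ _ := this
      _ = _ := by ring
  | h1 s h h' => exact h1 s h h'
  | h2 s hs ih =>
    rw [phi_sh hs _ hi, phi_sh hs _ hk, psi_sh hs _ hj, psi_sh hs _ hl]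
    linarith

lemma I1 (s : ℤ) : phi (s + 1) ≤ 2 * phi s := by
  have := scheme 1 0 2 0 0 0 1 0 (by omega) (by omega) (by omega) (by omega) (by norm_num)
    (by intro s h h'; interval_cases s <;> decide +kernel) (s + 1)
  simpa using this

lemma I2 (s : ℤ) : phi (s - 2) + psi (s - 1) / 2 ≤ phi s := by
  have := scheme 1 (1 / 2) 1 0 2 1 0 0 (by omega) (by omega) (by omega) (by omega) (by norm_num)
    (by intro s h h'; interval_cases s <;> decide +kernel) s
  simp only [Nat.cast_ofNat, Nat.cast_one, Nat.cast_zero, sub_zero] at this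
  linarith

lemma I4 (s : ℤ) : 4 * phi (s - 5) + 2 * psi (s - 6) ≤ phi s := by
  have := scheme 4 2 1 0 5 6 0 0 (by omega) (by omega) (by omega) (by omega) (by norm_num)
    (by intro s h h'; interval_cases s <;> decide +kernel) s
  simp only [Nat.cast_ofNat, Nat.cast_one, Nat.cast_zero, sub_zero] at this
  linarith

lemma I5 (s : ℤ) : 10 * psi (s - 7) ≤ phi s := by
  have := scheme 0 10 1 0 0 7 0 0 (by omega) (by omega) (by omega) (by omega) (by norm_num)
    (by intro s h h'; interval_cases s <;> decide +kernel) s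
  simp only [Nat.cast_ofNat, Nat.cast_one, Nat.cast_zero, sub_zero] at this
  linarith

lemma I6 (s : ℤ) : 3 * phi (s - 3) ≤ phi s := by
  have := scheme 3 0 1 0 3 0 0 0 (by omega) (by omega) (by omega) (by omega) (by norm_num)
    (by intro s h h'; interval_cases s <;> decide +kernel) s
  simp only [Nat.cast_ofNat, Nat.cast_one, Nat.cast_zero, sub_zero] at this
  linarith

lemma I3 (s : ℤ) : 2 * psi (s - 4) + psi (s - 2) / 2 ≤ phi s := by
  induction s using indZ with
  | h0 s hs =>
    have h1 := psi_neg hs 4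
    have h2 := psi_neg hs 2
    have h3 := phi_neg hs 0
    have hp : (0 : ℚ) < 2 ^ s := zpow_pos (by norm_num) s
    simp only [Nat.cast_ofNat, Nat.cast_zero, sub_zero] at h1 h2 h3
    rw [h1, h2, h3]; linarith
  | h1 s h h' => interval_cases s <;> decide +kernel
  | h2 s hs ih =>
    have h1 := psi_sh hs 4 (by omega)
    have h2 := psi_sh hs 2 (by omega)
    simp only [Nat.cast_ofNat] at h1 h2
    rw [h1, h2, phi_add_three (by omega)]; linarith

lemma P1 (s : ℤ) : phi s ≤ psi s := by
  have := scheme 1 0 0 1 0 0 0 0 (by omega) (by omega) (by omega) (by omega) (by norm_num)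
    (by intro s h h'; interval_cases s <;> decide +kernel) s
  simpa using this

lemma P2 (s : ℤ) : 2 * psi (s - 2) ≤ psi s := by
  have := scheme 0 2 0 1 0 2 0 0 (by omega) (by omega) (by omega) (by omega) (by norm_num)
    (by intro s h h'; interval_cases s <;> decide +kernel) s
  simpa using this

lemma P3 (s : ℤ) : psi (s - 1) ≤ psi s := by
  have := scheme 0 1 0 1 0 1 0 0 (by omega) (by omega) (by omega) (by omega) (by norm_num)
    (by intro s h h'; interval_cases s <;> decide +kernel) s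
  simpa using this

lemma psi_mono {s t : ℤ} (h : s ≤ t) : psi s ≤ psi t := by
  obtain ⟨k, rfl⟩ : ∃ k : ℕ, t = s + k := ⟨(t - s).toNat, by omega⟩
  induction k with
  | zero => simp
  | succ k ih =>
    have := P3 (s + (k + 1 : ℕ))
    rw [show s + ((k + 1 : ℕ) : ℤ) - 1 = s + k by push_cast; ring] at this
    exact (ih (by omega)).trans this

lemma phi_le_psi_pow (k : ℕ) (s : ℤ) : 2 ^ k * phi (s - 2 * k) ≤ psi s := by
  induction k generalizing s with
  | zero => simpa using P1 s
  | succ k ih =>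
    have h1 := ih (s - 2)
    have h2 := P2 s
    rw [show s - 2 * ((k + 1 : ℕ) : ℤ) = s - 2 - 2 * k by push_cast; ring, pow_succ]
    linarith

lemma psi_nat (n : ℕ) : psi n = mm n := by
  unfold psi
  split_ifs with h
  · have : n = 0 := by omega
    subst this; simp [mm]
  · simp

/-- the scale invariant majorant of `phi` -/
def phiInf (s : ℤ) : ℚ := (if s % 3 = 0 then 9 else if s % 3 = 1 then 10 else 16) * 3 ^ (s / 3 - 2)

lemma phiInf_add (s : ℤ) : phiInf (s + 3) = 3 * phiInf s := by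
  unfold phiInf
  rw [show (s + 3) % 3 = s % 3 by omega, show (s + 3) / 3 - 2 = s / 3 - 2 + 1 by omega,
    zpow_add₀ (by norm_num)]
  ring

lemma phi_le_phiInf (s : ℤ) : phi s ≤ phiInf s := by
  induction s using indZ with
  | h0 s hs =>
    obtain ⟨n, rfl⟩ : ∃ n : ℕ, s = -n := ⟨(-s).toNat, by omega⟩
    clear hs
    induction n using ind3 (k := 0) with
    | h0 n hn => interval_cases n <;> decide +kernel
    | h1 n _ ih =>
      have h1 := phiInf_add (-((n + 3 : ℕ) : ℤ))
      rw [show -((n + 3 : ℕ) : ℤ) + 3 = -n by push_cast; ring] at h1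
      have h2 := phi_neg (s := -n) (by omega) 3
      have h3 := phi_neg (s := -n) (by omega) 0
      simp only [Nat.cast_zero, sub_zero] at h3
      rw [show -((n + 3 : ℕ) : ℤ) = -n - (3 : ℕ) by push_cast; ring] at h1 ⊢
      have hp : (0 : ℚ) < 2 ^ (-(n : ℤ)) := zpow_pos (by norm_num) _
      rw [h2]; rw [h3] at ih
      generalize (2 : ℚ) ^ (-(n : ℤ)) = u at *
      norm_num at ih h1 ⊢
      linarith
  | h1 s h h' => interval_cases s <;> decide +kernel
  | h2 s hs ih => rw [phi_add_three (by omega), phiInf_add]; linarith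

/-- smooth majorant of the Moon Moser function -/
def gg : ℕ → ℚ
  | 0 => 1 | 1 => 14423 / 10000 | 2 => 20801 / 10000
  | n + 3 => 3 * gg n

lemma gg_add (n : ℕ) : gg (n + 3) = 3 * gg n := rfl

lemma gg_pos (n : ℕ) : 0 < gg n := by
  induction n using ind3 (k := 0) with
  | h0 n h => interval_cases n <;> decide +kernel
  | h1 n _ ih => rw [gg_add]; linarith

lemma mm_le_gg (n : ℕ) : (mm n : ℚ) ≤ gg n := by
  induction n using ind3 (k := 2) with
  | h0 n h => interval_cases n <;> decide +kernel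
  | h1 n h ih => rw [gg_add, mm_add_three h]; push_cast; linarith

lemma gg_rec (D : ℕ) (h3 : 3 ≤ D) (h5 : D ≤ 5) (n : ℕ) :
    (36 / 35 : ℚ) ^ (D - 1) * gg (n + D) + (36 / 35 : ℚ) ^ (D * D - D - 1) * gg n
      ≤ gg (n + D + 1) := by
  induction n using ind3 (k := 0) with
  | h0 n h => interval_cases D <;> interval_cases n <;> decide +kernel
  | h1 n _ ih =>
    rw [show n + 3 + D = n + D + 3 by ring, show n + D + 3 + 1 = n + D + 1 + 3 by ring,
      gg_add, gg_add, gg_add]
    linarith

lemma gg_three_mul (r c : ℕ) : gg (3 * r + c) = 3 ^ r * gg c := by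
  induction r with
  | zero => simp
  | succ r ih => rw [show 3 * (r + 1) + c = 3 * r + c + 3 by ring, gg_add, ih]; ring

end Pool.Agent.P.MP_88303f_co
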