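import Pool.Agent.P.MP_88303f_co.Construct
import Pool.Agent.P.MP_88303f_co.Num

namespace Pool.Agent.P.MP_88303f_co

lemma divmod_eq (c a b : ℕ) (ha : 0 < a) :
    (c * a + (c + 1) * b) / (a + b) = c ∧ (c * a + (c + 1) * b) % (a + b) = b := by
  have h : c * a + (c + 1) * b = b + (a + b) * c := by ring
  rw [h, Nat.add_mul_div_left _ _ (by omega), Nat.add_mul_mod_self_left,
    Nat.div_eq_of_lt (by omega), Nat.mod_eq_of_lt (by omega)]
  simp

lemma divmod_eq0 (c b : ℕ) (hb : 0 < b) :
    (c * 0 + (c + 1) * b) / (0 + b) = c + 1 ∧ (c * 0 + (c + 1) * b) % (0 + b) = 0 := by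
  simp [Nat.mul_div_cancel _ hb]

lemma bal_eq (c a b : ℕ) : bal (c * a + (c + 1) * b) (a + b) = c ^ a * (c + 1) ^ b := by
  unfold bal
  rcases Nat.eq_zero_or_pos a with rfl | ha
  · rcases Nat.eq_zero_or_pos b with rfl | hb
    · simp
    · rw [(divmod_eq0 c b hb).1, (divmod_eq0 c b hb).2]; simp
  · rw [(divmod_eq c a b ha).1, (divmod_eq c a b ha).2]; simp

lemma inner_eq (c a b : ℕ) :
    inner (c * a + (c + 1) * b) (a + b) = a * c.choose 2 + b * (c + 1).choose 2 := by
  unfold inner
  rcases Nat.eq_zero_or_pos a with rfl | ha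
  · rcases Nat.eq_zero_or_pos b with rfl | hb
    · simp
    · rw [(divmod_eq0 c b hb).1, (divmod_eq0 c b hb).2]; simp
  · rw [(divmod_eq c a b ha).1, (divmod_eq c a b ha).2, choose_two_succ]; ring

lemma top_eq (c a b j : ℕ) (hj : j ≤ a + b) :
    top (c * a + (c + 1) * b) (a + b) j = j * c + min j b := by
  unfold top
  rcases Nat.eq_zero_or_pos a with rfl | ha
  · rcases Nat.eq_zero_or_pos b with rfl | hb
    · have : j = 0 := by omega
      simp [this]
    · rw [(divmod_eq0 c b hb).1, (divmod_eq0 c b hb).2, min_eq_left (by omega : j ≤ b)]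
      simp; ring
  · rw [(divmod_eq c a b ha).1, (divmod_eq c a b ha).2]

lemma two_choose (n : ℕ) : 2 * n.choose 2 + n = n * n := by
  induction n with
  | zero => simp
  | succ n ih => rw [choose_two_succ]; nlinarith

theorem tuple {v e n q : ℕ} (c a b d a' b' : ℕ) (hc : 1 ≤ c) (hd : 1 ≤ d)
    (hn : n = c * a + (c + 1) * b) (hq : q = d * a' + (d + 1) * b') (hv : n < v)
    (hj : a' + b' ≤ a + b) (ht : q ≤ (a' + b') * c + min (a' + b') b)
    (he : 2 * e + n * n + 2 * q + v
      = v * v + n + 2 * (a * c.choose 2 + b * (c + 1).choose 2)) :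
    (v - 1 - n) + c ^ a * (c + 1) ^ b + (if a' + b' < a + b then d ^ a' * (d + 1) ^ b' else 0)
      ≤ muFormula v e := by
  have h := le_muFormula (v := v) (e := e) (n := n) (k := a + b) (j := a' + b') (q := q) hv
    ⟨by rw [hn]; nlinarith, by
      intro h
      have h1 : a = 0 := by omega
      have h2 : b = 0 := by omega
      rw [hn, h1, h2]; simp, hj, by rw [hq]; nlinarith, by
      rw [hn, top_eq _ _ _ _ hj]; exact ht, by
      have h1 := two_choose n
      have h2 := two_choose v
      have h3 := inner_eq c a b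
      rw [← hn] at h3
      omega⟩
  unfold value at h
  rwa [hn, hq, bal_eq, bal_eq, ← hn] at h

lemma mm_bal (q : ℕ) : ∃ d a' b', 1 ≤ d ∧ q = d * a' + (d + 1) * b' ∧ a' + b' = (q + 2) / 3 ∧
    mm q = d ^ a' * (d + 1) ^ b' := by
  by_cases h1 : q = 1
  · exact ⟨1, 1, 0, by omega, by omega, by omega, by rw [h1]; rfl⟩
  by_cases h0 : q = 0
  · exact ⟨1, 0, 0, by omega, by omega, by omega, by rw [h0]; rfl⟩
  obtain ⟨r, h | h | h⟩ : ∃ r, q = 3 * r + 2 ∨ q = 3 * r + 3 ∨ q = 3 * r + 4 :=
    ⟨(q - 2) / 3, by omega⟩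
  · exact ⟨2, 1, r, by omega, by omega, by omega, by
      rw [h, mm_three_mul r 2 le_rfl]; simp [mm, mul_comm]⟩
  · exact ⟨2, 0, r + 1, by omega, by omega, by omega, by
      rw [h, mm_three_mul r 3 (by omega)]; simp [mm, pow_succ]⟩
  · exact ⟨2, 2, r, by omega, by omega, by omega, by
      rw [h, mm_three_mul r 4 (by omega)]; simp [mm, mul_comm]⟩

/-- cores with parts of sizes three and four -/
theorem tuple3 {v e n q : ℕ} (a b : ℕ) (hn : n = 3 * a + 4 * b) (hv : n < v)
    (hq : (q + 2) / 3 < a + b) (he : 2 * e + n * n + 2 * q + v = v * v + n + 6 * a + 12 * b) :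
    (v - 1 - n) + 3 ^ a * 4 ^ b + mm q ≤ muFormula v e := by
  obtain ⟨d, a', b', h1, h2, h3, h4⟩ := mm_bal q
  have := tuple (v := v) (e := e) 3 a b d a' b' (by omega) h1 hn h2 hv (by omega) (by omega)
    (by norm_num [Nat.choose]; omega)
  rwa [if_pos (by omega), ← h4] at this

/-- cores with parts of sizes two and three -/
theorem tuple2 {v e n q : ℕ} (a b : ℕ) (hn : n = 2 * a + 3 * b) (hv : n < v)
    (hq : (q + 2) / 3 < a + b) (hq2 : q ≤ 2 * ((q + 2) / 3) + b)
    (he : 2 * e + n * n + 2 * q + v = v * v + n + 2 * a + 6 * b) :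
    (v - 1 - n) + 2 ^ a * 3 ^ b + mm q ≤ muFormula v e := by
  obtain ⟨d, a', b', h1, h2, h3, h4⟩ := mm_bal q
  have := tuple (v := v) (e := e) 2 a b d a' b' (by omega) h1 hn h2 hv (by omega) (by omega)
    (by norm_num [Nat.choose]; omega)
  rwa [if_pos (by omega), ← h4] at this

/-- cores with parts three and four, and a vertex missing parts of sizes three and four -/
theorem tuple34 {v e n q : ℕ} (a b a' b' : ℕ) (hn : n = 3 * a + 4 * b) (hv : n < v)
    (hq : q = 3 * a' + 4 * b') (hj : a' + b' < a + b) (hb : b' ≤ b)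
    (he : 2 * e + n * n + 2 * q + v = v * v + n + 6 * a + 12 * b) :
    (v - 1 - n) + 3 ^ a * 4 ^ b + 3 ^ a' * 4 ^ b' ≤ muFormula v e := by
  have := tuple (v := v) (e := e) 3 a b 3 a' b' (by omega) (by omega) hn hq hv (by omega)
    (by omega) (by norm_num [Nat.choose]; omega)
  rwa [if_pos (by omega)] at this

lemma phiN_three_mul (r c : ℕ) (h : 6 ≤ c) : phiN (3 * r + c) = 3 ^ r * phiN c := by
  induction r with
  | zero => simp
  | succ r ih =>
    obtain ⟨k, hk⟩ : ∃ k, 3 * r + c = k + 6 := ⟨3 * r + c - 6, by omega⟩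
    rw [show 3 * (r + 1) + c = k + 9 by omega, phiN, ← hk, ih]; ring

/-- the sparse range -/
theorem sparse_le {v e N : ℕ} (hv : 0 < v) (h : e ≤ v) (he : e ≤ v.choose 2)
    (hN : (N : ℚ) ≤ 2 ^ ((v : ℤ) - e) * phi (2 * e - v)) : N ≤ muFormula v e := by
  have h2 := two_choose v
  by_cases hs : 2 * e ≤ v
  · have h1 : (N : ℚ) ≤ 2 ^ e := by
      unfold phi at hN
      rw [if_pos (by omega), ← zpow_add₀ (by norm_num),
        show (v : ℤ) - e + (2 * e - v) = e by ring, zpow_natCast] at hN
      exact hN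
    have h3 : N ≤ 2 ^ e := by exact_mod_cast h1
    rcases Nat.lt_or_ge (2 * e) v with h4 | h4
    · obtain ⟨a, rfl⟩ : ∃ a, v = a + 2 * e + 1 := ⟨v - 2 * e - 1, by omega⟩
      have := tuple (v := a + 2 * e + 1) (e := e) (n := a + 2 * e) (q := a + 2 * e) 1 a e 1 a e
        le_rfl le_rfl (by ring) (by ring) (by omega) le_rfl (by omega)
        (by norm_num [Nat.choose]; ring)
      simp at this
      omega
    · obtain ⟨b, rfl⟩ : ∃ b, e = b + 1 := ⟨e - 1, by omega⟩
      have hv' : v = 2 * b + 2 := by omega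
      subst hv'
      have := tuple (v := 2 * b + 2) (e := b + 1) (n := 2 * b + 1) (q := 2 * b) 1 1 b 1 0 b
        le_rfl le_rfl (by ring) (by ring) (by omega) (by omega) (by omega)
        (by norm_num [Nat.choose]; ring)
      simp at this
      rw [pow_succ] at h3
      omega
  · obtain ⟨y, s, rfl, rfl, hs⟩ : ∃ y s, v = 2 * y + s ∧ e = y + s ∧ 1 ≤ s :=
      ⟨v - e, 2 * e - v, by omega, by omega, by omega⟩
    have h1 : (N : ℚ) ≤ 2 ^ y * phiN s := by
      unfold phi at hN
      rw [if_neg (by omega), show ((2 * y + s : ℕ) : ℤ) - ((y + s : ℕ) : ℤ) = y by push_cast; ring,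
        show (2 * ((y + s : ℕ) : ℤ) - ((2 * y + s : ℕ) : ℤ)).toNat = s by omega,
        zpow_natCast] at hN
      exact hN
    have hcase : s = 1 ∨ s = 2 ∨ s = 3 ∨ s = 4 ∨ s = 5 ∨
        ∃ r, s = 3 * r + 6 ∨ s = 3 * r + 7 ∨ s = 3 * r + 8 := by
      by_cases h6 : 6 ≤ s
      · exact Or.inr (Or.inr (Or.inr (Or.inr (Or.inr ⟨(s - 6) / 3, by omega⟩))))
      · omega
    rcases hcase with rfl | rfl | rfl | rfl | rfl | ⟨r, rfl | rfl | rfl⟩
    · obtain ⟨z, rfl⟩ : ∃ z, y = z + 1 := ⟨y - 1, by
        rcases Nat.eq_zero_or_pos y with rfl | h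
        · simp at he
        · omega⟩
      have := tuple (v := 2 * (z + 1) + 1) (e := z + 1 + 1) (n := 2 * (z + 1)) (q := 2 * z + 1)
        2 (z + 1) 0 1 1 z (by omega) le_rfl (by ring) (by ring) (by omega) (by omega) (by omega)
        (by norm_num [Nat.choose]; ring)
      have h3 : N ≤ 2 ^ (z + 1) := by
        rw [show phiN 1 = 1 from rfl, mul_one] at h1; exact_mod_cast h1
      simp at this
      omega
    · obtain ⟨z, rfl⟩ : ∃ z, y = z + 1 := ⟨y - 1, by
        rcases Nat.eq_zero_or_pos y with rfl | h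
        · simp at he
        · omega⟩
      have := tuple (v := 2 * (z + 1) + 2) (e := z + 1 + 2) (n := 2 * z + 3) (q := 2 * z + 3)
        2 z 1 2 z 1 (by omega) (by omega) (by ring) (by ring) (by omega) (by omega) (by omega)
        (by norm_num [Nat.choose]; ring)
      have h3 : N ≤ 2 ^ z * 3 := by
        rw [show phiN 2 = 3 / 2 from rfl, pow_succ] at h1
        have : (N : ℚ) ≤ 2 ^ z * 3 := by linarith
        exact_mod_cast this
      simp at this
      omega
    · have := tuple (v := 2 * y + 3) (e := y + 3) (n := 2 * (y + 1)) (q := 2 * y)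
        2 (y + 1) 0 2 y 0 (by omega) (by omega) (by ring) (by ring) (by omega) (by omega)
        (by omega) (by norm_num [Nat.choose]; ring)
      have h3 : N ≤ 2 ^ y * 3 := by
        rw [show phiN 3 = 3 from rfl] at h1; exact_mod_cast h1
      simp [pow_succ] at this
      omega
    · have := tuple (v := 2 * y + 4) (e := y + 4) (n := 2 * y + 3) (q := 2 * y + 2)
        2 y 1 2 (y + 1) 0 (by omega) (by omega) (by ring) (by ring) (by omega) (by omega)
        (by omega) (by norm_num [Nat.choose]; ring)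
      have h3 : N ≤ 2 ^ y * 3 := by
        rw [show phiN 4 = 3 from rfl] at h1; exact_mod_cast h1
      simp at this
      omega
    · have := tuple (v := 2 * y + 5) (e := y + 5) (n := 2 * (y + 2)) (q := 2 * y + 1)
        2 (y + 2) 0 1 1 y (by omega) (by omega) (by ring) (by ring) (by omega) (by omega)
        (by omega) (by norm_num [Nat.choose]; ring)
      have h3 : N ≤ 2 ^ y * 5 := by
        rw [show phiN 5 = 5 from rfl] at h1; exact_mod_cast h1
      rw [if_pos (by omega)] at this
      simp [pow_succ] at this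
      omega
    · have := tuple (v := 2 * y + (3 * r + 6)) (e := y + (3 * r + 6))
        (n := 2 * (y + 1) + 3 * (r + 1)) (q := 2 * y + 3 * (r + 1))
        2 (y + 1) (r + 1) 2 y (r + 1) (by omega) (by omega) (by ring) (by ring) (by omega)
        (by omega) (by omega) (by norm_num [Nat.choose]; ring)
      have h3 : N ≤ 2 ^ y * 3 ^ r * 9 := by
        rw [phiN_three_mul r 6 le_rfl, show phiN 6 = 9 from rfl, ← mul_assoc] at h1
        exact_mod_cast h1
      rw [if_pos (by omega)] at this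
      have h4 : 2 ^ (y + 1) * (2 + 1) ^ (r + 1) + 2 ^ y * (2 + 1) ^ (r + 1)
        = 2 ^ y * 3 ^ r * 9 := by ring
      omega
    · have := tuple (v := 2 * y + (3 * r + 7)) (e := y + (3 * r + 7))
        (n := 2 * (y + 3) + 3 * r) (q := 2 * (y + 1) + 3 * r)
        2 (y + 3) r 2 (y + 1) r (by omega) (by omega) (by ring) (by ring) (by omega)
        (by omega) (by omega) (by norm_num [Nat.choose]; ring)
      have h3 : N ≤ 2 ^ y * 3 ^ r * 10 := by
        rw [phiN_three_mul r 7 (by omega), show phiN 7 = 10 from rfl, ← mul_assoc] at h1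
        exact_mod_cast h1
      rw [if_pos (by omega)] at this
      have h4 : 2 ^ (y + 3) * (2 + 1) ^ r + 2 ^ (y + 1) * (2 + 1) ^ r
        = 2 ^ y * 3 ^ r * 10 := by ring
      omega
    · have := tuple (v := 2 * y + (3 * r + 8)) (e := y + (3 * r + 8))
        (n := 2 * (y + 2) + 3 * (r + 1)) (q := 2 * (y + 2) + 3 * r)
        2 (y + 2) (r + 1) 2 (y + 2) r (by omega) (by omega) (by ring) (by ring) (by omega)
        (by omega) (by omega) (by norm_num [Nat.choose]; ring)
      have h3 : N ≤ 2 ^ y * 3 ^ r * 16 := by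
        rw [phiN_three_mul r 8 (by omega), show phiN 8 = 16 from rfl, ← mul_assoc] at h1
        exact_mod_cast h1
      rw [if_pos (by omega)] at this
      have h4 : 2 ^ (y + 2) * (2 + 1) ^ (r + 1) + 2 ^ (y + 2) * (2 + 1) ^ r
        = 2 ^ y * 3 ^ r * 16 := by ring
      omega

end Pool.Agent.P.MP_88303f_co
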