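import Pool.Agent.P.MP_88303f_co.Valid
import Pool.Agent.P.MP_88303f_co.Tuples

namespace Pool.Agent.P.MP_88303f_co

set_option linter.unusedSectionVars false

open Finset

def balB (n k : ℕ) : ℕ := (n / k) ^ (k - n % k) * (n / k + 1) ^ (n % k)

def certB (v e n k j q : ℕ) : Bool :=
  Nat.blt n v && Nat.ble k n && (Nat.blt 0 k || n == 0) && Nat.ble j k && Nat.ble j q &&
  Nat.ble q (j * (n / k) + min j (n % k)) &&
  e + n * (n - 1) / 2 + q == v * (v - 1) / 2 + (k * (n / k * (n / k - 1) / 2) + n % k * (n / k)) &&
  Nat.ble (tT v e) (v - 1 - n + balB n k + (if j < k then balB q j else 0))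

theorem cert_all : al (fun i => al (fun e => certB (i + 1) e (tC (i + 1) e % 32)
    (tC (i + 1) e / 32 % 32) (tC (i + 1) e / 1024 % 32) (tC (i + 1) e / 32768))
    ((i + 1) * i / 2 + 1)) 30 = true := by decide +kernel

lemma cert_spec {v e : ℕ} (h1 : 1 ≤ v) (h30 : v ≤ 30) (he : e ≤ v.choose 2) :
    ∃ n k j q, n < v ∧ Adm v e n k j q ∧ tT v e ≤ value v n k j q := by
  obtain ⟨i, rfl⟩ : ∃ i, v = i + 1 := ⟨v - 1, by omega⟩
  rw [Nat.choose_two_right, Nat.add_sub_cancel] at he
  have h := al_spec (al_spec cert_all (i := i) (by omega)) (i := e) (by omega)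
  generalize tC (i + 1) e % 32 = n at h
  generalize tC (i + 1) e / 32 % 32 = k at h
  generalize tC (i + 1) e / 1024 % 32 = j at h
  generalize tC (i + 1) e / 32768 = q at h
  simp only [certB, Bool.and_eq_true, Bool.or_eq_true, Nat.ble_eq, Nat.blt_eq, beq_iff_eq] at h
  obtain ⟨⟨⟨⟨⟨⟨⟨c1, c2⟩, c3⟩, c4⟩, c5⟩, c6⟩, c7⟩, c8⟩ := h
  refine ⟨n, k, j, q, c1, ⟨c2, by omega, c4, c5, c6, ?_⟩, c8⟩
  unfold inner
  simp only [Nat.choose_two_right]
  exact c7

theorem tA_all : al (fun v => al (fun e => Nat.blt (v * (v - 1) / 2) e ||
    decide (BA v e < tT v e + 1)) (v + 1)) 31 = true := by decide +kernel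

theorem t5_all : al (fun v => al (fun e => Nat.ble e v || Nat.ble (tU 5 v e) (tT v e)) 76) 31
    = true := by decide +kernel

theorem t6_all : al (fun v => al (fun e => Nat.ble e v ||
    al (fun d => Nat.blt d 6 || Nat.blt (v * d) (2 * e) || Nat.blt e d ||
      tT (v - 1) (e - d) == 0 ||
      Nat.ble (tT (v - 1) (e - d) + mm (v - 1 - d)) (tT v e)) v) (v * (v - 1) / 2 + 1)) 31
    = true := by decide +kernel

variable {V : Type*} [DecidableEq V] {G : SimpleGraph V} [DecidableRel G.Adj]

lemma ed_le_choose (S : Finset V) : ed G S ≤ S.card * (S.card - 1) / 2 := by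
  have := handshake_le (G := G) (S := S) (D := S.card - 1) (fun x hx => by
    have := dg_lt_card (G := G) hx; omega)
  omega

theorem finT_valid (S : Finset V) (h30 : S.card ≤ 30) : mis G S ≤ tT S.card (ed G S) := by
  induction hn : S.card using Nat.strong_induction_on generalizing S with
  | _ n ih =>
    subst hn
    have he := ed_le_choose (G := G) S
    by_cases hx : ed G S ≤ S.card
    · have h := al_spec (al_spec tA_all (i := S.card) (by omega)) (i := ed G S) (by omega)
      simp only [Bool.or_eq_true, Nat.blt_eq, decide_eq_true_eq] at h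
      rcases h with h | h
      · omega
      · have h1 := (mis_le_BA (G := G) S).trans_lt h
        have h2 : mis G S < tT S.card (ed G S) + 1 := by exact_mod_cast h1
        omega
    by_cases h5 : ∀ x ∈ S, dg G S x ≤ 5
    · have h1 := (fin_valid S h30 5 (by omega) le_rfl h5).1
      have h2 := handshake_le h5
      have h := al_spec (al_spec t5_all (i := S.card) (by omega)) (i := ed G S) (by omega)
      simp only [Bool.or_eq_true, Nat.ble_eq] at h
      omega
    · have hS : S.Nonempty := by
        rw [nonempty_iff_ne_empty]; rintro rfl; simp at h5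
      obtain ⟨w, hw, hmax⟩ := exists_max_image S (dg G S) hS
      have h6 : 6 ≤ dg G S w := by
        by_contra h
        exact h5 (fun x hx => (hmax x hx).trans (by omega))
      have hm := mis_branch (G := G) S w
      have hcw := card_sdiff_cnb (G := G) hw
      have hce := card_erase_add_one hw
      have hee := ed_erase (G := G) hw
      have hh := handshake_le hmax
      have i1 := ih _ (by omega) (S.erase w) (by omega) rfl
      have i2 := mis_le_mm (G := G) (S \ cnb G S w)
      have i3 := mis_pos (G := G) (S.erase w)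
      have h := al_spec (al_spec t6_all (i := S.card) (by omega)) (i := ed G S) (by omega)
      simp only [Bool.or_eq_true, Nat.ble_eq] at h
      rcases h with h | h
      · omega
      have h' := al_spec h (i := dg G S w) (by omega)
      simp only [Bool.or_eq_true, Nat.ble_eq, Nat.blt_eq, beq_iff_eq] at h'
      rw [show S.card - 1 - dg G S w = (S \ cnb G S w).card by omega,
        show S.card - 1 = (S.erase w).card by omega,
        show ed G S - dg G S w = ed G (S.erase w) by omega] at h'
      omega

end Pool.Agent.P.MP_88303f_co
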