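import Pool.Agent.P.MP_88303f_co.Big

namespace Pool.Agent.P.MP_88303f_co

set_option linter.unusedSectionVars false

open Finset

theorem core_le {v e m n val : ℕ} (h : Core m n val) (hm : 2 * e + 2 * m + v = v * v)
    (hv : n < v) : (v - 1 - n) + val ≤ muFormula v e := by
  obtain ⟨τ, hτ, r, q, h1, rfl, h3, rfl⟩ := h
  obtain ⟨v10, v11, v12, v13, v14, v15, v16, v17, v18, v19, v20, v21⟩ := mm_vals2
  have s18 : (3 * r + 18) * (3 * r + 18) = 9 * (r * r) + 108 * r + 324 := by ring
  have s19 : (3 * r + 19) * (3 * r + 19) = 9 * (r * r) + 114 * r + 361 := by ring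
  have s20 : (3 * r + 20) * (3 * r + 20) = 9 * (r * r) + 120 * r + 400 := by ring
  have s21 : (3 * r + 21) * (3 * r + 21) = 9 * (r * r) + 126 * r + 441 := by ring
  have h16 := mm_three_mul r 16 (by omega)
  rw [v16] at h16
  interval_cases τ <;> simp only [cn, ca, cb, cv, cr] at h1 h3 hv ⊢
  · have := tuple3 (v := v) (e := e) (q := q) (r + 6) 0 (by ring) hv (by omega) (by omega)
    have e1 : 3 ^ (r + 6) * 4 ^ 0 = 729 * 3 ^ r := by ring
    omega
  · have e1 : 3 ^ (r + 5) * 4 ^ 1 = 972 * 3 ^ r := by ring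
    by_cases h : q ≤ 3 * r + 15
    · have := tuple3 (v := v) (e := e) (q := q) (r + 5) 1 (by ring) hv (by omega) (by omega)
      omega
    · have := tuple34 (v := v) (e := e) (q := q) (r + 5) 1 (r + 4) 1 (by ring) hv (by omega)
        (by omega) (by omega) (by omega)
      have e2 : 3 ^ (r + 4) * 4 ^ 1 = 324 * 3 ^ r := by ring
      rw [show q = 3 * r + 16 by omega]
      omega
  · have e1 : 3 ^ (r + 4) * 4 ^ 2 = 1296 * 3 ^ r := by ring
    by_cases h : q ≤ 3 * r + 15
    · have := tuple3 (v := v) (e := e) (q := q) (r + 4) 2 (by ring) hv (by omega) (by omega)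
      omega
    · have := tuple34 (v := v) (e := e) (q := q) (r + 4) 2 (r + 4) 1 (by ring) hv (by omega)
        (by omega) (by omega) (by omega)
      have e2 : 3 ^ (r + 4) * 4 ^ 1 = 324 * 3 ^ r := by ring
      rw [show q = 3 * r + 16 by omega]
      omega
  · have := tuple2 (v := v) (e := e) (q := q) 1 (r + 6) (by ring) hv (by omega) (by omega)
      (by omega)
    have e1 : 2 ^ 1 * 3 ^ (r + 6) = 1458 * 3 ^ r := by ring
    omega
  · have := tuple3 (v := v) (e := e) (q := q) (r + 3) 3 (by ring) hv (by omega) (by omega)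
    have e1 : 3 ^ (r + 3) * 4 ^ 3 = 1728 * 3 ^ r := by ring
    omega
  · have := tuple3 (v := v) (e := e) (q := q) (r + 1) 4 (by ring) hv (by omega) (by omega)
    have e1 : 3 ^ (r + 1) * 4 ^ 4 = 768 * 3 ^ r := by ring
    omega
  · have := tuple3 (v := v) (e := e) (q := q) r 5 (by ring) hv (by omega) (by omega)
    have e1 : 3 ^ r * 4 ^ 5 = 1024 * 3 ^ r := by ring
    omega

lemma core_eq {v e m τ r q : ℕ} (hτ : τ < 7) (hm : 2 * e + 2 * m + v = v * v) (hx : v < e)
    (h30 : 30 < v) (h4 : 2 * m = 9 * (r * r) + ca τ * r + cb τ + 2 * q)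
    (hn : ¬ 3 * r + cn τ < v) : 3 * r + cn τ = v := by
  by_contra hne
  have h5 : v + 1 ≤ 3 * r + cn τ := by omega
  have h6 : (3 * r + cn τ) * (3 * r + cn τ) ≤ 2 * m + 3 * (3 * r + cn τ) + 20 := by
    clear hm hx h30 hn hne h5
    interval_cases τ <;> simp only [cn, ca, cb] at h4 ⊢ <;> nlinarith
  generalize 3 * r + cn τ = n at *
  obtain ⟨t, rfl⟩ := Nat.exists_eq_add_of_le h5
  clear h4 hn hne h5 hτ
  nlinarith

lemma finC {e m r q N : ℕ} (hm : 2 * e + 2 * m + (3 * r + 20) = (3 * r + 20) * (3 * r + 20))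
    (hx : 3 * r + 20 < e) (h4 : 2 * m = 9 * (r * r) + 111 * r + 332 + 2 * q)
    (h2 : N + 1 ≤ 1296 * 3 ^ r + mm q)
    (sp : ∀ x, 1 ≤ x → x ≤ 3 → e = 3 * r + 20 + x → N ≤ 972 * 3 ^ r + mm (3 * r + 16 - x)) :
    N ≤ muFormula (3 * r + 20) e := by
  have s19 : (3 * r + 19) * (3 * r + 19) = 9 * (r * r) + 114 * r + 361 := by ring
  have s20 : (3 * r + 20) * (3 * r + 20) = 9 * (r * r) + 120 * r + 400 := by ring
  by_cases hq : q = 0
  · have := core_le (mkB (m := m) r (3 * r + 16) le_rfl (by omega)) hm (by omega)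
    rw [mm_three_mul r 16 (by omega), show mm 16 = 324 from rfl] at this
    rw [hq, show mm 0 = 1 from rfl] at h2
    omega
  · have h5 := sp (4 - q) (by omega) (by omega) (by omega)
    have := tuple2 (v := 3 * r + 20) (e := e) (n := 3 * r + 19) (q := 3 * r + 16 - (4 - q))
      2 (r + 5) (by ring) (by omega) (by omega) (by omega) (by omega)
    have e1 : 2 ^ 2 * 3 ^ (r + 5) = 972 * 3 ^ r := by ring
    omega

lemma finE {e m r q N : ℕ} (hm : 2 * e + 2 * m + (3 * r + 21) = (3 * r + 21) * (3 * r + 21))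
    (h3 : q ≤ 3) (h4 : 2 * m = 9 * (r * r) + 117 * r + 366 + 2 * q)
    (h2 : N + 1 ≤ 1728 * 3 ^ r + mm q)
    (sp : ∀ x, 1 ≤ x → x ≤ 5 → e = 3 * r + 21 + x →
      N ≤ 486 * 3 ^ (r + 1) + mm (3 * (r + 1) + 15 - x)) :
    N ≤ muFormula (3 * r + 21) e := by
  have s20 : (3 * r + 20) * (3 * r + 20) = 9 * (r * r) + 120 * r + 400 := by ring
  have s21 : (3 * r + 21) * (3 * r + 21) = 9 * (r * r) + 126 * r + 441 := by ring
  by_cases hq : q = 0
  · have := tuple34 (v := 3 * r + 21) (e := e) (n := 3 * r + 20) (q := 3 * r + 17)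
      (r + 4) 2 (r + 3) 2 (by ring) (by omega) (by ring) (by omega) (by omega) (by omega)
    have e1 : 3 ^ (r + 4) * 4 ^ 2 = 1296 * 3 ^ r := by ring
    have e2 : 3 ^ (r + 3) * 4 ^ 2 = 432 * 3 ^ r := by ring
    rw [hq, show mm 0 = 1 from rfl] at h2
    omega
  · have h5 := sp (6 - q) (by omega) (by omega) (by omega)
    have := core_le (mkD (m := m) r (3 * (r + 1) + 15 - (6 - q)) (by omega) (by omega)) hm
      (by omega)
    rw [pow_succ] at h5
    omega

lemma finF {e m r q N : ℕ} (hm : 2 * e + 2 * m + (3 * r + 19) = (3 * r + 19) * (3 * r + 19))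
    (h3 : q ≤ 1) (h4 : 2 * m = 9 * (r * r) + 105 * r + 288 + 2 * q)
    (h2 : N + 1 ≤ 768 * 3 ^ r + mm q) (sp : e = 3 * r + 19 + 7 → N ≤ 765 * 3 ^ r) :
    N ≤ muFormula (3 * r + 19) e := by
  have s18 : (3 * r + 18) * (3 * r + 18) = 9 * (r * r) + 108 * r + 324 := by ring
  have s19 : (3 * r + 19) * (3 * r + 19) = 9 * (r * r) + 114 * r + 361 := by ring
  by_cases hq : q = 0
  · have := tuple34 (v := 3 * r + 19) (e := e) (n := 3 * r + 18) (q := 3 * r + 15)
      (r + 2) 3 (r + 1) 3 (by ring) (by omega) (by ring) (by omega) (by omega) (by omega)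
    have e1 : 3 ^ (r + 2) * 4 ^ 3 = 576 * 3 ^ r := by ring
    have e2 : 3 ^ (r + 1) * 4 ^ 3 = 192 * 3 ^ r := by ring
    rw [hq, show mm 0 = 1 from rfl] at h2
    omega
  · have h5 := sp (by omega)
    have := core_le (mkA (m := m) r (3 * r + 10) (by omega) (by omega)) hm (by omega)
    rw [mm_three_mul r 10 (by omega), show mm 10 = 36 from rfl] at this
    omega

lemma finG {e m r N : ℕ} (hm : 2 * e + 2 * m + (3 * r + 20) = (3 * r + 20) * (3 * r + 20))
    (h4 : 2 * m = 9 * (r * r) + 111 * r + 320 + 2 * 0)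
    (h2 : N + 1 ≤ 1024 * 3 ^ r + mm 0) : N ≤ muFormula (3 * r + 20) e := by
  have s19 : (3 * r + 19) * (3 * r + 19) = 9 * (r * r) + 114 * r + 361 := by ring
  have s20 : (3 * r + 20) * (3 * r + 20) = 9 * (r * r) + 120 * r + 400 := by ring
  have := tuple34 (v := 3 * r + 20) (e := e) (n := 3 * r + 19) (q := 3 * r + 16)
    (r + 1) 4 r 4 (by ring) (by omega) (by ring) (by omega) (by omega) (by omega)
  have e1 : 3 ^ (r + 1) * 4 ^ 4 = 768 * 3 ^ r := by ring
  have e2 : 3 ^ r * 4 ^ 4 = 256 * 3 ^ r := by ring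
  rw [show mm 0 = 1 from rfl] at h2
  omega

lemma finLow {e m r N : ℕ} (hm : 2 * e + 2 * m + (3 * r + 19) = (3 * r + 19) * (3 * r + 19))
    (h1 : e = 3 * r + 19 + 1 ∨ e = 3 * r + 19 + 2) (h2 : N ≤ mm (3 * r + 19))
    (sp : e = 3 * r + 19 + 1 → N ≤ 756 * 3 ^ r) : N ≤ muFormula (3 * r + 19) e := by
  have s18 : (3 * r + 18) * (3 * r + 18) = 9 * (r * r) + 108 * r + 324 := by ring
  have s19 : (3 * r + 19) * (3 * r + 19) = 9 * (r * r) + 114 * r + 361 := by ring
  rcases h1 with h1 | h1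
  · have h5 := sp h1
    have := tuple2 (v := 3 * r + 19) (e := e) (n := 3 * r + 18) (q := 3 * r + 13)
      3 (r + 4) (by ring) (by omega) (by omega) (by omega) (by omega)
    rw [mm_three_mul r 13 (by omega), show mm 13 = 108 from rfl] at this
    have e1 : 2 ^ 3 * 3 ^ (r + 4) = 648 * 3 ^ r := by ring
    omega
  · have := core_le (mkA (m := m) r (3 * r + 15) (by omega) (by omega)) hm (by omega)
    rw [mm_three_mul r 15 (by omega), show mm 15 = 243 from rfl] at this
    rw [mm_three_mul r 19 (by omega), show mm 19 = 972 from rfl] at h2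
    omega

lemma finTab {v e m N : ℕ} (hm : v.choose 2 = e + m) (h30 : 30 < v) (h3 : m ≤ 134)
    (h2 : N + 29 + 1 ≤ tT 30 (435 - m) + v) : N ≤ muFormula v e := by
  have h435 : Nat.choose 30 2 = 435 := by rw [Nat.choose_two_right]
  obtain ⟨n, k, j, q, c1, c2, c3⟩ := cert_spec (v := 30) (e := 435 - m) (by omega) le_rfl
    (by omega)
  have c4 : Adm v e n k j q := by
    obtain ⟨a1, a2, a3, a4, a5, a6⟩ := c2
    exact ⟨a1, a2, a3, a4, a5, by omega⟩
  have c5 := le_muFormula (by omega) c4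
  unfold value at c3 c5
  generalize tT 30 (435 - m) = t at *
  omega

variable {V : Type*} [DecidableEq V] {G : SimpleGraph V} [DecidableRel G.Adj]

theorem upper (S : Finset V) (hS : 0 < S.card) : mis G S ≤ muFormula S.card (ed G S) := by
  have he := ed_le_choose (G := G) S
  rw [← Nat.choose_two_right] at he
  by_cases hx : ed G S ≤ S.card
  · exact sparse_le hS hx he (mis_le_BA S)
  by_cases h30 : S.card ≤ 30
  · obtain ⟨n, k, j, q, h1, h2, h3⟩ := cert_spec hS h30 he
    exact (finT_valid S h30).trans (h3.trans (le_muFormula h1 h2))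
  obtain ⟨m, hm0⟩ := Nat.exists_eq_add_of_le he
  have hm : 2 * ed G S + 2 * m + S.card = S.card * S.card := by
    have := two_choose S.card; omega
  by_cases hlow : Xlow S.card (ed G S)
  · obtain ⟨n, val, h1 | h1, h2⟩ := unc_bound S.card (by omega) S m rfl hm hlow
    · obtain ⟨h3, rfl, rfl⟩ := h1
      exact finTab hm0 (by omega) h3 h2
    by_cases hn : n < S.card
    · have := core_le h1 hm hn
      omega
    obtain ⟨τ, hτ, r, q, h3, rfl, h4, rfl⟩ := h1
    obtain ⟨x1, x2, x3⟩ := hlow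
    have hnv := core_eq hτ hm (by omega) (by omega) h4 hn
    clear hn hm0 he
    have s18 : (3 * r + 18) * (3 * r + 18) = 9 * (r * r) + 108 * r + 324 := by ring
    have s19 : (3 * r + 19) * (3 * r + 19) = 9 * (r * r) + 114 * r + 361 := by ring
    have s20 : (3 * r + 20) * (3 * r + 20) = 9 * (r * r) + 120 * r + 400 := by ring
    have p0 := fun x h1 h2 h3 h4 h5 => sp0 (G := G) (S := S) (r := r + 1) (x := x) h1 h2 h3 h4 h5
    have p1 := fun h1 h2 h3 => sp1b (G := G) (S := S) (r := r) h1 h2 h3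
    have p2 := fun x h1 h2 h3 h4 h5 => sp2 (G := G) (S := S) (r := r) (x := x) h1 h2 h3 h4 h5
    generalize S.card = v at *
    generalize ed G S = e at *
    generalize mis G S = N at *
    subst hnv
    interval_cases τ <;> simp only [cn, ca, cb, cv, cr] at *
    · omega
    · omega
    · exact finC hm (by omega) h4 (by omega) (fun x a b c => p2 x (by omega) trivial a b c)
    · omega
    · exact finE hm h3 h4 (by omega) (fun x a b c => p0 x (by omega) (by omega) a b c)
    · exact finF hm h3 h4 (by omega) (fun a => p1 (by omega) trivial a)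
    · obtain rfl : q = 0 := by omega
      exact finG hm h4 (by omega)
  · unfold Xlow at hlow
    obtain ⟨r, hr⟩ : ∃ r, S.card = 3 * r + 19 := ⟨(S.card - 19) / 3, by omega⟩
    have h5 := mis_le_mm (G := G) S
    have p1 := fun h => sp1a (G := G) (S := S) (r := r) (by omega) hr h
    rw [hr] at hm h5 p1 ⊢
    exact finLow hm (by omega) h5 p1

theorem upper_fin {v : ℕ} (hv : 0 < v) (H : SimpleGraph (Fin v)) :
    {T : Set (Fin v) | Maximal H.IsIndepSet T}.ncard ≤ muFormula v H.edgeSet.ncard := by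
  classical
  rw [ncard_mis, ncard_edges]
  have := upper (G := H) univ (by simpa using hv)
  simpa using this

theorem exists_graph {v e : ℕ} (he : e ≤ v.choose 2) :
    ∃ H : SimpleGraph (Fin v), H.edgeSet.ncard = e := by
  classical
  have h1 : e ≤ (⊤ : SimpleGraph (Fin v)).edgeFinset.card := by
    rw [SimpleGraph.card_edgeFinset_top_eq_card_choose_two, Fintype.card_fin]; exact he
  obtain ⟨s, hs, hc⟩ := exists_subset_card_eq h1
  refine ⟨SimpleGraph.fromEdgeSet s, ?_⟩
  rw [SimpleGraph.edgeSet_fromEdgeSet, ← hc, ← Set.ncard_coe_finset]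
  congr 1
  apply sdiff_eq_left.2
  rw [Set.disjoint_left]
  intro x hx hd
  have := hs hx
  rw [SimpleGraph.mem_edgeFinset] at this
  exact SimpleGraph.not_isDiag_of_mem_edgeSet _ this hd

theorem main (v e : ℕ) (hv : 0 < v) (he : e ≤ v.choose 2) :
    IsGreatest {c : ℕ | ∃ G : SimpleGraph (Fin v), G.edgeSet.ncard = e ∧
      {S : Set (Fin v) | Maximal G.IsIndepSet S}.ncard = c} (muFormula v e) := by
  constructor
  · obtain ⟨H, hH⟩ := exists_graph he
    have h1 := upper_fin hv H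
    have h2 : 0 < {T : Set (Fin v) | Maximal H.IsIndepSet T}.ncard := by
      classical
      rw [ncard_mis]; exact mis_pos _
    rw [hH] at h1
    obtain ⟨n, k, j, q, h3, h4, h5⟩ := muFormula_attained (lt_of_lt_of_le h2 h1)
    obtain ⟨K, h6, h7⟩ := realize h3 h4
    have h8 := upper_fin hv K
    rw [h6] at h8
    exact ⟨K, h6, by omega⟩
  · rintro c ⟨H, rfl, rfl⟩
    exact upper_fin hv H

end Pool.Agent.P.MP_88303f_co
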