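import Pool.Agent.P.MP_88303f_co.Basic
import Pool.Agent.P.MP_88303f_co.Num

namespace Pool.Agent.P.MP_88303f_co

set_option linter.unusedSectionVars false

open Finset

variable {V : Type*} [DecidableEq V] {G : SimpleGraph V} [DecidableRel G.Adj]

theorem mis_le_mm (S : Finset V) : mis G S ≤ mm S.card := by
  induction hn : S.card using Nat.strong_induction_on generalizing S with
  | _ n ih =>
    rcases S.eq_empty_or_nonempty with rfl | hS
    · rw [mis_empty]; exact mm_pos _
    obtain ⟨y, hy, hmin⟩ := exists_min_image S (dg G S) hS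
    have h1 := mis_cover (G := G) hy
    have hc := card_sdiff_cnb (G := G) hy
    have h2 : ∀ z ∈ cnb G S y, mis G (S \ cnb G S z) ≤ mm (S \ cnb G S y).card := by
      intro z hz
      have hz' := cnb_subset hy hz
      have h3 := card_sdiff_cnb (G := G) hz'
      have h4 := hmin z hz'
      exact (ih _ (by omega) _ rfl).trans (mm_mono (by omega))
    have h3 := sum_le_card_nsmul _ _ _ h2
    rw [card_cnb, smul_eq_mul] at h3
    have h4 := mm_mul (dg G S y + 1) (S \ cnb G S y).card
    rw [hc, hn] at h4
    omega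

def BA (v e : ℕ) : ℚ := 2 ^ ((v : ℤ) - e) * phi (2 * e - v)

lemma BA_shift {v e v' e' dv de : ℕ} (h1 : v' + dv = v) (h2 : e' + de = e) :
    BA v' e' = 2 ^ ((v : ℤ) - e) * (2 ^ de / 2 ^ dv * phi (2 * e - v + dv - 2 * de)) := by
  subst h1 h2
  unfold BA
  rw [show ((v' : ℤ) - e') = ((v' + dv : ℕ) : ℤ) - ((e' + de : ℕ) : ℤ) + de - dv by push_cast; ring,
    zpow_sub₀ (by norm_num), zpow_add₀ (by norm_num), zpow_natCast, zpow_natCast,
    show 2 * ((e' + de : ℕ) : ℤ) - ((v' + dv : ℕ) : ℤ) + dv - 2 * de = 2 * e' - v' by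
      push_cast; ring]
  ring

lemma BA_shift_le {v e v' e' dv de : ℕ} (h1 : v' + dv = v) (h2 : e' + de ≤ e) :
    BA v' e' ≤ 2 ^ ((v : ℤ) - e) * (2 ^ de / 2 ^ dv * psi (2 * e - v + dv - 2 * de)) := by
  obtain ⟨k, hk⟩ := Nat.exists_eq_add_of_le h2
  rw [BA_shift (de := de + k) h1 (e := e) (by omega)]
  apply mul_le_mul_of_nonneg_left _ (zpow_pos (by norm_num) _).le
  have := phi_le_psi_pow k (2 * e - v + dv - 2 * de)
  rw [show (2 * e - v + dv - 2 * ((de + k : ℕ) : ℤ) : ℤ) = 2 * e - v + dv - 2 * de - 2 * k by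
    push_cast; ring, pow_add]
  calc _ = 2 ^ de / 2 ^ dv * (2 ^ k * phi (2 * e - v + dv - 2 * de - 2 * k)) := by ring
    _ ≤ _ := mul_le_mul_of_nonneg_left this (by positivity)

lemma two_reg_rem {S : Finset V} (h2 : ∀ x ∈ S, dg G S x = 2) (hN : NoCl G S) {t : V}
    (ht : t ∈ S) : ed G (S \ cnb G S t) + 4 = ed G S ∧
      ∃ a b, a ≠ b ∧ nb G S t = {a, b} ∧ ¬ G.Adj a b := by
  obtain ⟨a, b, hab, hnb⟩ := card_eq_two.1 (h2 t ht)
  have ha : a ∈ nb G S t := by rw [hnb]; simp
  have hb : b ∈ nb G S t := by rw [hnb]; simp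
  have hadj : ¬ G.Adj a b := by
    intro hadj
    apply hN t ht
    refine ⟨?_, fun c hc _ => by rw [h2 c hc, h2 t ht]⟩
    intro c hc d hd htc htd hcd
    have hc' : c ∈ nb G S t := mem_nb.2 ⟨hc, htc⟩
    have hd' : d ∈ nb G S t := mem_nb.2 ⟨hd, htd⟩
    rw [hnb] at hc' hd'
    simp only [mem_insert, mem_singleton] at hc' hd'
    rcases hc' with rfl | rfl <;> rcases hd' with rfl | rfl
    · exact absurd rfl hcd
    · exact hadj
    · exact hadj.symm
    · exact absurd rfl hcd
  refine ⟨?_, a, b, hab, hnb, hadj⟩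
  have h := ed_sdiff_cnb (G := G) ht
  rw [hnb, sum_pair hab, h2 a (nb_subset _ _ ha), h2 b (nb_subset _ _ hb)] at h
  have h0 : ed G {a, b} = 0 := by
    unfold ed e2
    rw [sum_pair hab, dg_eq_sum, dg_eq_sum, sum_pair hab, sum_pair hab, if_neg G.irrefl,
      if_neg G.irrefl, if_neg hadj, if_neg (fun h => hadj h.symm)]
    rfl
  omega

theorem mis_le_BA (S : Finset V) : (mis G S : ℚ) ≤ BA S.card (ed G S) := by
  induction hn : S.card using Nat.strong_induction_on generalizing S with
  | _ n ih =>
    subst hn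
    rcases S.eq_empty_or_nonempty with rfl | hS
    · rw [mis_empty]; simp [BA, ed, e2, phi]
    set c : ℚ := 2 ^ ((S.card : ℤ) - ed G S) with hc
    set s : ℤ := 2 * ed G S - S.card with hs
    have hcp : 0 < c := zpow_pos (by norm_num) _
    have hE : ∀ (T : Finset V) (dv de : ℕ), 0 < dv → T.card + dv = S.card →
        ed G T + de = ed G S → (mis G T : ℚ) ≤ c * (2 ^ de / 2 ^ dv * phi (s + dv - 2 * de)) := by
      intro T dv de h0 h1 h2
      rw [← BA_shift h1 h2]; exact ih _ (by omega) T rfl
    have hL : ∀ (T : Finset V) (dv de : ℕ), 0 < dv → T.card + dv = S.card →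
        ed G T + de ≤ ed G S → (mis G T : ℚ) ≤ c * (2 ^ de / 2 ^ dv * psi (s + dv - 2 * de)) := by
      intro T dv de h0 h1 h2
      exact (ih _ (by omega) T rfl).trans (BA_shift_le h1 h2)
    show (mis G S : ℚ) ≤ c * phi s
    by_cases h0 : ∃ x ∈ S, dg G S x = 0
    · obtain ⟨x, hx, h0⟩ := h0
      have h1 : (mis G S : ℚ) ≤ mis G (S.erase x) := by exact_mod_cast mis_isolated hx h0
      have h2 := hE (S.erase x) 1 0 one_pos (card_erase_add_one hx)
        (by have := ed_erase (G := G) hx; omega)
      have h3 := mul_le_mul_of_nonneg_left (I1 s) hcp.le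
      norm_num at h2
      linarith
    by_cases h1 : ∃ x ∈ S, dg G S x = 1
    · obtain ⟨x, hx, h1⟩ := h1
      obtain ⟨t, ht, hxt, hnb, hm, he⟩ := leaf_facts hx h1
      have hm' : (mis G S : ℚ) ≤ mis G (S \ cnb G S x) + mis G (S \ cnb G S t) := by
        exact_mod_cast hm
      have hcx := card_sdiff_cnb (G := G) hx
      have hct := card_sdiff_cnb (G := G) ht
      have hr := rem_lower0 (G := G) ht
      have hk : 1 ≤ dg G S t := card_pos.2 ⟨x, mem_nb.2 ⟨hx, hxt.symm⟩⟩
      rcases Nat.lt_or_ge (dg G S t) 2 with hk2 | hk2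
      · have hk1 : dg G S t = 1 := by omega
        obtain ⟨x', _, _, hnb', _, he'⟩ := leaf_facts ht hk1
        have hx' : x = x' := by
          have : x ∈ nb G S t := mem_nb.2 ⟨hx, hxt.symm⟩
          rw [hnb'] at this; exact mem_singleton.1 this
        subst hx'
        have h2 := hE (S \ cnb G S x) 2 1 two_pos (by omega) (by omega)
        have h3 := hE (S \ cnb G S t) 2 1 two_pos (by omega) (by omega)
        norm_num at h2 h3
        linarith
      rcases Nat.lt_or_ge (dg G S t) 3 with hk3 | hk3
      · have h2 := hE (S \ cnb G S x) 2 2 two_pos (by omega) (by omega)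
        have h3 := hL (S \ cnb G S t) 3 2 (by omega) (by omega) (by omega)
        have h4 := mul_le_mul_of_nonneg_left (I2 s) hcp.le
        rw [show s + (2 : ℕ) - 2 * (2 : ℕ) = s - 2 by push_cast; ring] at h2
        rw [show s + (3 : ℕ) - 2 * (2 : ℕ) = s - 1 by push_cast; ring] at h3
        norm_num at h2 h3
        linarith
      · have h2 := hL (S \ cnb G S x) 2 3 two_pos (by omega) (by omega)
        have h3 := hL (S \ cnb G S t) (dg G S t + 1) (dg G S t) (by omega) (by omega) (by omega)
        have h4 := mul_le_mul_of_nonneg_left (I3 s) hcp.le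
        have h5 := mul_le_mul_of_nonneg_left (psi_mono
          (s := s + ((dg G S t + 1 : ℕ) : ℤ) - 2 * (dg G S t : ℤ)) (t := s - 2) (by omega)) hcp.le
        rw [show s + (2 : ℕ) - 2 * (3 : ℕ) = s - 4 by push_cast; ring] at h2
        rw [show (2 : ℚ) ^ dg G S t / 2 ^ (dg G S t + 1) = 1 / 2 by
          rw [pow_succ]; field_simp] at h3
        norm_num at h2
        linarith
    have hmin : ∀ x ∈ S, 2 ≤ dg G S x := by
      intro x hx
      by_contra h
      rcases Nat.lt_or_ge (dg G S x) 1 with h' | h'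
      · exact h0 ⟨x, hx, by omega⟩
      · exact h1 ⟨x, hx, by omega⟩
    by_cases h3 : ∃ w ∈ S, 3 ≤ dg G S w
    · obtain ⟨w, hw, h3⟩ := h3
      have hm : (mis G S : ℚ) ≤ mis G (S.erase w) + mis G (S \ cnb G S w) := by
        exact_mod_cast mis_branch S w
      have hcw := card_sdiff_cnb (G := G) hw
      have he := ed_erase (G := G) hw
      have hr := rem_lower hw hmin
      rcases Nat.lt_or_ge (dg G S w) 4 with hk | hk
      · have h4 := hE (S.erase w) 1 3 one_pos (card_erase_add_one hw) (by omega)
        have h5 := hL (S \ cnb G S w) 4 5 (by omega) (by omega) (by omega)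
        have h6 := mul_le_mul_of_nonneg_left (I4 s) hcp.le
        rw [show s + (1 : ℕ) - 2 * (3 : ℕ) = s - 5 by push_cast; ring] at h4
        rw [show s + (4 : ℕ) - 2 * (5 : ℕ) = s - 6 by push_cast; ring] at h5
        norm_num at h4 h5
        linarith
      · have h4 := hL (S.erase w) 1 4 one_pos (card_erase_add_one hw) (by omega)
        have h5 := hL (S \ cnb G S w) (dg G S w + 1) (dg G S w + 2) (by omega) (by omega)
          (by omega)
        have h6 := mul_le_mul_of_nonneg_left (I5 s) hcp.le
        have h7 := mul_le_mul_of_nonneg_left (psi_mono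
          (s := s + ((dg G S w + 1 : ℕ) : ℤ) - 2 * ((dg G S w + 2 : ℕ) : ℤ)) (t := s - 7)
          (by omega)) hcp.le
        rw [show s + (1 : ℕ) - 2 * (4 : ℕ) = s - 7 by push_cast; ring] at h4
        rw [show (2 : ℚ) ^ (dg G S w + 2) / 2 ^ (dg G S w + 1) = 2 by
          rw [pow_succ]; field_simp] at h5
        norm_num at h4
        linarith
    have h2 : ∀ x ∈ S, dg G S x = 2 := by
      intro x hx
      have := hmin x hx
      by_contra h
      exact h3 ⟨x, hx, by omega⟩
    by_cases hN : NoCl G S
    · obtain ⟨y, hy⟩ := hS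
      obtain ⟨hey, w, z, hwz, hnb, hadj⟩ := two_reg_rem h2 hN hy
      have hw : w ∈ nb G S y := by rw [hnb]; simp
      have hz : z ∈ nb G S y := by rw [hnb]; simp
      have hwS := nb_subset _ _ hw
      have hzS := nb_subset _ _ hz
      have hew := (two_reg_rem h2 hN hwS).1
      have hez := (two_reg_rem h2 hN hzS).1
      have hm := mis_cover3 hy hnb
      have hcy := card_sdiff_cnb (G := G) hy
      have hcw := card_sdiff_cnb (G := G) hwS
      have hcz := card_sdiff_cnb (G := G) hzS
      rw [h2 _ hy] at hcy; rw [h2 _ hwS] at hcw; rw [h2 _ hzS] at hcz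
      have h4 := hE (S \ cnb G S y) 3 4 (by omega) (by omega) hey
      have h5 := hE (S \ cnb G S w) 3 4 (by omega) (by omega) hew
      have h6 := mul_le_mul_of_nonneg_left (I4 s) hcp.le
      rw [show s + (3 : ℕ) - 2 * (4 : ℕ) = s - 5 by push_cast; ring] at h4 h5
      have h7 : (((ms G S).filter (fun I => z ∈ I ∧ w ∉ I)).card : ℚ) ≤ c * (2 * psi (s - 6)) := by
        by_cases htw : ∀ t ∈ S, G.Adj w t → G.Adj z t
        · rw [count_twin hwS htw]
          have : 0 ≤ psi (s - 6) := by
            unfold psi; split_ifs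
            · positivity
            · positivity
          positivity
        · push Not at htw
          obtain ⟨t, ht, hwt, hzt⟩ := htw
          have hwm : w ∈ S \ cnb G S z := by
            rw [mem_sdiff, mem_cnb]
            exact ⟨hwS, fun h => h.elim hwz (fun h => hadj h.2.symm)⟩
          have htm : t ∈ S \ cnb G S z := by
            rw [mem_sdiff, mem_cnb]
            exact ⟨ht, fun h => h.elim (fun h => hadj (h ▸ hwt)) (fun h => hzt h.2)⟩
          have h8 : 1 ≤ dg G (S \ cnb G S z) w := card_pos.2 ⟨t, mem_nb.2 ⟨htm, hwt⟩⟩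
          have h9 := ed_erase (G := G) hwm
          have h10 := card_erase_add_one hwm
          have h11 := hL ((S \ cnb G S z).erase w) 4 5 (by omega) (by omega) (by omega)
          rw [show s + (4 : ℕ) - 2 * (5 : ℕ) = s - 6 by push_cast; ring] at h11
          have h12 : (((ms G S).filter (fun I => z ∈ I ∧ w ∉ I)).card : ℚ)
              ≤ mis G ((S \ cnb G S z).erase w) := by exact_mod_cast count_with_without
          norm_num at h11
          linarith
      have hm' : (mis G S : ℚ) ≤ mis G (S \ cnb G S w)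
          + (((ms G S).filter (fun I => z ∈ I ∧ w ∉ I)).card : ℚ) + mis G (S \ cnb G S y) := by
        exact_mod_cast hm
      norm_num at h4 h5
      linarith
    · unfold NoCl at hN
      push Not at hN
      obtain ⟨y, hy, hcc⟩ := hN
      obtain ⟨hm, he⟩ := cc_facts hy hcc
      have hcy := card_sdiff_cnb (G := G) hy
      rw [h2 y hy] at hm he hcy
      have hm' : (mis G S : ℚ) ≤ 3 * mis G (S \ cnb G S y) := by exact_mod_cast hm
      have h4 := hE (S \ cnb G S y) 3 3 (by omega) (by omega) he
      have h6 := mul_le_mul_of_nonneg_left (I6 s) hcp.le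
      rw [show s + (3 : ℕ) - 2 * (3 : ℕ) = s - 3 by push_cast; ring] at h4
      norm_num at h4
      linarith

theorem mis_tail (S : Finset V) (h5 : ∀ x ∈ S, dg G S x ≤ 5) :
    (mis G S : ℚ) * (36 / 35) ^ ed G S ≤ gg S.card * (36 / 35) ^ S.card := by
  induction hn : S.card using Nat.strong_induction_on generalizing S with
  | _ n ih =>
    subst hn
    by_cases h2 : ∀ x ∈ S, dg G S x ≤ 2
    · have h := handshake_le h2
      have h1 : (mis G S : ℚ) ≤ mm S.card := by exact_mod_cast mis_le_mm S
      have h3 : ((36 : ℚ) / 35) ^ ed G S ≤ (36 / 35) ^ S.card :=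
        pow_le_pow_right₀ (by norm_num) (by omega)
      exact mul_le_mul (h1.trans (mm_le_gg _)) h3 (by positivity) (gg_pos _).le
    · have hS : S.Nonempty := by
        rw [nonempty_iff_ne_empty]; rintro rfl; simp at h2
      obtain ⟨w, hw, hmax⟩ := exists_max_image S (dg G S) hS
      have h3 : 3 ≤ dg G S w := by
        by_contra h
        exact h2 (fun x hx => (hmax x hx).trans (by omega))
      have hD := h5 w hw
      have hm : (mis G S : ℚ) ≤ mis G (S.erase w) + mis G (S \ cnb G S w) := by
        exact_mod_cast mis_branch S w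
      have hcw := card_sdiff_cnb (G := G) hw
      have hce := card_erase_add_one hw
      have he := ed_erase (G := G) hw
      have hr := rem_upper hw hmax
      have i1 := ih _ (by omega) (S.erase w)
        (fun x hx => (dg_mono (erase_subset _ _) x).trans (h5 x (mem_of_mem_erase hx))) rfl
      have i2 := ih _ (by omega) (S \ cnb G S w)
        (fun x hx => (dg_mono sdiff_subset x).trans (h5 x (mem_sdiff.1 hx).1)) rfl
      have hrec := gg_rec _ h3 hD (S \ cnb G S w).card
      generalize dg G S w = D at *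
      generalize (S \ cnb G S w).card = n at *
      have hv : S.card = n + D + 1 := by omega
      have hv1 : (S.erase w).card = n + D := by omega
      rw [hv1] at i1
      rw [hv]
      set γ : ℚ := 36 / 35 with hγ
      have hγ1 : 1 ≤ γ := by norm_num [hγ]
      have hγ0 : 0 < γ := by norm_num [hγ]
      have e1 : (mis G (S.erase w) : ℚ) * γ ^ ed G S
          ≤ γ ^ (D - 1) * gg (n + D) * γ ^ (n + D + 1) := by
        rw [← he, pow_add, ← mul_assoc]
        calc _ ≤ gg (n + D) * γ ^ (n + D) * γ ^ D :=
              mul_le_mul_of_nonneg_right i1 (by positivity)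
          _ = _ := by
            obtain ⟨k, rfl⟩ : ∃ k, D = k + 1 := ⟨D - 1, by omega⟩
            simp only [Nat.add_sub_cancel]; ring
      have e2 : (mis G (S \ cnb G S w) : ℚ) * γ ^ ed G S
          ≤ γ ^ (D * D - D - 1) * gg n * γ ^ (n + D + 1) := by
        calc _ ≤ (mis G (S \ cnb G S w) : ℚ) * γ ^ (ed G (S \ cnb G S w) + D * D) :=
              mul_le_mul_of_nonneg_left (pow_le_pow_right₀ hγ1 hr) (by positivity)
          _ = (mis G (S \ cnb G S w) : ℚ) * γ ^ ed G (S \ cnb G S w) * γ ^ (D * D) := by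
              rw [pow_add]; ring
          _ ≤ gg n * γ ^ n * γ ^ (D * D) := mul_le_mul_of_nonneg_right i2 (by positivity)
          _ = _ := by
            have : D * D = (D * D - D - 1) + (D + 1) := by
              have : D * 3 ≤ D * D := Nat.mul_le_mul_left _ h3
              omega
            conv_lhs => rw [this]
            ring
      calc _ ≤ ((mis G (S.erase w) : ℚ) + mis G (S \ cnb G S w)) * γ ^ ed G S :=
            mul_le_mul_of_nonneg_right hm (by positivity)
        _ ≤ (γ ^ (D - 1) * gg (n + D) + γ ^ (D * D - D - 1) * gg n) * γ ^ (n + D + 1) := by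
            rw [add_mul, add_mul]; exact add_le_add e1 e2
        _ ≤ _ := mul_le_mul_of_nonneg_right hrec (by positivity)

end Pool.Agent.P.MP_88303f_co
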