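import Pool.Agent.P.MP_88303f_co.Basic
import Pool.Agent.P.MP_88303f_co.Chk

namespace Pool.Agent.P.MP_88303f_co

set_option linter.unusedSectionVars false

open Finset

variable {V : Type*} [DecidableEq V] {G : SimpleGraph V} [DecidableRel G.Adj]

def View (G : SimpleGraph V) [DecidableRel G.Adj] (S : Finset V) (c : ℚ) (u : ℕ → ℕ → ℕ) : Prop :=
  ∀ T ⊆ S, ∀ dv de, 0 < dv → dv ≤ 7 → T.card + dv = S.card → ed G T + de = ed G S →
    c * mis G T ≤ u dv de

lemma View.range {S : Finset V} {c : ℚ} {u : ℕ → ℕ → ℕ} (hu : View G S c u) {T : Finset V}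
    (hT : T ⊆ S) (dv lo hi : ℕ) (h0 : 0 < dv) (h7 : dv ≤ 7) (h1 : T.card + dv = S.card)
    (h2 : ed G T + lo ≤ ed G S) (h3 : ed G S ≤ ed G T + hi) :
    c * mis G T ≤ rng u dv lo hi := by
  have h4 := hu T hT dv (ed G S - ed G T) h0 h7 h1 (by omega)
  have h5 : u dv (ed G S - ed G T) ≤ rng u dv lo hi := le_rng u (by omega) (by omega)
  exact h4.trans (Nat.cast_le.2 h5)

lemma wpos {c : ℚ} (hc : 0 < c) (T : Finset V) : 0 < c * mis G T :=
  mul_pos hc (Nat.cast_pos.2 (mis_pos T))

lemma ne_of_le {c : ℚ} (hc : 0 < c) {T : Finset V} {n : ℕ} (h : c * mis G T ≤ n) : n ≠ 0 := by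
  rintro rfl
  have := wpos (G := G) hc T
  simp at h
  linarith

lemma wle {c : ℚ} (hc : 0 < c) {a b : ℕ} (h : a ≤ b) : c * a ≤ c * b :=
  mul_le_mul_of_nonneg_left (Nat.cast_le.2 h) hc.le

lemma rem_set_upper {R T : Finset V} (h : T ⊆ R) {D : ℕ} (hD : ∀ x ∈ R, dg G R x ≤ D) :
    ed G R ≤ ed G (R \ T) + T.card * D := by
  have h1 := ed_split (G := G) h
  have := sum_le_card_nsmul T (fun z => dg G R z) D (fun z hz => hD z (h hz))
  simp only [smul_eq_mul] at this
  omega

lemma rem_set_lower {R T : Finset V} (h : T ⊆ R) {t : V} (ht : t ∈ T) (h1 : 1 ≤ dg G R t) :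
    ed G (R \ T) + 1 ≤ ed G R := by
  have h2 := ed_split (G := G) h
  have h3 := two_ed_le (G := G) h
  have h4 : dg G R t ≤ ∑ z ∈ T, dg G R z := single_le_sum (f := fun z => dg G R z)
    (fun _ _ => Nat.zero_le _) ht
  omega

lemma cover_simpl {S : Finset V} {y : V} (hy : y ∈ S) {c : ℚ} (hc : 0 < c) :
    c * mis G S ≤ c * mis G (S \ cnb G S y) + ∑ z ∈ nb G S y, c * mis G (S \ cnb G S z) := by
  have h := mis_cover (G := G) hy
  have h2 : ∑ z ∈ cnb G S y, mis G (S \ cnb G S z)
      = mis G (S \ cnb G S y) + ∑ z ∈ nb G S y, mis G (S \ cnb G S z) := by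
    conv_lhs => unfold cnb
    rw [sum_insert (self_not_mem_nb S y)]; rfl
  rw [h2] at h
  have := wle hc h
  push_cast at this
  rw [mul_add, mul_sum] at this
  exact this

lemma prof_sound {S : Finset V} {c : ℚ} (hc : 0 < c) {u : ℕ → ℕ → ℕ} (hu : View G S c u)
    {D : ℕ} (hD : ∀ x ∈ S, dg G S x ≤ D) (hD5 : D ≤ 5) {y : V} (hy : y ∈ S) (hs : Simpl G S y)
    {k O base cs x0 b : ℕ} (hk : k = dg G S y + 1)
    (hO : O = ∑ z ∈ nb G S y, dg G (S \ cnb G S y) z)
    (hbase : ed G (S \ cnb G S y) + base = ed G S)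
    (hx0 : c * mis G (S \ cnb G S y) ≤ x0)
    (hcs : ∀ z ∈ nb G S y, 0 < dg G (S \ cnb G S y) z →
      ed G ((S \ cnb G S y) \ nb G (S \ cnb G S y) z) + cs ≤ ed G (S \ cnb G S y))
    (h : prof u D k O base cs x0 b = true) : c * mis G S ≤ b := by
  have hcov := cover_simpl (G := G) hy hc
  have hpf := pf_spec (sval u D k base cs x0) (D + 1 - k) (nb G S y)
    (fun z => dg G (S \ cnb G S y) z) (fun z => c * mis G (S \ cnb G S z))
    (by
      intro z hz
      have h1 := simpl_dg_split hy hs (z := z) (mem_insert_of_mem hz)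
      have h2 := hD z (nb_subset _ _ hz)
      omega)
    (fun z _ => wpos hc _)
    (by
      intro z hz
      have hzc : z ∈ cnb G S y := mem_insert_of_mem hz
      have h1 := simpl_dg_split hy hs hzc
      have h2 := hD z (nb_subset _ _ hz)
      have h3 := simpl_sdiff hy hs hzc
      unfold sval
      split_ifs with h0
      · rw [h3, card_eq_zero.1 h0, sdiff_empty]; exact hx0
      · have h4 := card_sdiff_cnb (G := G) (nb_subset _ _ hz)
        have h5 := hcs z hz (Nat.pos_of_ne_zero h0)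
        have h6 := rem_set_upper (G := G) (nb_subset (G := G) (S \ cnb G S y) z) (D := D)
          (fun x hx => (dg_mono sdiff_subset x).trans (hD x (mem_sdiff.1 hx).1))
        rw [← h3] at h5 h6
        apply hu.range sdiff_subset _ _ _ (by omega) (by omega) (by omega) (by omega)
        unfold dg at *
        omega)
  have hcard : (nb G S y).card = k - 1 := by rw [hk]; rfl
  rw [hcard, ← hO] at hpf
  simp only [prof, Bool.or_eq_true, beq_iff_eq, Nat.ble_eq] at h
  have hs0 : 0 ≤ ∑ z ∈ nb G S y, c * mis G (S \ cnb G S z) :=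
    sum_nonneg (fun z _ => (wpos hc _).le)
  rcases h with (h | h) | h
  · exact absurd h (ne_of_le hc hx0)
  · rw [h] at hpf; simp at hpf; linarith
  · have h' : ((x0 + pf (sval u D k base cs x0) (D + 1 - k) (k - 1) O : ℕ) : ℚ) ≤ (b + 1 : ℕ) :=
      Nat.cast_le.2 h
    push_cast at h'
    linarith

lemma tri_sound {S : Finset V} {c : ℚ} (hc : 0 < c) {u : ℕ → ℕ → ℕ} (hu : View G S c u)
    (hD : ∀ x ∈ S, dg G S x ≤ 3) {y : V} (hy : y ∈ S) (hs : Simpl G S y)
    {b : ℕ} (hk : dg G S y = 2)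
    (hO : ∑ z ∈ nb G S y, dg G (S \ cnb G S y) z = 1)
    (hcs : ∀ z ∈ nb G S y, ∀ t ∈ nb G (S \ cnb G S y) z, 1 ≤ dg G (S \ cnb G S y) t)
    (h : tri u b = true) : c * mis G S ≤ b := by
  have hcov := cover_simpl (G := G) hy hc
  have hbase := simpl_ed_rest hy hs
  have hcy := card_sdiff_cnb (G := G) hy
  rw [hO, hk] at hbase
  rw [hk] at hcy
  norm_num [Nat.choose] at hbase
  -- the neighbour with an outside edge
  obtain ⟨a, a', ha, hsum, ha1, ha0⟩ : ∃ a a', a ∈ nb G S y ∧
      (∑ z ∈ nb G S y, c * mis G (S \ cnb G S z)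
        = c * mis G (S \ cnb G S a) + c * mis G (S \ cnb G S a')) ∧
      dg G (S \ cnb G S y) a = 1 ∧ (a' ∈ nb G S y ∧ dg G (S \ cnb G S y) a' = 0) := by
    obtain ⟨p, q, hpq, hnb⟩ := card_eq_two.1 hk
    have hp : p ∈ nb G S y := by rw [hnb]; simp
    have hq : q ∈ nb G S y := by rw [hnb]; simp
    rw [hnb, sum_pair hpq] at hO
    rcases Nat.eq_zero_or_pos (dg G (S \ cnb G S y) q) with h0 | h0
    · exact ⟨p, q, hp, by rw [hnb, sum_pair hpq], by omega, hq, h0⟩
    · exact ⟨q, p, hq, by rw [hnb, sum_pair hpq, add_comm], by omega, hp, by omega⟩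
  have e0 : S \ cnb G S a' = S \ cnb G S y := by
    rw [simpl_sdiff hy hs (mem_insert_of_mem ha0.1), card_eq_zero.1 ha0.2, sdiff_empty]
  obtain ⟨z, hz⟩ := card_eq_one.1 ha1
  have e1 : S \ cnb G S a = (S \ cnb G S y).erase z := by
    rw [simpl_sdiff hy hs (mem_insert_of_mem ha), hz, sdiff_singleton_eq_erase]
  have hzm : z ∈ nb G (S \ cnb G S y) a := by rw [hz]; exact mem_singleton_self z
  have hzR := nb_subset _ _ hzm
  have hz1 := hcs a ha z hzm
  have hz2 : dg G (S \ cnb G S y) z ≤ 2 := by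
    have h1 := dg_split (G := G) (cnb_subset (G := G) hy) z
    have h2 : 1 ≤ dg G (cnb G S y) z :=
      card_pos.2 ⟨a, mem_nb.2 ⟨mem_insert_of_mem ha, (mem_nb.1 hzm).2.symm⟩⟩
    have h3 := hD z (mem_sdiff.1 hzR).1
    omega
  rw [hsum, e0, e1] at hcov
  set R := S \ cnb G S y with hR
  have hRS : R ⊆ S := sdiff_subset
  have hDR : ∀ x ∈ R, dg G R x ≤ 3 := fun x hx => (dg_mono hRS x).trans (hD x (hRS hx))
  have hx0 := hu R hRS 3 4 (by omega) (by omega) (by omega) (by omega)
  have hce := card_erase_add_one hzR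
  have hee := ed_erase (G := G) hzR
  simp only [tri, Bool.or_eq_true, Bool.and_eq_true, beq_iff_eq, Nat.ble_eq] at h
  rcases h with h | ⟨h1, h2⟩
  · exact absurd h (ne_of_le hc hx0)
  rcases Nat.lt_or_ge (dg G R z) 2 with hj | hj
  · have hj1 : dg G R z = 1 := by omega
    obtain ⟨t, ht, hzt, hnb, hm, he⟩ := leaf_facts hzR hj1
    have hk1 : 1 ≤ dg G R t := card_pos.2 ⟨z, mem_nb.2 ⟨hzR, hzt.symm⟩⟩
    have hk3 := hDR t ht
    have h3 := al_spec h2 (i := dg G R t - 1) (by omega)
    have hcz := card_sdiff_cnb (G := G) hzR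
    have hct := card_sdiff_cnb (G := G) ht
    have hl := rem_lower0 (G := G) ht
    have hup := rem_upper ht hDR
    have i1 := hu (R \ cnb G R z) (sdiff_subset.trans hRS) 5 (5 + (dg G R t - 1)) (by omega)
      (by omega) (by omega) (by omega)
    have i2 := hu.range (T := R \ cnb G R t) (sdiff_subset.trans hRS) (5 + (dg G R t - 1))
      (5 + (dg G R t - 1)) (4 + (dg G R t - 1 + 1) * 3) (by omega) (by omega) (by omega)
      (by omega) (by omega)
    have i3 : c * mis G (R.erase z) ≤ (if dg G R t - 1 = 0 then u 5 5 else u 4 5 : ℕ) := by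
      split_ifs with h0
      · have htz : t ∈ R.erase z := mem_erase.2 ⟨(G.ne_of_adj hzt).symm, ht⟩
        have h4 : dg G (R.erase z) t = 0 := by
          have h5 := dg_split (G := G) (singleton_subset_iff.2 hzR) t
          rw [sdiff_singleton_eq_erase] at h5
          have h6 : 1 ≤ dg G {z} t := card_pos.2 ⟨z, mem_nb.2 ⟨mem_singleton_self z, hzt.symm⟩⟩
          omega
        have h5 := wle hc (mis_isolated htz h4)
        have h6 := card_erase_add_one htz
        have h7 := ed_erase (G := G) htz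
        exact h5.trans (hu _ ((erase_subset _ _).trans ((erase_subset _ _).trans hRS)) 5 5
          (by omega) (by omega) (by omega) (by omega))
      · exact hu _ ((erase_subset _ _).trans hRS) 4 5 (by omega) (by omega) (by omega) (by omega)
    simp only [Bool.or_eq_true, beq_iff_eq, Nat.ble_eq] at h3
    have hm' := wle hc hm
    rcases h3 with ((h3 | h3) | h3) | h3
    · exact absurd h3 (ne_of_le hc i1)
    · exact absurd h3 (ne_of_le hc i2)
    · exact absurd h3 (ne_of_le hc i3)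
    · have h4 := (Nat.cast_le (α := ℚ)).2 h3
      rw [Nat.cast_add, Nat.cast_mul, Nat.cast_add] at h4
      push_cast at hm'
      simp only [Nat.cast_ofNat] at h4
      linarith
  · have i1 := hu _ ((erase_subset z R).trans hRS) 4 6 (by omega) (by omega) (by omega) (by omega)
    rcases h1 with h1 | h1
    · exact absurd h1 (ne_of_le hc i1)
    · have h4 := (Nat.cast_le (α := ℚ)).2 h1
      push_cast at h4
      linarith

lemma simp_sound {S : Finset V} {c : ℚ} (hc : 0 < c) {u : ℕ → ℕ → ℕ} (hu : View G S c u)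
    {D : ℕ} (hD : ∀ x ∈ S, dg G S x ≤ D) (hD5 : D ≤ 5) {y : V} (hy : y ∈ S) (hs : Simpl G S y)
    {k O b : ℕ} (hk : k = dg G S y + 1)
    (hO : O = ∑ z ∈ nb G S y, dg G (S \ cnb G S y) z)
    (h : simpOK u D k O b = true) : c * mis G S ≤ b := by
  have hbase := simpl_ed_rest hy hs
  rw [← hk, ← hO, Nat.choose_two_right] at hbase
  have hcy := card_sdiff_cnb (G := G) hy
  have hyD := hD y hy
  simp only [simpOK, Bool.and_eq_true] at h
  obtain ⟨h1, h2⟩ := h
  by_cases hiso : ∃ z ∈ nb G S y, ∃ t ∈ nb G (S \ cnb G S y) z, dg G (S \ cnb G S y) t = 0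
  · obtain ⟨z, _, t, ht, h0⟩ := hiso
    have htR := nb_subset _ _ ht
    have h5 := wle hc (mis_isolated htR h0)
    have h6 := card_erase_add_one htR
    have h7 := ed_erase (G := G) htR
    refine prof_sound hc hu hD hD5 hy hs hk hO hbase (h5.trans ?_) ?_ h1
    · exact hu _ ((erase_subset _ _).trans sdiff_subset) _ _ (by omega) (by omega) (by omega)
        (by omega)
    · intro z _ _
      exact ed_mono sdiff_subset
  · push Not at hiso
    split_ifs at h2 with h3
    · obtain ⟨rfl, h4, h5⟩ := h3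
      refine tri_sound hc hu hD hy hs (by omega) (by omega) ?_ h2
      intro z hz t ht
      exact Nat.pos_of_ne_zero (hiso z hz t ht)
    · refine prof_sound hc hu hD hD5 hy hs hk hO hbase ?_ ?_ h2
      · exact hu _ sdiff_subset _ _ (by omega) (by omega) (by omega) hbase
      · intro z hz hpos
        obtain ⟨t, ht⟩ := card_pos.1 hpos
        exact rem_set_lower (nb_subset _ _) ht (Nat.pos_of_ne_zero (hiso z hz t ht))

lemma rem_upper_two {S : Finset V} {w y : V} (hw : w ∈ S) {D : ℕ} (hD : ∀ x ∈ S, dg G S x ≤ D)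
    (hy : y ∈ nb G S w) (h2 : dg G S y = 2) :
    ed G S ≤ ed G (S \ cnb G S w) + (2 + (dg G S w - 1) * D) := by
  have h := ed_sdiff_cnb (G := G) hw
  have h1 := add_sum_erase (nb G S w) (fun z => dg G S z) hy
  have h3 := sum_le_card_nsmul ((nb G S w).erase y) (fun z => dg G S z) D
      (fun z hz => hD z (nb_subset S w (mem_of_mem_erase hz)))
  rw [card_erase_of_mem hy, smul_eq_mul] at h3
  unfold dg at *
  omega

lemma degTwo_sound {S : Finset V} {c : ℚ} (hc : 0 < c) {u : ℕ → ℕ → ℕ} (hu : View G S c u)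
    {D : ℕ} (hD : ∀ x ∈ S, dg G S x ≤ D) (hD3 : D ≤ 3) (hmin : ∀ x ∈ S, 2 ≤ dg G S x)
    {y w z : V} (hy : y ∈ S) (hnb : nb G S y = {w, z}) (hwz : w ≠ z) (hadj : ¬ G.Adj w z)
    {b : ℕ} (h : degTwo u D (dg G S w) (dg G S z) b = true) : c * mis G S ≤ b := by
  have hw : w ∈ nb G S y := by rw [hnb]; simp
  have hz : z ∈ nb G S y := by rw [hnb]; simp
  have hwS := nb_subset _ _ hw
  have hzS := nb_subset _ _ hz
  have hy2 : dg G S y = 2 := by unfold dg; rw [hnb, card_pair hwz]
  have hyw : y ∈ nb G S w := mem_nb.2 ⟨hy, (mem_nb.1 hw).2.symm⟩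
  have hyz : y ∈ nb G S z := mem_nb.2 ⟨hy, (mem_nb.1 hz).2.symm⟩
  have h0 : ed G {w, z} = 0 := by
    unfold ed e2
    rw [sum_pair hwz, dg_eq_sum, dg_eq_sum, sum_pair hwz, sum_pair hwz, if_neg G.irrefl,
      if_neg G.irrefl, if_neg hadj, if_neg (fun h => hadj h.symm)]
    rfl
  have hm := mis_cover3 hy hnb
  have hm2 := count_with_without (G := G) (S := S) (z := z) (w := w)
  have hcy := card_sdiff_cnb (G := G) hy
  have hcw := card_sdiff_cnb (G := G) hwS
  have hcz := card_sdiff_cnb (G := G) hzS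
  have hp := hD w hwS
  have hq := hD z hzS
  have hp2 := hmin w hwS
  have hq2 := hmin z hzS
  have hey := ed_sdiff_cnb (G := G) hy
  rw [hnb, sum_pair hwz, h0] at hey
  have i3 := hu (S \ cnb G S y) sdiff_subset 3 (dg G S w + dg G S z) (by omega) (by omega)
    (by omega) (by omega)
  have hl := rem_lower hwS hmin
  have i1 := hu.range (T := S \ cnb G S w) sdiff_subset (dg G S w + 1)
    (dg G S w + (dg G S w + 1) / 2) (2 + (dg G S w - 1) * D) (by omega) (by omega) (by omega)
    (by omega) (rem_upper_two hwS hD hyw hy2)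
  have hwm : w ∈ S \ cnb G S z := by
    rw [mem_sdiff, mem_cnb]
    exact ⟨hwS, fun h => h.elim hwz (fun h => hadj h.2.symm)⟩
  have h9 := ed_erase (G := G) hwm
  have h10 := card_erase_add_one hwm
  have h11 := rem_upper_two hzS hD hyz hy2
  have h12 : dg G (S \ cnb G S z) w + 1 ≤ dg G S w := by
    have h1 := dg_split (G := G) (cnb_subset (G := G) hzS) w
    have h2 : 1 ≤ dg G (cnb G S z) w :=
      card_pos.2 ⟨y, mem_nb.2 ⟨mem_insert_of_mem hyz, (mem_nb.1 hyw).2⟩⟩
    omega
  have h13 : ed G ((S \ cnb G S z).erase w) + (dg G S w + dg G S z) ≤ ed G S := by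
    have h1 : ({w, z} : Finset V) ⊆ S := by rw [← hnb]; exact nb_subset _ _
    have h2 := ed_split (G := G) h1
    rw [sum_pair hwz, h0] at h2
    have h3 : (S \ cnb G S z).erase w ⊆ S \ {w, z} := by
      intro t ht
      rw [mem_erase, mem_sdiff, mem_cnb] at ht
      rw [mem_sdiff, mem_insert, mem_singleton]
      exact ⟨ht.2.1, fun h => h.elim ht.1 (fun h => ht.2.2 (Or.inl h))⟩
    have h4 := ed_mono (G := G) h3
    omega
  have i2 := hu.range (T := (S \ cnb G S z).erase w) ((erase_subset _ _).trans sdiff_subset)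
    (dg G S z + 2) (dg G S w + dg G S z) (dg G S w + 1 + (dg G S z - 1) * D) (by omega) (by omega)
    (by omega) h13 (by omega)
  have hm' := wle hc (show mis G S ≤ mis G (S \ cnb G S w) + mis G ((S \ cnb G S z).erase w)
    + mis G (S \ cnb G S y) by omega)
  simp only [degTwo, Bool.or_eq_true, beq_iff_eq, Nat.ble_eq] at h
  rcases h with (h | h) | h
  · exact absurd h (ne_of_le hc i3)
  · exact absurd h (ne_of_le hc i1)
  · have h4 := (Nat.cast_le (α := ℚ)).2 h
    rw [Nat.cast_add, Nat.cast_add] at h4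
    push_cast at hm'
    linarith

lemma ns_sound {S : Finset V} {c : ℚ} (hc : 0 < c) {u : ℕ → ℕ → ℕ} (hu : View G S c u)
    {D : ℕ} (hD : ∀ x ∈ S, dg G S x ≤ D) (hD5 : D ≤ 5) (hns : ∀ y ∈ S, ¬ Simpl G S y)
    {w : V} (hw : w ∈ S) (hwD : dg G S w = D) {n1 : ℕ}
    (hn : NoCl G (S.erase w) → c * mis G (S.erase w) ≤ n1) {f2 : Bool}
    (hf2 : 3 * S.card ≤ 2 * ed G S → f2 = true) {b : ℕ}
    (h : nsOK u n1 D f2 b = true) : c * mis G S ≤ b := by
  have hmin : ∀ x ∈ S, 2 ≤ dg G S x := by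
    intro x hx
    by_contra h
    exact hns x hx (simpl_of_dg_le_one (by omega))
  have i0 := hn (noCl_erase hns w)
  have hcw := card_sdiff_cnb (G := G) hw
  have hl := rem_lower hw hmin
  have hup := rem_upper hw hD
  have hD2 := hmin w hw
  rw [hwD] at hcw hl hup hD2
  have i1 := hu.range (T := S \ cnb G S w) sdiff_subset (D + 1) (D + (D + 1) / 2) (D * D)
    (by omega) (by omega) (by omega) (by omega) hup
  have hm := wle hc (mis_branch (G := G) S w)
  push_cast at hm
  simp only [nsOK, Bool.or_eq_true, Bool.and_eq_true, beq_iff_eq, Nat.ble_eq,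
    Bool.not_eq_true'] at h
  rcases h with ((h | h) | h) | ⟨⟨h3, h4⟩, h5⟩
  · exact absurd h (ne_of_le hc i0)
  · exact absurd h (ne_of_le hc i1)
  · have h4 := (Nat.cast_le (α := ℚ)).2 h
    rw [Nat.cast_add] at h4
    linarith
  by_cases h2 : ∃ y ∈ S, dg G S y = 2
  · obtain ⟨y, hy, h2⟩ := h2
    obtain ⟨a, a', haa, hnb⟩ := card_eq_two.1 h2
    have ha : a ∈ nb G S y := by rw [hnb]; simp
    have ha' : a' ∈ nb G S y := by rw [hnb]; simp
    have hadj : ¬ G.Adj a a' := by
      intro hadj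
      apply hns y hy
      intro p hp q hq hyp hyq hpq
      have hp' : p ∈ nb G S y := mem_nb.2 ⟨hp, hyp⟩
      have hq' : q ∈ nb G S y := mem_nb.2 ⟨hq, hyq⟩
      rw [hnb] at hp' hq'
      simp only [mem_insert, mem_singleton] at hp' hq'
      rcases hp' with rfl | rfl <;> rcases hq' with rfl | rfl
      · exact absurd rfl hpq
      · exact hadj
      · exact hadj.symm
      · exact absurd rfl hpq
    have p1 := hD a (nb_subset _ _ ha)
    have p2 := hmin a (nb_subset _ _ ha)
    have q1 := hD a' (nb_subset _ _ ha')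
    have q2 := hmin a' (nb_subset _ _ ha')
    have h6 := al_spec (al_spec h4 (i := dg G S a - 2) (by omega)) (i := dg G S a' - 2) (by omega)
    rw [show dg G S a - 2 + 2 = dg G S a by omega,
      show dg G S a' - 2 + 2 = dg G S a' by omega] at h6
    exact degTwo_sound hc hu hD h3 hmin hy hnb haa hadj h6
  · have hmin3 : ∀ x ∈ S, 3 ≤ dg G S x := by
      intro x hx
      have := hmin x hx
      by_contra h
      exact h2 ⟨x, hx, by omega⟩
    have hD3 : D = 3 := by have := hmin3 w hw; omega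
    subst hD3
    have hf := hf2 (by have := handshake_ge hmin3; omega)
    have hl3 := rem_lower hw hmin3
    rw [hwD] at hl3
    have i2 := hu.range (T := S \ cnb G S w) sdiff_subset 4 6 9
      (by omega) (by omega) (by omega) (by omega) hup
    rcases h5 with ((h5 | h5) | h5) | h5
    · rw [hf] at h5; exact absurd h5 (by simp)
    · omega
    · exact absurd h5 (ne_of_le hc i2)
    · have h4 := (Nat.cast_le (α := ℚ)).2 h5
      rw [Nat.cast_add] at h4
      linarith

theorem chkN_sound {S : Finset V} {c : ℚ} (hc : 0 < c) {u : ℕ → ℕ → ℕ} (hu : View G S c u)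
    {D : ℕ} (hD : ∀ x ∈ S, dg G S x ≤ D) (hD5 : D ≤ 5) (hN : NoCl G S)
    {w : V} (hw : w ∈ S) (hwD : dg G S w = D) {n1 : ℕ}
    (hn : NoCl G (S.erase w) → c * mis G (S.erase w) ≤ n1) {f1 f2 : Bool}
    (hf1 : S.card ≤ ed G S → f1 = true)
    (hf2 : 3 * S.card ≤ 2 * ed G S → f2 = true) {b : ℕ}
    (h : chkN u n1 D f1 f2 b = true) : c * mis G S ≤ b := by
  have hcw := card_sdiff_cnb (G := G) hw
  have hl := rem_lower0 (G := G) hw
  have hup := rem_upper hw hD
  have he := ed_erase (G := G) hw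
  rw [hwD] at hcw hl hup he
  have i0 := hu (S.erase w) (erase_subset _ _) 1 D (by omega) (by omega) (card_erase_add_one hw) he
  have i1 := hu.range (T := S \ cnb G S w) sdiff_subset (D + 1) D (D * D)
    (by omega) (by omega) (by omega) (by omega) hup
  have hm := wle hc (mis_branch (G := G) S w)
  push_cast at hm
  simp only [chkN, Bool.or_eq_true, Bool.and_eq_true, beq_iff_eq, Nat.ble_eq,
    Bool.not_eq_true'] at h
  rcases h with ((h | h) | h) | ⟨h1, h2⟩
  · exact absurd h (ne_of_le hc i0)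
  · exact absurd h (ne_of_le hc i1)
  · have h4 := (Nat.cast_le (α := ℚ)).2 h
    rw [Nat.cast_add] at h4
    linarith
  by_cases hs : ∃ y ∈ S, Simpl G S y
  · obtain ⟨y, hy, hs⟩ := hs
    obtain ⟨a, ha, hya, hne⟩ : ∃ a ∈ S, G.Adj y a ∧ dg G S a ≠ dg G S y := by
      by_contra hcon
      push Not at hcon
      exact hN y hy ⟨hs, hcon⟩
    have ham : a ∈ nb G S y := mem_nb.2 ⟨ha, hya⟩
    have h3 := simpl_dg_split hy hs (z := a) (mem_insert_of_mem ham)
    have h4 := hD a ha
    have h5 : 1 ≤ dg G S y := card_pos.2 ⟨a, ham⟩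
    have h6 : dg G (S \ cnb G S y) a ≤ ∑ z ∈ nb G S y, dg G (S \ cnb G S y) z :=
      single_le_sum (f := fun z => dg G (S \ cnb G S y) z) (fun _ _ => Nat.zero_le _) ham
    have h7 := sum_le_card_nsmul (nb G S y) (fun z => dg G (S \ cnb G S y) z) (D - dg G S y)
      (fun z hz => by
        have h1 := simpl_dg_split hy hs (z := z) (mem_insert_of_mem hz)
        have h2 := hD z (nb_subset _ _ hz)
        omega)
    rw [smul_eq_mul] at h7
    have h8 := al_spec (al_spec h1 (i := dg G S y - 1) (by omega))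
      (i := ∑ z ∈ nb G S y, dg G (S \ cnb G S y) z - 1) (by
        rw [show dg G S y - 1 + 1 = dg G S y by omega,
          show D - 1 - (dg G S y - 1) = D - dg G S y by omega]
        unfold dg at *
        omega)
    exact simp_sound hc hu hD hD5 hy hs (by omega) (by omega) h8
  · push Not at hs
    have hmin : ∀ x ∈ S, 2 ≤ dg G S x := by
      intro x hx
      by_contra h
      exact hs x hx (simpl_of_dg_le_one (by omega))
    have hf := hf1 (by have := handshake_ge hmin; omega)
    rcases h2 with h2 | h2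
    · rw [hf] at h2; exact absurd h2 (by simp)
    · exact ns_sound hc hu hD hD5 hs hw hwD hn hf2 h2

theorem chkU_sound {S : Finset V} {c : ℚ} (hc : 0 < c) {u : ℕ → ℕ → ℕ} (hu : View G S c u)
    {D : ℕ} (hD : ∀ x ∈ S, dg G S x ≤ D) (hD5 : D ≤ 5) {bN bU : ℕ}
    (hN : NoCl G S → c * mis G S ≤ bN) (h : chkU u D bN bU = true) : c * mis G S ≤ bU := by
  simp only [chkU, Bool.and_eq_true, Nat.ble_eq] at h
  by_cases h0 : NoCl G S
  · exact (hN h0).trans (Nat.cast_le.2 h.1)
  · unfold NoCl at h0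
    push Not at h0
    obtain ⟨y, hy, hcc⟩ := h0
    obtain ⟨hm, he⟩ := cc_facts hy hcc
    have hcy := card_sdiff_cnb (G := G) hy
    have h1 := hD y hy
    have h2 := al_spec h.2 (i := dg G S y) (by omega)
    rw [Nat.choose_two_right, Nat.add_sub_cancel] at he
    have i0 := hu _ sdiff_subset _ _ (by omega) (by omega) hcy he
    simp only [Nat.ble_eq] at h2
    have h3 := (Nat.cast_le (α := ℚ)).2 h2
    rw [Nat.cast_mul] at h3
    have h4 := wle hc hm
    rw [Nat.cast_mul] at h4
    have h5 := mul_le_mul_of_nonneg_left i0 (Nat.cast_nonneg (α := ℚ) (dg G S y + 1))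
    linarith

/-- graphs without clique component have a vertex of degree at least two -/
lemma noCl_deg {S : Finset V} (hN : NoCl G S) (hS : S.Nonempty) : ∃ w ∈ S, 2 ≤ dg G S w := by
  by_contra h
  push Not at h
  obtain ⟨y, hy⟩ := hS
  apply hN y hy
  refine ⟨simpl_of_dg_le_one (by have := h y hy; omega), ?_⟩
  intro a ha hya
  have h1 : 1 ≤ dg G S y := card_pos.2 ⟨a, mem_nb.2 ⟨ha, hya⟩⟩
  have h2 : 1 ≤ dg G S a := card_pos.2 ⟨y, mem_nb.2 ⟨hy, hya.symm⟩⟩
  have := h y hy
  have := h a ha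
  omega

end Pool.Agent.P.MP_88303f_co
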