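import Pool.Agent.P.MP_88303f_co.Chk
import Pool.Agent.P.MP_88303f_co.Tab

namespace Pool.Agent.P.MP_88303f_co

def coefA (s : ℤ) : ℕ := if s % 3 = 0 then 9 else if s % 3 = 1 then 10 else 16

def sig (t : ℕ → ℕ → ℕ → ℕ) (D i : ℕ) (x : ℤ) : ℕ :=
  if x < -1 then 2 ^ (-x).toNat * coefA (i + 2 * x) * 3 ^ (28 + (i + 2 * x) / 3).toNat
  else if 15 < x then (if D = 2 then 0 else tailC i) else t D i (x + 1).toNat

def scU (D i : ℕ) (x : ℤ) (dv de : ℕ) : ℕ :=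
  sig tSU D ((9 + i - dv) % 3) (x + dv - de) * 3 ^ ((9 + i - dv) / 3)

def scChk (D i y : ℕ) : Bool :=
  (D == 2 && Nat.ble 2 y) ||
    ((D == 2 || Nat.ble (tSN (D - 1) i y) (tSN D i y)) &&
      chkN (scU D i ((y : ℤ) - 1)) (sig tSN D ((8 + i) % 3) ((y : ℤ) - D) * 3 ^ ((8 + i) / 3)) D
        (Nat.ble 1 y) false (27 * tSN D i y) &&
      chkU (scU D i ((y : ℤ) - 1)) D (27 * tSN D i y) (27 * tSU D i y))

theorem sc_all : al (fun d => al (fun i => al (fun y => scChk (d + 2) i y) 17) 3) 4 = true := by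
  decide +kernel

def ovChk (D v y : ℕ) : Bool :=
  Nat.ble (3 ^ 30 * tU D v (v + y - 1)) (tSU D (v % 3) y * 3 ^ (v / 3)) &&
  Nat.ble (3 ^ 30 * tN D v (v + y - 1)) (tSN D (v % 3) y * 3 ^ (v / 3))

theorem ov_all :
    al (fun d => al (fun j => al (fun y => ovChk (d + 2) (j + 24) y) 17) 7) 4 = true := by
  decide +kernel

end Pool.Agent.P.MP_88303f_co
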