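import Pool.Agent.P.MP_88303f_co.SzUp

namespace Pool.Agent.P.MP_88303f_co.Sz

set_option linter.unusedSectionVars false

open Finset

section general

variable {V : Type} [DecidableEq V] {G : SimpleGraph V} [DecidableRel G.Adj]

lemma isM_insert_old {S I : Finset V} {w : V} (hI : IsM G S I) (h : ∃ a ∈ I, G.Adj w a) :
    IsM G (insert w S) I := by
  obtain ⟨h1, h2, h3⟩ := hI
  refine ⟨h1.trans (subset_insert _ _), h2, fun x hx hxI => ?_⟩
  rcases mem_insert.1 hx with rfl | hx
  · exact h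
  · exact h3 x hx hxI

lemma isM_add {S T J : Finset V} {w : V} (hJ : IsM G T J) (hT : T ⊆ S) (hw : w ∈ S)
    (hna : ∀ b ∈ T, ¬ G.Adj w b) (hrest : ∀ x ∈ S, x ∉ T → x ≠ w → G.Adj x w) :
    IsM G S (insert w J) := by
  obtain ⟨h1, h2, h3⟩ := hJ
  refine ⟨insert_subset hw (h1.trans hT), ?_, ?_⟩
  · intro a ha b hb hab
    rcases mem_insert.1 ha with ha' | ha' <;> rcases mem_insert.1 hb with hb' | hb'
    · rw [ha', hb'] at hab; exact G.irrefl hab
    · rw [ha'] at hab; exact hna b (h1 hb') hab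
    · rw [hb'] at hab; exact hna a (h1 ha') hab.symm
    · exact h2 a ha' b hb' hab
  · intro x hx hxI
    rw [mem_insert, not_or] at hxI
    by_cases hxT : x ∈ T
    · obtain ⟨a, ha, hxa⟩ := h3 x hxT hxI.2
      exact ⟨a, mem_insert_of_mem ha, hxa⟩
    · exact ⟨w, mem_insert_self _ _, hrest x hx hxT hxI.1⟩

lemma msk_insert_ge {S : Finset V} {w : V} (hw : w ∉ S)
    (h : ∀ I, IsM G S I → ∃ a ∈ I, G.Adj w a) (k : ℕ) :
    (msk G S (k + 1)).card + (msk G (S \ nb G S w) k).card ≤ (msk G (insert w S) (k + 1)).card := by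
  have hno : ∀ I ∈ msk G (S \ nb G S w) k, w ∉ I := fun I hI h =>
    hw (mem_sdiff.1 ((mem_msk.1 hI).1.1 h)).1
  have hinj : Set.InjOn (fun I : Finset V => insert w I) (msk G (S \ nb G S w) k) := by
    intro I hI J hJ hIJ
    have := congrArg (fun K => K.erase w) hIJ
    simpa [erase_insert (hno I hI), erase_insert (hno J hJ)] using this
  have hd : Disjoint (msk G S (k + 1))
      ((msk G (S \ nb G S w) k).image (fun I => insert w I)) := by
    rw [disjoint_left]
    intro I hI hI'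
    obtain ⟨J, _, rfl⟩ := mem_image.1 hI'
    exact hw ((mem_msk.1 hI).1.1 (mem_insert_self _ _))
  rw [← card_image_of_injOn hinj, ← card_union_of_disjoint hd]
  apply card_le_card
  intro I hI
  rw [mem_msk]
  rcases mem_union.1 hI with hI | hI
  · exact ⟨isM_insert_old (mem_msk.1 hI).1 (h I (mem_msk.1 hI).1), (mem_msk.1 hI).2⟩
  · obtain ⟨J, hJ, rfl⟩ := mem_image.1 hI
    refine ⟨isM_add (mem_msk.1 hJ).1 (sdiff_subset.trans (subset_insert _ _))
      (mem_insert_self _ _) (fun b hb hwb => ?_) (fun x hx hxT hxw => ?_),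
      by rw [card_insert_of_notMem (hno J hJ), (mem_msk.1 hJ).2]⟩
    · exact (mem_sdiff.1 hb).2 (mem_nb.2 ⟨(mem_sdiff.1 hb).1, hwb⟩)
    · have hxS := (mem_insert.1 hx).resolve_left hxw
      by_contra hc
      exact hxT (mem_sdiff.2 ⟨hxS, fun h => hc (mem_nb.1 h).2.symm⟩)

lemma msk_add_clique {S K : Finset V} (hd : Disjoint S K)
    (hK : ∀ a ∈ K, ∀ b ∈ K, a ≠ b → G.Adj a b) (hc : ∀ a ∈ K, ∀ b ∈ S, ¬ G.Adj a b) (k : ℕ) :
    K.card * (msk G S k).card ≤ (msk G (S ∪ K) (k + 1)).card := by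
  rw [← card_product]
  apply card_le_card_of_injOn (fun p => insert p.1 p.2)
  · rintro ⟨z, I⟩ hp
    simp only [coe_product, Set.mem_prod, mem_coe, mem_msk] at hp ⊢
    obtain ⟨hz, h1, h2⟩ := hp
    have hzI : z ∉ I := fun h => disjoint_left.1 hd (h1.1 h) hz
    refine ⟨isM_add h1 subset_union_left (mem_union_right _ hz) (hc z hz) fun x hx hxS hxz =>
      hK x ((mem_union.1 hx).resolve_left hxS) z hz hxz, by rw [card_insert_of_notMem hzI, h2]⟩
  · rintro ⟨z, I⟩ hp ⟨z', I'⟩ hp' h
    simp only [coe_product, Set.mem_prod, mem_coe, mem_msk] at hp hp' h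
    have hzI : z ∉ I := fun h => disjoint_left.1 hd (hp.2.1.1 h) hp.1
    have hzI' : z ∉ I' := fun h => disjoint_left.1 hd (hp'.2.1.1 h) hp.1
    have hzz : z = z' := by
      have : z ∈ insert z' I' := h ▸ mem_insert_self z I
      rcases mem_insert.1 this with h | h
      · exact h
      · exact absurd h hzI'
    subst hzz
    have := congrArg (fun K => K.erase z) h
    simp only [erase_insert hzI, erase_insert hzI'] at this
    rw [this]

end general

lemma cl_msk {G : SimpleGraph VV} [DecidableRel G.Adj] (a : ℕ → ℕ) (k : ℕ)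
    (h : ∀ p q : VV, p.1 < k → q.1 < k → (G.Adj p q ↔ p ≠ q ∧ p.1 = q.1)) :
    ∏ i ∈ range k, a i ≤ (msk G (cl a k) k).card := by
  induction k with
  | zero =>
    have : cl a 0 = ∅ := by simp [cl]
    rw [this, prod_range_zero]
    exact card_pos.2 ⟨∅, mem_msk.2 ⟨⟨Subset.refl _, by simp, by simp⟩, rfl⟩⟩
  | succ k ih =>
    have i1 := ih (fun p q hp hq => h p q (by omega) (by omega))
    set K : Finset VV := ({k} : Finset ℕ).sigma (fun i => range (a i)) with hK
    have hm : ∀ p : VV, p ∈ K ↔ p.1 = k ∧ p.2 < a p.1 := by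
      intro p; rw [hK, mem_sigma, mem_singleton, mem_range]
    have hu : cl a (k + 1) = cl a k ∪ K := by
      ext p; rw [mem_union, mem_cl, mem_cl, hm]; omega
    have hc : K.card = a k := by rw [hK, card_sigma]; simp
    have := msk_add_clique (G := G) (S := cl a k) (K := K)
      (by
        rw [disjoint_left]; intro p hp hp'
        have := (mem_cl.1 hp).1; have := ((hm p).1 hp').1; omega)
      (by
        intro p hp q hq hpq
        have h1 := ((hm p).1 hp).1; have h2 := ((hm q).1 hq).1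
        exact (h p q (by omega) (by omega)).2 ⟨hpq, by omega⟩)
      (by
        intro p hp q hq hpq
        have h1 := ((hm p).1 hp).1; have h2 := (mem_cl.1 hq).1
        have := ((h p q (by omega) (by omega)).1 hpq).2
        omega) k
    rw [hu, prod_range_succ]
    refine le_trans ?_ this
    rw [hc, mul_comm]
    exact Nat.mul_le_mul_left _ i1

theorem family_msk (a b : ℕ → ℕ) (j u : ℕ) (ha : ∀ i < j + 1, 1 ≤ a i)
    (hb : ∀ i < j, b i ≤ a i) :
    ∃ S : Finset VV, S.card = ∑ i ∈ range (j + 1), a i + 1 + u ∧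
      ce (GG b (j + 1) j) S = ce (GG b (j + 1) j) (cl a (j + 1)) + ∑ i ∈ range j, b i ∧
      ∏ i ∈ range (j + 1), a i + ∏ i ∈ range j, b i ≤ (msk (GG b (j + 1) j) S (j + 1)).card ∧
      (⟨j + 1, 0⟩ : VV) ∈ S ∧ ∀ p ∈ S, p.1 ≤ j + 1 ∨ (p.1 = j + 1 + 1 ∧ p.2 < u) := by
  induction u with
  | zero =>
    have hw : (⟨j + 1, 0⟩ : VV) ∉ cl a (j + 1) := fun h => absurd (mem_cl.1 h).1 (lt_irrefl _)
    have hadj : ∀ p q : VV, p.1 < j + 1 → q.1 < j + 1 →
        ((GG b (j + 1) j).Adj p q ↔ p ≠ q ∧ p.1 = q.1) := by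
      intro p q hp hq
      rw [GG_adj]
      constructor
      · rintro ⟨h1, h2⟩; exact ⟨h1, by omega⟩
      · rintro ⟨h1, h2⟩; exact ⟨h1, Or.inl h2⟩
    have f1 := cl_msk a (j + 1) hadj
    have g1 := cl_msk b j (fun p q hp hq => hadj p q (by omega) (by omega))
    have hsd : cl a (j + 1) \ nb (GG b (j + 1) j) (cl a (j + 1)) ⟨j + 1, 0⟩ = cl b j := by
      ext p
      rw [mem_sdiff, mem_nb, mem_cl, mem_cl, GG_adj]
      constructor
      · rintro ⟨h1, h2⟩
        have hne : (⟨j + 1, 0⟩ : VV) ≠ p := by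
          intro h; rw [← h] at h1; exact absurd h1.1 (lt_irrefl _)
        by_contra h3
        apply h2
        refine ⟨h1, hne, Or.inr (Or.inr (Or.inr (Or.inl ⟨rfl, by omega⟩)))⟩
      · rintro ⟨h1, h2⟩
        have := hb p.1 h1
        refine ⟨by omega, ?_⟩
        rintro ⟨_, _, h4⟩
        simp only at h4
        omega
    have hdg := card_sdiff_add_card_eq_card
      (nb_subset (G := GG b (j + 1) j) (cl a (j + 1)) ⟨j + 1, 0⟩)
    rw [hsd, card_cl] at hdg
    have hnn := card_nn (G := GG b (j + 1) j) hw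
    refine ⟨insert ⟨j + 1, 0⟩ (cl a (j + 1)), ?_, ?_, ?_, mem_insert_self _ _, ?_⟩
    · rw [card_insert_of_notMem hw, card_cl]
    · rw [ce_insert hw]
      unfold dg at hnn
      omega
    · have := msk_insert_ge (G := GG b (j + 1) j) hw (by
        intro I hI
        have hm : (⟨j, 0⟩ : VV) ∈ cl a (j + 1) := mem_cl.2 ⟨by simp only; omega, ha j (by omega)⟩
        obtain ⟨z, hz, hzI⟩ := isM_meets hI hm
        refine ⟨z, hzI, ?_⟩
        have hz1 : z.1 = j := by
          rcases mem_cnb.1 hz with h | h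
          · rw [h]
          · exact ((hadj _ _ (mem_cl.1 hm).1 (mem_cl.1 h.1).1).1 h.2).2.symm
        rw [GG_adj]
        refine ⟨?_, Or.inr (Or.inr (Or.inr (Or.inl ⟨rfl, by omega⟩)))⟩
        intro h; rw [← h] at hz1; simp only at hz1; omega) j
      rw [hsd] at this
      omega
    · intro p hp
      rcases mem_insert.1 hp with h | h
      · rw [h]; exact Or.inl le_rfl
      · exact Or.inl (mem_cl.1 h).1.le
  | succ u ih =>
    obtain ⟨S, h1, h2, h3, h4, h5⟩ := ih
    have hw : (⟨j + 1 + 1, u⟩ : VV) ∉ S := by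
      intro h; have := h5 _ h; simp only at this; omega
    have hall : ∀ p ∈ S, (GG b (j + 1) j).Adj ⟨j + 1 + 1, u⟩ p := by
      intro p hp
      rw [GG_adj]
      exact ⟨fun h => hw (h ▸ hp), Or.inr (Or.inl rfl)⟩
    have hnn : nn (GG b (j + 1) j) S ⟨j + 1 + 1, u⟩ = ∅ := by
      rw [eq_empty_iff_forall_notMem]
      intro p hp
      exact (mem_nn.1 hp).2.2 (hall p (mem_nn.1 hp).1)
    refine ⟨insert ⟨j + 1 + 1, u⟩ S, ?_, ?_, ?_, mem_insert_of_mem h4, ?_⟩
    · rw [card_insert_of_notMem hw, h1]; ring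
    · rw [ce_insert hw, hnn, h2]; simp
    · have := msk_insert_ge (G := GG b (j + 1) j) hw (by
        intro I hI
        obtain ⟨z, _, hzI⟩ := isM_meets hI h4
        exact ⟨z, hzI, hall z (hI.1 hzI)⟩) j
      omega
    · intro p hp
      rcases mem_insert.1 hp with h | h
      · rw [h]; exact Or.inr ⟨rfl, by simp⟩
      · have := h5 p h; omega

lemma ncard_msk {W : Type} [Fintype W] [DecidableEq W] (H : SimpleGraph W)
    [DecidableRel H.Adj] (k : ℕ) :
    {S : Set W | Maximal H.IsIndepSet S ∧ S.ncard = k}.ncard = (msk H univ k).card := by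
  rw [← Set.ncard_coe_finset, ← Set.ncard_image_of_injective _ Finset.coe_injective]
  congr 1
  ext S
  simp only [Set.mem_ofPred_eq, Set.mem_image, mem_coe, mem_msk]
  constructor
  · rintro ⟨h, hk⟩
    classical
    refine ⟨S.toFinset, ⟨⟨subset_univ _, ?_, ?_⟩, by rw [← hk, Set.ncard_eq_toFinset_card']⟩,
      Set.coe_toFinset S⟩
    · intro a ha b hb hab
      exact h.1 (Set.mem_toFinset.1 ha) (Set.mem_toFinset.1 hb) (H.ne_of_adj hab) hab
    · intro x _ hx
      by_contra hcon
      push Not at hcon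
      apply hx
      rw [Set.mem_toFinset]
      have : H.IsIndepSet (insert x S) := by
        intro a ha b hb hab hadj
        rcases ha with ha | ha <;> rcases hb with hb | hb
        · exact hab (ha.trans hb.symm)
        · exact hcon b (Set.mem_toFinset.2 hb) (ha ▸ hadj)
        · exact hcon a (Set.mem_toFinset.2 ha) (hb ▸ hadj.symm)
        · exact h.1 ha hb hab hadj
      exact h.2 this (Set.subset_insert _ _) (Set.mem_insert _ _)
  · rintro ⟨I, ⟨⟨_, h2, h3⟩, hk⟩, rfl⟩
    refine ⟨⟨fun a ha b hb _ hab => h2 a ha b hb hab, ?_⟩, by rw [Set.ncard_coe_finset, hk]⟩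
    intro T hT hIT x hx
    by_contra hxI
    obtain ⟨a, ha, hxa⟩ := h3 x (mem_univ _) hxI
    exact hT hx (hIT ha) (H.ne_of_adj hxa) hxa

lemma transfer_msk {V : Type} [DecidableEq V] (G : SimpleGraph V) [DecidableRel G.Adj]
    (S : Finset V) {v : ℕ} (hv : S.card = v) (k : ℕ) :
    ∃ H : SimpleGraph (Fin v), H.edgeSet.ncard = ed G S ∧
      (msk G S k).card ≤ {T : Set (Fin v) | Maximal H.IsIndepSet T ∧ T.ncard = k}.ncard := by
  let f : Fin v ↪ V := (S.equivFinOfCardEq hv).symm.toEmbedding.trans (Function.Embedding.subtype _)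
  have hf : univ.map f = S := by
    apply eq_of_subset_of_card_le
    · intro x hx
      obtain ⟨i, _, rfl⟩ := mem_map.1 hx
      exact ((S.equivFinOfCardEq hv).symm i).2
    · rw [card_map, card_univ, Fintype.card_fin, hv]
  let H : SimpleGraph (Fin v) := G.comap f
  have : DecidableRel H.Adj := fun a b => Classical.propDecidable _
  have hadj : ∀ a b, H.Adj a b ↔ G.Adj (f a) (f b) := fun _ _ => Iff.rfl
  have hmap : ∀ I : Finset V, I ⊆ S → (univ.filter fun x => f x ∈ I).map f = I := by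
    intro I hI
    ext y
    rw [mem_map]
    constructor
    · rintro ⟨x, hx, rfl⟩; exact (mem_filter.1 hx).2
    · intro hy
      have := hI hy
      rw [← hf] at this
      obtain ⟨i, _, rfl⟩ := mem_map.1 this
      exact ⟨i, mem_filter.2 ⟨mem_univ _, hy⟩, rfl⟩
  refine ⟨H, ?_, ?_⟩
  · rw [ncard_edges, ← hf]
    unfold ed e2
    simp only [dg_eq_sum, sum_map]
    congr 1
    exact sum_congr rfl (fun a _ => sum_congr rfl (fun b _ => if_congr (hadj a b) rfl rfl))
  · rw [ncard_msk]
    apply card_le_card_of_injOn (fun I => univ.filter (fun x => f x ∈ I))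
    · intro I hI
      simp only [mem_coe, mem_msk] at hI ⊢
      obtain ⟨⟨h1, h2, h3⟩, hk⟩ := hI
      refine ⟨⟨subset_univ _, ?_, ?_⟩, by rw [← card_map f, hmap I h1, hk]⟩
      · intro a ha b hb
        exact h2 _ (mem_filter.1 ha).2 _ (mem_filter.1 hb).2
      · intro x _ hx
        obtain ⟨a, ha, hxa⟩ := h3 (f x) (hf ▸ mem_map_of_mem f (mem_univ x))
          (fun h => hx (mem_filter.2 ⟨mem_univ _, h⟩))
        have := h1 ha
        rw [← hf] at this
        obtain ⟨i, _, rfl⟩ := mem_map.1 this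
        exact ⟨i, mem_filter.2 ⟨mem_univ _, ha⟩, hxa⟩
    · intro I hI J hJ h
      simp only [mem_coe, mem_msk] at hI hJ h
      rw [← hmap I hI.1.1, ← hmap J hJ.1.1, h]

theorem sized (v e k n q : ℕ) (hk : 2 ≤ k) (hkn : k ≤ n) (hn : n < v) (hq : q ≤ n - n / k)
    (he : e + n.choose 2 + q = v.choose 2 + inner n k) :
    IsGreatest {c : ℕ | ∃ G : SimpleGraph (Fin v), G.edgeSet.ncard = e ∧
      {S : Set (Fin v) | Maximal G.IsIndepSet S ∧ S.ncard = k}.ncard = c}
      (bal n k + bal q (k - 1)) := by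
  obtain ⟨j, rfl⟩ : ∃ j, k = j + 2 := ⟨k - 2, by omega⟩
  have hti : tt (j + 2) n + inner n (j + 2) = n.choose 2 := tt_inner (j + 1) n
  have up : ∀ H : SimpleGraph (Fin v), H.edgeSet.ncard = e →
      {S : Set (Fin v) | Maximal H.IsIndepSet S ∧ S.ncard = j + 2}.ncard ≤
        bal n (j + 2) + bal q (j + 2 - 1) := by
    classical
    intro H hH
    rw [ncard_edges] at hH
    rw [ncard_msk]
    have h1 := edge_bound (G := H) j univ
    have h2 := gg_le (j := j) (n := n) (q := q) (m := ce H univ) hq (by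
      unfold ce; rw [card_univ, Fintype.card_fin]; omega)
    unfold val at h2
    rw [Bf_eq, Bf_eq] at h2
    exact h1.trans h2
  refine ⟨?_, by rintro c ⟨H, h, rfl⟩; exact up H h⟩
  have hk0 : j + 1 + 1 = 0 → n = 0 := by omega
  have hj0 : j + 1 = 0 → q = 0 := by omega
  obtain ⟨S, f1, f2, f3, -, -⟩ := family_msk (part n (j + 1 + 1)) (part q (j + 1)) (j + 1) (v - 1 - n)
    (by
      intro i hi
      have : 1 ≤ n / (j + 1 + 1) := (Nat.one_le_div_iff (by omega)).2 hkn
      unfold part; split_ifs <;> omega)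
    (fun i hi => part_le hi (by
      have h1 := Nat.div_add_mod n (j + 1 + 1)
      have h2 := Nat.mod_lt n (show 0 < j + 1 + 1 by omega)
      unfold top
      rw [add_mul (j + 1), one_mul] at h1
      change q ≤ n - n / (j + 1 + 1) at hq
      omega))
  have f4 := (cl_facts (G := GG (part q (j + 1)) (j + 1 + 1) (j + 1)) (part n (j + 1 + 1))
    (j + 1 + 1) (by
      intro p r hp hr
      rw [GG_adj]
      constructor
      · rintro ⟨h1, h2⟩; exact ⟨h1, by omega⟩
      · rintro ⟨h1, h2⟩; exact ⟨h1, Or.inl h2⟩)).2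
  rw [sum_part hk0] at f1
  rw [sum_choose_part hk0] at f4
  rw [prod_part hk0, prod_part hj0] at f3
  have hv : S.card = v := by omega
  have f5 := ed_le_ch (G := GG (part q (j + 1)) (j + 1 + 1) (j + 1)) S
  unfold ce at f2
  rw [sum_part hj0, f4, card_cl, sum_part hk0, hv] at f2
  rw [hv] at f5
  obtain ⟨H, g1, g2⟩ := transfer_msk (GG (part q (j + 1)) (j + 1 + 1) (j + 1)) S hv (j + 1 + 1)
  have g3 : H.edgeSet.ncard = e := by
    change e + n.choose 2 + q = v.choose 2 + inner n (j + 1 + 1) at he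
    change tt (j + 2) n + inner n (j + 1 + 1) = n.choose 2 at hti
    omega
  exact ⟨H, g3, le_antisymm (up H g3) (f3.trans g2)⟩

end Pool.Agent.P.MP_88303f_co.Sz
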