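import Mathlib
import Pool.Agent.P.MP_88303f_co.Defs

namespace Pool.Agent.P.MP_88303f_co.Sz

open Finset

def DD (k n : ℕ) : ℕ := n - n / k

def tt (k : ℕ) : ℕ → ℕ
  | 0 => 0
  | n + 1 => tt k n + DD k n

def Bf : ℕ → ℕ → ℕ
  | 0, _ => 1
  | _ + 1, 0 => 0
  | k + 1, n + 1 => Bf (k + 1) n + Bf k (DD (k + 1) n)

lemma Bf_zero (n : ℕ) : Bf 0 n = 1 := by unfold Bf; rfl
lemma Bf_succ_zero (k : ℕ) : Bf (k + 1) 0 = 0 := by unfold Bf; rfl
lemma Bf_succ (k n : ℕ) : Bf (k + 1) (n + 1) = Bf (k + 1) n + Bf k (DD (k + 1) n) := by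
  rw [Bf]
lemma Bf_succ2 (j n : ℕ) : Bf (j + 2) (n + 1) = Bf (j + 2) n + Bf (j + 1) (DD (j + 2) n) :=
  Bf_succ (j + 1) n
lemma Bf_succ3 (j n : ℕ) : Bf (j + 3) (n + 1) = Bf (j + 3) n + Bf (j + 2) (DD (j + 3) n) :=
  Bf_succ (j + 2) n
lemma tt_succ (k n : ℕ) : tt k (n + 1) = tt k n + DD k n := rfl
lemma tt_zero (k : ℕ) : tt k 0 = 0 := rfl

lemma DD_qr {k σ r : ℕ} (hr : r ≤ k) : ((k + 1) * σ + r) / (k + 1) = σ ∧
    DD (k + 1) ((k + 1) * σ + r) = k * σ + r := by
  have h : ((k + 1) * σ + r) / (k + 1) = σ := by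
    rw [Nat.add_comm, Nat.add_mul_div_left _ _ (Nat.succ_pos k), Nat.div_eq_of_lt (by omega)]; simp
  refine ⟨h, ?_⟩
  unfold DD; rw [h, add_mul, one_mul]; omega

lemma exists_qr (k n : ℕ) : ∃ σ r, r ≤ k ∧ n = (k + 1) * σ + r :=
  ⟨n / (k + 1), n % (k + 1), Nat.lt_succ_iff.1 (Nat.mod_lt _ (Nat.succ_pos k)),
    (Nat.div_add_mod n (k + 1)).symm⟩

lemma DD_step (k n : ℕ) : DD k n ≤ DD k (n + 1) := by
  unfold DD
  have h1 : (n + 1) / k ≤ n / k + 1 := by rw [Nat.succ_div]; split_ifs <;> omega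
  have h2 := Nat.div_le_self n k
  omega

lemma DD_mono (k : ℕ) : Monotone (DD k) := monotone_nat_of_le_succ (DD_step k)

lemma tt_mono (k : ℕ) : Monotone (tt k) :=
  monotone_nat_of_le_succ fun n => by rw [tt_succ]; omega

lemma Bf_mono (k : ℕ) : Monotone (Bf k) := by
  cases k with
  | zero => intro a b _; rw [Bf_zero, Bf_zero]
  | succ k => exact monotone_nat_of_le_succ fun n => by rw [Bf_succ]; omega

lemma DD_one (n : ℕ) : DD 1 n = 0 := by simp [DD]

lemma Bf_one (n : ℕ) : Bf 1 n = n := by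
  induction n with
  | zero => exact Bf_succ_zero 0
  | succ n ih => rw [Bf_succ 0, ih, Bf_zero]

lemma tt_one (n : ℕ) : tt 1 n = 0 := by
  induction n with
  | zero => rfl
  | succ n ih => rw [tt_succ, ih, DD_one]

lemma Bf_two (n : ℕ) : Bf 2 n = tt 2 n := by
  induction n with
  | zero => exact Bf_succ_zero 1
  | succ n ih => rw [Bf_succ 1, ih, Bf_one, tt_succ]

lemma conv (k : ℕ) {x y : ℕ} (h : x ≤ y) (d : ℕ) :
    Bf (k + 1) (x + d) + Bf (k + 1) y ≤ Bf (k + 1) (y + d) + Bf (k + 1) x := by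
  induction d with
  | zero => simp [add_comm]
  | succ d ih =>
    rw [← add_assoc, ← add_assoc, Bf_succ, Bf_succ]
    have := Bf_mono k (DD_mono (k + 1) (show x + d ≤ y + d by omega))
    omega

lemma superadd (k x y : ℕ) : Bf (k + 1) x + Bf (k + 1) y ≤ Bf (k + 1) (x + y) := by
  have := conv k (Nat.zero_le y) x
  rw [Bf_succ_zero, zero_add, add_comm y x] at this
  omega

/-- complete multipartite products are at most the balanced product -/
lemma vert (k : ℕ) : ∀ a s : ℕ, s * Bf k a ≤ Bf (k + 1) (a + s) := by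
  induction k with
  | zero => intro a s; rw [Bf_zero, Bf_one]; omega
  | succ k ihk =>
    intro a s
    induction hN : a + s generalizing a s with
    | zero => obtain rfl : s = 0 := by omega
              simp
    | succ N ih =>
      rcases s with _ | s
      · simp
      rw [Bf_succ]
      by_cases h : a ≤ DD (k + 1 + 1) N
      · have h1 := ih a s (by omega)
        have h2 := Bf_mono (k + 1) h
        rw [add_mul, one_mul]; omega
      · rcases a with _ | a
        · omega
        have h1 := ih a (s + 1) (by omega)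
        have h2 := ihk (DD (k + 1) a) (s + 1)
        have h3 : DD (k + 1) a + (s + 1) ≤ DD (k + 1 + 1) N := by
          obtain ⟨σ, r, hr, rfl⟩ := exists_qr (k + 1) N
          rw [(DD_qr hr).2] at h ⊢
          have e1 : (k + 1 + 1) * σ = (k + 1) * σ + σ := by ring
          have h4 : σ ≤ a / (k + 1) := by
            rw [Nat.le_div_iff_mul_le (show 0 < k + 1 by omega), mul_comm]; omega
          have h5 := Nat.div_le_self a (k + 1)
          unfold DD; omega
        have h4 := Bf_mono (k + 1) h3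
        rw [Bf_succ, mul_add]; omega

lemma DD_pos (j : ℕ) {n : ℕ} (hn : 1 ≤ n) : 1 ≤ DD (j + 2) n := by
  have := DD_mono (j + 2) hn
  have h1 : DD (j + 2) 1 = 1 := by unfold DD; rw [Nat.div_eq_of_lt (by omega)]
  omega

lemma decomp (j m : ℕ) : ∃ n q, q < DD (j + 2) n ∧ m = tt (j + 2) n + q := by
  induction m with
  | zero => exact ⟨1, 0, DD_pos j le_rfl, by simp [tt, DD]⟩
  | succ m ih =>
    obtain ⟨n, q, h1, h2⟩ := ih
    by_cases h : q + 1 < DD (j + 2) n
    · exact ⟨n, q + 1, h, by omega⟩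
    · exact ⟨n + 1, 0, DD_pos j (by omega), by rw [tt_succ]; omega⟩

def val (j n q : ℕ) : ℕ := Bf (j + 2) n + Bf (j + 1) q

lemma val_mono {j n q n' q' : ℕ} (hq : q ≤ DD (j + 2) n) (hq' : q' ≤ DD (j + 2) n')
    (h : tt (j + 2) n + q ≤ tt (j + 2) n' + q') : val j n q ≤ val j n' q' := by
  unfold val
  rcases lt_trichotomy n n' with h1 | rfl | h1
  · have h2 := Bf_mono (j + 2) (show n + 1 ≤ n' from h1)
    have h3 := Bf_mono (j + 1) hq
    rw [Bf_succ2] at h2; omega
  · have := Bf_mono (j + 1) (show q ≤ q' by omega); omega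
  · have h2 := tt_mono (j + 2) (show n' + 1 ≤ n from h1)
    rw [tt_succ] at h2
    obtain rfl : q = 0 := by omega
    obtain rfl : q' = DD (j + 2) n' := by omega
    obtain rfl : n = n' + 1 := by
      by_contra h3
      have h4 := tt_mono (j + 2) (show n' + 1 + 1 ≤ n by omega)
      have h5 := DD_pos j (show 1 ≤ n' + 1 by omega)
      rw [tt_succ, tt_succ] at h4; omega
    rw [Bf_succ_zero, Bf_succ2]; omega

noncomputable def gg (j m : ℕ) : ℕ :=
  val j (decomp j m).choose (decomp j m).choose_spec.choose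

lemma gg_le {j m n q : ℕ} (hq : q ≤ DD (j + 2) n) (h : m ≤ tt (j + 2) n + q) :
    gg j m ≤ val j n q := by
  obtain ⟨h1, h2⟩ := (decomp j m).choose_spec.choose_spec
  exact val_mono h1.le hq (h2 ▸ h)

lemma le_gg {j m n q : ℕ} (hq : q ≤ DD (j + 2) n) (h : tt (j + 2) n + q ≤ m) :
    val j n q ≤ gg j m := by
  obtain ⟨h1, h2⟩ := (decomp j m).choose_spec.choose_spec
  exact val_mono hq h1.le (h2 ▸ h)

lemma gg_mono (j : ℕ) {m m' : ℕ} (h : m ≤ m') : gg j m ≤ gg j m' := by
  obtain ⟨n, q, h1, h2⟩ := decomp j m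
  exact (gg_le h1.le h2.le).trans (le_gg h1.le (by omega))

lemma cascade {j n m x : ℕ} (hn : tt (j + 2) n ≤ m) (hx : x ≤ DD (j + 2) n) :
    gg j m + Bf (j + 1) x ≤ gg j (m + x) := by
  obtain ⟨n', q, h1, h2⟩ := decomp j m
  have h3 : n ≤ n' := by
    by_contra h3
    have := tt_mono (j + 2) (show n' + 1 ≤ n by omega)
    rw [tt_succ] at this; omega
  have h4 := DD_mono (j + 2) h3
  have h5 := gg_le h1.le h2.le
  by_cases h : q + x ≤ DD (j + 2) n'
  · have h6 := le_gg (m := m + x) h (by omega)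
    have h7 := superadd j q x
    unfold val at *; omega
  · have h8 := DD_step (j + 2) n'
    have h6 := le_gg (j := j) (m := m + x) (n := n' + 1) (q := q + x - DD (j + 2) n') (by omega)
      (by rw [tt_succ]; omega)
    have h7 := conv j (show q + x - DD (j + 2) n' ≤ x by omega) (DD (j + 2) n' - x)
    rw [show q + x - DD (j + 2) n' + (DD (j + 2) n' - x) = q by omega,
      show x + (DD (j + 2) n' - x) = DD (j + 2) n' by omega] at h7
    unfold val at *
    rw [Bf_succ2] at h6; omega

lemma tt_qr (k : ℕ) (a : ℕ) : ∀ σ r, r ≤ k + 1 → a = (k + 2) * σ + r →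
    tt (k + 2) a = σ * ((k + 1) * σ + r) + tt (k + 1) ((k + 1) * σ + r) := by
  induction a with
  | zero =>
    intro σ r _ h
    obtain rfl : σ = 0 := by
      rcases σ with _ | σ
      · rfl
      · rw [mul_add] at h; omega
    obtain rfl : r = 0 := by omega
    simp [tt]
  | succ a ih =>
    intro σ r hr h
    rcases r with _ | r
    · rcases σ with _ | σ
      · omega
      have e : a = (k + 2) * σ + (k + 1) := by rw [mul_add] at h; omega
      have h1 := ih σ (k + 1) le_rfl e
      have h2 := (DD_qr (k := k + 1) (σ := σ) le_rfl).2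
      rw [tt_succ, h1, e, h2, show (k + 1) * (σ + 1) + 0 = (k + 1) * σ + (k + 1) by ring]; ring
    · have e : a = (k + 2) * σ + r := by omega
      have h1 := ih σ r (by omega) e
      have h2 := (DD_qr (k := k + 1) (σ := σ) (show r ≤ k + 1 by omega)).2
      have h3 := (DD_qr (k := k) (σ := σ) (show r ≤ k by omega)).2
      rw [tt_succ, h1, e, h2, ← add_assoc ((k + 1) * σ), tt_succ, h3]; ring

/-- the key step -/
lemma keystep {j c x e σ m : ℕ} (h1 : c ≤ Bf (j + 2) x) (h2 : c ≤ gg j e)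
    (h3 : σ * x + e ≤ m) (h4 : x ≤ (j + 2) * (σ + 1)) :
    gg (j + 1) m + c ≤ gg (j + 1) (m + x) := by
  rcases Nat.eq_zero_or_pos c with rfl | hc
  · exact gg_mono _ (by omega)
  have hex : ∃ a, c ≤ Bf (j + 2) a := ⟨x, h1⟩
  have ha := Nat.find_spec hex
  have hax : Nat.find hex ≤ x := Nat.find_min' hex h1
  have hmin := fun y => Nat.find_min hex (m := y)
  generalize Nat.find hex = a at *
  rcases a with _ | a
  · rw [Bf_succ_zero] at ha; omega
  have hlt := hmin a (by omega)
  obtain ⟨s, r, hr, rfl⟩ := exists_qr (j + 1) a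
  have hs : s ≤ σ := by
    by_contra hs
    have : (j + 2) * (σ + 1) ≤ (j + 2) * s := Nat.mul_le_mul_left _ (by omega)
    simp only [add_assoc, Nat.reduceAdd] at hax; omega
  set a := (j + 1 + 1) * s + r with hadef
  have hT := tt_qr (j + 1) ((j + 3) * s + r) s r (by omega) rfl
  have hD0 : DD (j + 3) ((j + 3) * s + r) = a := (DD_qr (k := j + 2) (by omega)).2
  have hD1 : DD (j + 3) ((j + 3) * s + r + 1) = a + 1 :=
    (DD_qr (k := j + 2) (σ := s) (r := r + 1) (by omega)).2
  have hD2 : DD (j + 2) a = (j + 1) * s + r := (DD_qr (k := j + 1) hr).2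
  rw [← hadef] at hT
  have hsa : a = (j + 1) * s + r + s := by rw [hadef]; ring
  have hm : s * (a + 1) ≤ σ * x := Nat.mul_le_mul hs hax
  rw [mul_add, mul_one] at hm
  refine le_trans ?_ (gg_mono (j + 1) (show m + (a + 1) ≤ m + x by omega))
  by_cases hb : tt (j + 3) ((j + 3) * s + r + 1) ≤ m
  · have : gg (j + 1) m + Bf (j + 2) (a + 1) ≤ gg (j + 1) (m + (a + 1)) :=
      cascade (j := j + 1) (x := a + 1) hb hD1.ge
    omega
  rw [tt_succ, hD0] at hb
  obtain ⟨n, q, h5, h6⟩ := decomp j e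
  have h7 := gg_le h5.le h6.le
  have h8 : n = a := by
    have h9 : a < n + 1 := by
      by_contra h9
      have h10 := Bf_mono (j + 2) (show n + 1 ≤ a by omega)
      have h11 := Bf_mono (j + 1) h5.le
      rw [Bf_succ2] at h10
      unfold val at h7; omega
    by_contra h10
    have h11 := tt_mono (j + 2) (show a + 1 ≤ n by omega)
    rw [tt_succ, hD2] at h11
    simp only [add_assoc, Nat.reduceAdd] at hT hb h11
    omega
  subst h8
  simp only [add_assoc, Nat.reduceAdd] at hT hb
  obtain ⟨y, hy⟩ : ∃ y, m = tt (j + 3) ((j + 3) * s + r) + y := ⟨m - tt (j + 3) ((j + 3) * s + r), by omega⟩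
  have h9 := gg_le (j := j + 1) (n := (j + 3) * s + r) (q := y) (m := m) (by rw [hD0]; omega) hy.le
  have h10 := le_gg (j := j + 1) (n := (j + 3) * s + r + 1) (q := y + 1) (m := m + (a + 1))
    (by rw [hD1]; omega) (by
      show tt (j + 3) ((j + 3) * s + r + 1) + (y + 1) ≤ _
      rw [tt_succ, hD0]; omega)
  have h11 : q ≤ DD (j + 2) y := by
    refine le_trans ?_ (DD_mono (j + 2) (show s + q ≤ y by omega))
    have h12 : (s + q) / (j + 2) ≤ a / (j + 2) := Nat.div_le_div_right (by omega)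
    have h13 : a / (j + 2) = s := (DD_qr (k := j + 1) hr).1
    unfold DD; omega
  have h12 := Bf_mono (j + 1) h11
  unfold val at h7 h9 h10
  simp only [add_assoc j, Nat.reduceAdd] at h9 h10
  rw [Bf_succ3, Bf_succ2, hD0] at h10
  omega

def CM (j : ℕ) : Prop := ∀ s q : ℕ, s * Bf (j + 1) q ≤ gg j (tt (j + 1) q + s * q)

lemma le_gg_zero (m : ℕ) : m ≤ gg 0 m := by
  obtain ⟨n, q, h1, h2⟩ := decomp 0 m
  have := le_gg h1.le h2.ge
  unfold val at this
  simp only [zero_add] at this h2
  rw [Bf_two, Bf_one] at this; omega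

lemma CM_zero : CM 0 := by
  intro s q
  simp only [zero_add]
  rw [Bf_one, tt_one, zero_add]
  exact le_gg_zero _

lemma rows {ι : Type} [DecidableEq ι] {j : ℕ} (hC : CM j) (N : ℕ) :
    ∀ (s : Finset ι) (l c : ι → ℕ) (e : ℕ), e + s.card = N →
      (∀ i ∈ s, c i ≤ Bf (j + 2) (l i) ∧ c i ≤ gg j e) →
      ∑ i ∈ s, c i ≤ gg (j + 1) (e + ∑ i ∈ s, l i) := by
  induction N using Nat.strong_induction_on with
  | _ N ih =>
  intro s l c e hN h
  rcases e with _ | e
  · have h0 : gg j 0 ≤ val j 0 0 := gg_le (Nat.zero_le _) (Nat.zero_le _)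
    unfold val at h0
    rw [Bf_succ_zero, Bf_succ_zero] at h0
    rw [sum_eq_zero fun i hi => by have := (h i hi).2; omega]
    exact Nat.zero_le _
  obtain ⟨a, q, h1, h2⟩ := decomp j e
  have h3 : gg j (e + 1) ≤ val j a (q + 1) := gg_le h1 (by omega)
  unfold val at h3
  obtain ⟨σ, r, hr, ha⟩ := exists_qr (j + 1) a
  have hD : DD (j + 2) a = (j + 1) * σ + r := ha ▸ (DD_qr (k := j + 1) hr).2
  have hsa : a = (j + 1) * σ + r + σ := by rw [ha]; ring
  have e2 : (j + 2) * (σ + 1) = (j + 1) * σ + σ + j + 2 := by ring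
  by_cases hs : σ + 1 ≤ s.card
  · obtain ⟨i, hi, hmin⟩ := exists_min_image s l (card_pos.1 (by omega))
    have hcard := card_erase_add_one hi
    have h4 := ih (e + 1 + (s.erase i).card) (by omega) (s.erase i) l c (e + 1) rfl
      fun x hx => h x (mem_of_mem_erase hx)
    have h5 : (s.erase i).card * min (l i) (a + 1) ≤ ∑ x ∈ s.erase i, l x := by
      rw [← smul_eq_mul, ← sum_const]
      exact sum_le_sum fun x hx => (min_le_left _ _).trans (hmin x (mem_of_mem_erase hx))
    have h6 : σ * min (l i) (a + 1) ≤ (s.erase i).card * min (l i) (a + 1) :=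
      Nat.mul_le_mul_right _ (by omega)
    have h7 : c i ≤ Bf (j + 2) (min (l i) (a + 1)) := by
      rcases le_total (l i) (a + 1) with h8 | h8
      · rw [min_eq_left h8]; exact (h i hi).1
      · rw [min_eq_right h8, Bf_succ2]
        have := Bf_mono (j + 1) (show q + 1 ≤ DD (j + 2) a from h1)
        have := (h i hi).2
        omega
    have h8 := keystep (m := e + 1 + ∑ x ∈ s.erase i, l x) (σ := σ) h7 (h i hi).2 (by omega)
      (by have := min_le_right (l i) (a + 1); omega)
    have h9 := gg_mono (j + 1) (show e + 1 + ∑ x ∈ s.erase i, l x + min (l i) (a + 1) ≤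
      e + 1 + (l i + ∑ x ∈ s.erase i, l x) by have := min_le_left (l i) (a + 1); omega)
    rw [← add_sum_erase s c hi, ← add_sum_erase s l hi]
    omega
  · set u := (s.filter fun i => a < l i).card with hu
    have hus : u ≤ s.card := card_filter_le _ _
    have h4 := ih (tt (j + 2) a + s.card) (by omega) s (fun i => if a < l i then l i - 1 else l i)
      (fun i => min (c i) (Bf (j + 2) a)) (tt (j + 2) a) rfl (by
        intro i hi
        have h5 := le_gg (j := j) (n := a) (q := 0) (m := tt (j + 2) a) (Nat.zero_le _) le_rfl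
        unfold val at h5
        refine ⟨?_, (min_le_right _ _).trans (by omega)⟩
        split_ifs with h6
        · exact (min_le_right _ _).trans (Bf_mono _ (by omega))
        · exact (min_le_left _ _).trans (h i hi).1)
    have h5 : ∑ i ∈ s, c i ≤ ∑ i ∈ s, min (c i) (Bf (j + 2) a) + u * Bf (j + 1) (q + 1) := by
      rw [hu, ← smul_eq_mul, ← sum_const, sum_filter, ← sum_add_distrib]
      refine sum_le_sum fun i hi => ?_
      obtain ⟨h6, h7⟩ := h i hi
      split_ifs with h8
      · omega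
      · have := Bf_mono (j + 2) (show l i ≤ a by omega)
        omega
    have h6 : ∑ i ∈ s, l i = ∑ i ∈ s, (if a < l i then l i - 1 else l i) + u := by
      rw [hu, card_eq_sum_ones, sum_filter, ← sum_add_distrib]
      refine sum_congr rfl fun i _ => ?_
      split_ifs <;> omega
    have h7 : u * a ≤ ∑ i ∈ s, (if a < l i then l i - 1 else l i) := by
      rw [hu, ← smul_eq_mul, ← sum_const, sum_filter]
      refine sum_le_sum fun i _ => ?_
      split_ifs <;> omega
    have h8 := tt_qr j a σ r hr ha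
    have h9 := tt_mono (j + 1) (show q + 1 ≤ (j + 1) * σ + r by omega)
    have h10 : σ * (q + 1 + u) + u * (q + 1) ≤ σ * ((j + 1) * σ + r) + u * a := by
      have k1 : σ * (q + 1) ≤ σ * ((j + 1) * σ + r) := Nat.mul_le_mul_left _ (by omega)
      have k2 : u * (q + 1 + σ) ≤ u * a := Nat.mul_le_mul_left _ (by omega)
      nlinarith
    have h11 := keystep (m := tt (j + 2) a + ∑ i ∈ s, (if a < l i then l i - 1 else l i))
      (σ := σ) (vert (j + 1) (q + 1) u) (hC u (q + 1)) (by omega) (by omega)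
    rw [show tt (j + 2) a + ∑ i ∈ s, (if a < l i then l i - 1 else l i) + (q + 1 + u)
      = e + 1 + ∑ i ∈ s, l i by omega] at h11
    omega

lemma CM_all (j : ℕ) : CM j := by
  induction j with
  | zero => exact CM_zero
  | succ j ih =>
    intro s q
    have h5 := le_gg (j := j) (n := q) (q := 0) (m := tt (j + 2) q) (Nat.zero_le _) le_rfl
    unfold val at h5
    have := rows ih _ (range s) (fun _ => q) (fun _ => Bf (j + 2) q) (tt (j + 2) q) rfl
      fun _ _ => ⟨le_rfl, by omega⟩
    simpa using this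

lemma bal_qr {k σ r : ℕ} (hr : r ≤ k) : bal (k * σ + r) k = σ ^ (k - r) * (σ + 1) ^ r := by
  rcases k with _ | k
  · obtain rfl : r = 0 := by omega
    simp [bal]
  rcases Nat.lt_or_ge r (k + 1) with h | h
  · have h1 := (DD_qr (k := k) (σ := σ) (show r ≤ k by omega)).1
    have h2 : ((k + 1) * σ + r) % (k + 1) = r := by
      rw [Nat.mul_add_mod]; exact Nat.mod_eq_of_lt h
    unfold bal; rw [h1, h2]
  · obtain rfl : r = k + 1 := by omega
    unfold bal
    rw [show (k + 1) * σ + (k + 1) = (k + 1) * (σ + 1) by ring, Nat.mul_mod_right,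
      Nat.mul_div_cancel_left _ (Nat.succ_pos k)]
    simp

lemma Bf_eq (k : ℕ) : ∀ n, Bf k n = bal n k := by
  induction k with
  | zero => intro n; simp [Bf_zero, bal]
  | succ k ihk =>
    intro n
    induction n with
    | zero => simp [Bf_succ_zero, bal]
    | succ n ih =>
      obtain ⟨σ, r, hr, rfl⟩ := exists_qr k n
      rw [Bf_succ, ih, ihk, (DD_qr hr).2, add_assoc, bal_qr hr, bal_qr (show r ≤ k + 1 by omega),
        bal_qr (show r + 1 ≤ k + 1 by omega), Nat.add_sub_add_right,
        show k + 1 - r = k - r + 1 by omega]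
      ring

lemma inner_qr {k σ r : ℕ} (hr : r ≤ k + 1) :
    inner ((k + 1) * σ + r) (k + 1) = (k + 1) * σ.choose 2 + r * σ := by
  rcases Nat.lt_or_ge r (k + 1) with h | h
  · have h1 := (DD_qr (k := k) (σ := σ) (show r ≤ k by omega)).1
    have h2 : ((k + 1) * σ + r) % (k + 1) = r := by
      rw [Nat.mul_add_mod]; exact Nat.mod_eq_of_lt h
    unfold inner; rw [h1, h2]
  · obtain rfl : r = k + 1 := by omega
    unfold inner
    rw [show (k + 1) * σ + (k + 1) = (k + 1) * (σ + 1) by ring, Nat.mul_mod_right,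
      Nat.mul_div_cancel_left _ (Nat.succ_pos k), Nat.choose_succ_succ' σ 1, Nat.choose_one_right]
    ring

lemma tt_inner (k n : ℕ) : tt (k + 1) n + inner n (k + 1) = n.choose 2 := by
  induction n with
  | zero => simp [tt, inner]
  | succ n ih =>
    obtain ⟨σ, r, hr, rfl⟩ := exists_qr k n
    rw [tt_succ, (DD_qr hr).2, Nat.choose_succ_succ' _ 1, Nat.choose_one_right, ← ih,
      add_assoc ((k + 1) * σ), inner_qr (show r + 1 ≤ k + 1 by omega),
      inner_qr (show r ≤ k + 1 by omega)]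
    ring

end Pool.Agent.P.MP_88303f_co.Sz
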