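import Pool.Agent.P.MP_88303f_co.Construct
import Pool.Agent.P.MP_88303f_co.SzNum

namespace Pool.Agent.P.MP_88303f_co.Sz

set_option linter.unusedSectionVars false

open Finset

variable {V : Type} [DecidableEq V] (G : SimpleGraph V) [DecidableRel G.Adj]

def msk (S : Finset V) (k : ℕ) : Finset (Finset V) := (ms G S).filter fun I => I.card = k

def nn (T : Finset V) (b : V) : Finset V := T.filter fun x => x ≠ b ∧ ¬ G.Adj b x

def ce (S : Finset V) : ℕ := S.card.choose 2 - ed G S

variable {G}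

lemma mem_msk {S I : Finset V} {k : ℕ} : I ∈ msk G S k ↔ IsM G S I ∧ I.card = k := by
  unfold msk; rw [mem_filter, mem_ms]

lemma mem_nn {T : Finset V} {b x : V} : x ∈ nn G T b ↔ x ∈ T ∧ x ≠ b ∧ ¬ G.Adj b x := by
  unfold nn; rw [mem_filter]

lemma card_nn {T : Finset V} {b : V} (hb : b ∉ T) : (nn G T b).card + dg G T b = T.card := by
  have h := card_filter_add_card_filter_not (s := T) (G.Adj b)
  have : nn G T b = T.filter fun x => ¬ G.Adj b x := by
    ext x; rw [mem_nn, mem_filter]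
    exact ⟨fun h => ⟨h.1, h.2.2⟩, fun h => ⟨h.1, fun e => hb (e ▸ h.1), h.2⟩⟩
  rw [this]; unfold dg nb; omega

lemma ed_le_ch (S : Finset V) : ed G S ≤ S.card.choose 2 := by
  induction S using Finset.induction_on with
  | empty => simp [ed, e2]
  | insert b T hb ih =>
    have := card_nn (G := G) hb
    rw [ed_insert hb, card_insert_of_notMem hb, choose_two_succ]; omega

lemma ce_insert {T : Finset V} {b : V} (hb : b ∉ T) :
    ce G (insert b T) = ce G T + (nn G T b).card := by
  have h1 := card_nn (G := G) hb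
  have h2 := ed_le_ch (G := G) T
  unfold ce
  rw [ed_insert hb, card_insert_of_notMem hb, choose_two_succ]; omega

lemma with_le {S T : Finset V} (hT : T ⊆ S) (b : V) (k : ℕ) :
    ((msk G S (k + 1)).filter fun I => b ∈ I ∧ I ⊆ insert b T).card ≤ (msk G (nn G T b) k).card := by
  apply card_le_card_of_injOn (fun I => I.erase b)
  · intro I hI
    simp only [coe_filter, Set.mem_ofPred_eq, mem_msk, mem_coe] at hI ⊢
    obtain ⟨⟨⟨h1, h2, h3⟩, h4⟩, h5, h6⟩ := hI
    refine ⟨⟨fun x hx => ?_, fun x hx y hy => h2 x (mem_of_mem_erase hx) y (mem_of_mem_erase hy),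
      fun x hx hxI => ?_⟩, by rw [card_erase_of_mem h5, h4]; rfl⟩
    · obtain ⟨h7, h8⟩ := mem_erase.1 hx
      exact mem_nn.2 ⟨(mem_insert.1 (h6 h8)).resolve_left h7, h7, h2 b h5 x h8⟩
    · obtain ⟨h7, h8, h9⟩ := mem_nn.1 hx
      obtain ⟨a, ha, hxa⟩ := h3 x (hT h7) fun h => hxI (mem_erase.2 ⟨h8, h⟩)
      exact ⟨a, mem_erase.2 ⟨fun e => h9 (e ▸ hxa.symm), ha⟩, hxa⟩
  · intro I hI J hJ h
    simp only [coe_filter, Set.mem_ofPred_eq] at hI hJ h
    rw [← insert_erase hI.2.1, ← insert_erase hJ.2.1, h]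

lemma with_le' (S : Finset V) (b : V) (k : ℕ) :
    ((msk G S (k + 1)).filter fun I => b ∈ I).card ≤ (msk G (nn G S b) k).card := by
  refine le_trans (card_le_card fun I hI => ?_) (with_le (Subset.refl S) b k)
  rw [mem_filter] at hI ⊢
  exact ⟨hI.1, hI.2, (mem_msk.1 hI.1).1.1.trans (subset_insert _ _)⟩

lemma nn_subset (T : Finset V) (b : V) : nn G T b ⊆ T := filter_subset _ _

lemma not_sub_nn {S I : Finset V} {v : V} (hv : v ∈ S) (h : IsM G S I) : ¬ I ⊆ nn G S v := by
  intro hs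
  obtain ⟨z, hz, hzI⟩ := isM_meets h hv
  obtain ⟨-, h2, h3⟩ := mem_nn.1 (hs hzI)
  rcases mem_cnb.1 hz with h4 | h4
  · exact h2 h4
  · exact h3 h4.2

lemma msk_empty (k : ℕ) : msk G (∅ : Finset V) (k + 1) = ∅ := by
  rw [eq_empty_iff_forall_notMem]
  intro I hI
  obtain ⟨⟨h1, -⟩, h2⟩ := mem_msk.1 hI
  rw [subset_empty.1 h1] at h2; simp at h2

theorem vertex_bound (k : ℕ) : ∀ S : Finset V, (msk G S k).card ≤ Bf k S.card := by
  induction k with
  | zero =>
    intro S
    rw [Bf_zero, card_le_one]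
    intro I hI J hJ
    rw [card_eq_zero.1 (mem_msk.1 hI).2, card_eq_zero.1 (mem_msk.1 hJ).2]
  | succ k ih =>
    intro S
    rcases S.eq_empty_or_nonempty with rfl | hS
    · rw [msk_empty]; simp
    obtain ⟨v, hv, hmax⟩ := exists_max_image S (fun x => (nn G S x).card) hS
    have h1 : msk G S (k + 1) ⊆
        (S \ nn G S v).biUnion fun b => (msk G S (k + 1)).filter fun I => b ∈ I := by
      intro I hI
      obtain ⟨z, hz, hz'⟩ := not_subset.1 (not_sub_nn hv (mem_msk.1 hI).1)
      exact mem_biUnion.2 ⟨z, mem_sdiff.2 ⟨(mem_msk.1 hI).1.1 hz, hz'⟩, mem_filter.2 ⟨hI, hz⟩⟩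
    refine (card_le_card h1).trans (card_biUnion_le.trans ?_)
    have h2 := vert k (nn G S v).card (S \ nn G S v).card
    rw [add_comm (nn G S v).card, card_sdiff_add_card_eq_card (nn_subset S v)] at h2
    refine le_trans ?_ h2
    rw [← smul_eq_mul, ← sum_const]
    exact sum_le_sum fun b hb => (with_le' S b k).trans
      ((ih _).trans (Bf_mono k (hmax b (mem_sdiff.1 hb).1)))

lemma peel {S A : Finset V} {k P : ℕ} (hA : A ⊆ S)
    (hP : ∀ b ∈ S, ((msk G S (k + 1)).filter fun I => b ∈ I).card ≤ P)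
    (h0 : ∀ I ∈ msk G S (k + 1), ¬ I ⊆ A) (B : Finset V) (hB : B ⊆ S \ A) :
    ∃ l c : V → ℕ, ((msk G S (k + 1)).filter fun I => I ⊆ A ∪ B).card ≤ ∑ b ∈ B, c b ∧
      ce G A + ∑ b ∈ B, l b = ce G (A ∪ B) ∧ ∀ b ∈ B, c b ≤ Bf k (l b) ∧ c b ≤ P := by
  induction B using Finset.induction_on with
  | empty =>
    refine ⟨0, 0, ?_, by simp, by simp⟩
    rw [union_empty, filter_false_of_mem h0]; simp
  | insert b B hb ih =>
    obtain ⟨l, c, h1, h2, h3⟩ := ih ((subset_insert _ _).trans hB)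
    obtain ⟨hbS, hbA⟩ := mem_sdiff.1 (hB (mem_insert_self _ _))
    have hT : A ∪ B ⊆ S := union_subset hA
      (((subset_insert _ _).trans hB).trans sdiff_subset)
    have hbT : b ∉ A ∪ B := fun h => (mem_union.1 h).elim hbA hb
    set x := ((msk G S (k + 1)).filter fun I => b ∈ I ∧ I ⊆ insert b (A ∪ B)).card with hx
    have hne : ∀ y ∈ B, y ≠ b := fun y hy e => hb (e ▸ hy)
    refine ⟨Function.update l b (nn G (A ∪ B) b).card, Function.update c b x, ?_, ?_, ?_⟩
    · rw [sum_insert hb, Function.update_self,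
        sum_congr rfl fun y hy => Function.update_of_ne (hne y hy) _ _, union_insert]
      refine le_trans ?_ (Nat.add_le_add_left h1 x)
      refine le_trans (card_le_card fun I hI => ?_) (card_union_le _ _)
      rw [mem_filter] at hI
      rw [mem_union, mem_filter, mem_filter]
      by_cases h : b ∈ I
      · exact Or.inl ⟨hI.1, h, hI.2⟩
      · exact Or.inr ⟨hI.1, (subset_insert_iff_of_notMem h).1 hI.2⟩
    · rw [sum_insert hb, Function.update_self,
        sum_congr rfl fun y hy => Function.update_of_ne (hne y hy) _ _, union_insert,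
        ce_insert hbT]
      omega
    · intro y hy
      rcases mem_insert.1 hy with rfl | hy
      · rw [Function.update_self, Function.update_self]
        refine ⟨(with_le hT y k).trans (vertex_bound k _), le_trans (card_le_card fun I hI => ?_)
          (hP y hbS)⟩
        rw [mem_filter] at hI ⊢
        exact ⟨hI.1, hI.2.1⟩
      · rw [Function.update_of_ne (hne y hy), Function.update_of_ne (hne y hy)]
        exact h3 y hy

lemma peel_all {S A : Finset V} {k P : ℕ} (hA : A ⊆ S)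
    (hP : ∀ b ∈ S, ((msk G S (k + 1)).filter fun I => b ∈ I).card ≤ P)
    (h0 : ∀ I ∈ msk G S (k + 1), ¬ I ⊆ A) :
    ∃ l c : V → ℕ, (msk G S (k + 1)).card ≤ ∑ b ∈ S \ A, c b ∧
      ce G A + ∑ b ∈ S \ A, l b = ce G S ∧ ∀ b ∈ S \ A, c b ≤ Bf k (l b) ∧ c b ≤ P := by
  obtain ⟨l, c, h1, h2, h3⟩ := peel hA hP h0 (S \ A) (Subset.refl _)
  rw [union_sdiff_of_subset hA] at h1 h2
  rw [filter_true_of_mem fun I hI => (mem_msk.1 hI).1.1] at h1
  exact ⟨l, c, h1, h2, h3⟩

theorem edge_bound (j : ℕ) : ∀ S : Finset V, (msk G S (j + 2)).card ≤ gg j (ce G S) := by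
  induction j with
  | zero =>
    intro S
    obtain ⟨l, c, h1, h2, h3⟩ := peel_all (G := G) (k := 1) (empty_subset S)
      (fun b _ => card_filter_le _ _) (fun I hI h => by
        have := (mem_msk.1 hI).2
        rw [subset_empty.1 h] at this; simp at this)
    have h4 : ∑ b ∈ S \ ∅, c b ≤ ∑ b ∈ S \ ∅, l b :=
      sum_le_sum fun b hb => by have := (h3 b hb).1; rwa [Bf_one] at this
    have h5 := le_gg_zero (ce G S)
    simp only [zero_add, Nat.reduceAdd] at h1 ⊢
    omega
  | succ j ih =>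
    intro S
    rcases S.eq_empty_or_nonempty with rfl | hS
    · rw [msk_empty]; simp
    obtain ⟨v, hv, hmax⟩ := exists_max_image S
      (fun b => ((msk G S (j + 2 + 1)).filter fun I => b ∈ I).card) hS
    obtain ⟨l, c, h1, h2, h3⟩ := peel_all (G := G) (k := j + 2) (nn_subset S v)
      (fun b hb => (hmax b hb).trans ((with_le' S v _).trans (ih _)))
      (fun I hI => not_sub_nn hv (mem_msk.1 hI).1)
    have h4 := rows (CM_all j) _ _ l c _ rfl h3
    rw [h2] at h4
    exact h1.trans h4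

end Pool.Agent.P.MP_88303f_co.Sz
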