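import Pool.Agent.P.MP_88303f_co.Rule
import Pool.Agent.P.MP_88303f_co.PartA
import Pool.Agent.P.MP_88303f_co.FinChk
import Pool.Agent.P.MP_88303f_co.ScDef

namespace Pool.Agent.P.MP_88303f_co

set_option linter.unusedSectionVars false

open Finset

variable {V : Type*} [DecidableEq V] {G : SimpleGraph V} [DecidableRel G.Adj]

lemma finChk_true {D v e : ℕ} (h2 : 2 ≤ D) (h5 : D ≤ 5) (h1 : 1 ≤ v) (h30 : v ≤ 30)
    (he : e < 76) : finChk D v e = true := by
  obtain ⟨w, rfl⟩ : ∃ w, v = w + 1 := ⟨v - 1, by omega⟩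
  have : finRow D (w + 1) = true := by
    interval_cases D
    · exact al_spec fin2 (i := w) (by omega)
    · exact al_spec fin3 (i := w) (by omega)
    · exact al_spec fin4 (i := w) (by omega)
    · exact al_spec fin5 (i := w) (by omega)
  exact al_spec this he

lemma deg_sub {S T : Finset V} (h : T ⊆ S) {D : ℕ} (hD : ∀ x ∈ S, dg G S x ≤ D) :
    ∀ x ∈ T, dg G T x ≤ D := fun x hx => (dg_mono h x).trans (hD x (h hx))

theorem fin_valid (S : Finset V) (h30 : S.card ≤ 30) (D : ℕ) (h2 : 2 ≤ D) (h5 : D ≤ 5)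
    (hD : ∀ x ∈ S, dg G S x ≤ D) :
    mis G S ≤ tU D S.card (ed G S) ∧ (NoCl G S → mis G S ≤ tN D S.card (ed G S)) := by
  induction hn : S.card using Nat.strong_induction_on generalizing S D with
  | _ n ih =>
    subst hn
    rcases S.eq_empty_or_nonempty with rfl | hS
    · rw [mis_empty]
      have : ed G (∅ : Finset V) = 0 := by simp [ed, e2]
      rw [this, card_empty]
      interval_cases D <;> exact ⟨by decide +kernel, fun _ => by decide +kernel⟩
    have hv := card_pos.2 hS
    induction D, h2 using Nat.le_induction with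
    | base =>
      have hh := handshake_le hD
      have hc := finChk_true (D := 2) (v := S.card) (e := ed G S) le_rfl h5 hv h30 (by omega)
      simp only [finChk, Bool.or_eq_true, Bool.and_eq_true, Nat.blt_eq] at hc
      rcases hc with hc | ⟨⟨_, hc1⟩, hc2⟩
      · omega
      have hu : View G S 1 (finU 2 S.card (ed G S)) := by
        intro T hT dv de h0 _ h1 h2
        have := (ih T.card (by omega) T (by omega) 2 le_rfl h5 (deg_sub hT hD) rfl).1
        unfold finU
        rw [if_pos (by simp only [Bool.and_eq_true, Nat.ble_eq]; omega),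
          show S.card - dv = T.card by omega, show ed G S - de = ed G T by omega, one_mul]
        exact_mod_cast this
      have hN : NoCl G S → (1 : ℚ) * mis G S ≤ tN 2 S.card (ed G S) := by
        intro hN
        obtain ⟨w, hw, hw2⟩ := noCl_deg hN hS
        have hwD : dg G S w = 2 := le_antisymm (hD w hw) hw2
        have he := ed_erase (G := G) hw
        have hce := card_erase_add_one hw
        refine chkN_sound one_pos hu hD h5 hN hw hwD ?_ (fun h => Nat.ble_eq.mpr h)
          (fun h => Nat.ble_eq.mpr h) hc1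
        intro hN'
        have := (ih _ (by omega) (S.erase w) (by omega) 2 le_rfl h5
          (deg_sub (erase_subset _ _) hD) rfl).2 hN'
        rw [if_pos (by simp only [Nat.ble_eq]; omega),
          show S.card - 1 = (S.erase w).card by omega,
          show ed G S - 2 = ed G (S.erase w) by omega, one_mul]
        exact_mod_cast this
      have hU := chkU_sound one_pos hu hD h5 hN hc2
      simp only [one_mul, Nat.cast_le] at hU hN
      exact ⟨hU, hN⟩
    | succ D h2 ihD =>
      have hh := handshake_le hD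
      have hc := finChk_true (D := D + 1) (v := S.card) (e := ed G S) (by omega) h5 hv h30
        (by nlinarith)
      simp only [finChk, Bool.or_eq_true, Bool.and_eq_true, Nat.blt_eq, beq_iff_eq,
        Nat.ble_eq, Nat.add_sub_cancel] at hc
      rcases hc with hc | ⟨⟨hc0, hc1⟩, hc2⟩
      · omega
      have hu : View G S 1 (finU (D + 1) S.card (ed G S)) := by
        intro T hT dv de h0 _ h1 h2'
        have := (ih T.card (by omega) T (by omega) (D + 1) (by omega) h5 (deg_sub hT hD) rfl).1
        unfold finU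
        rw [if_pos (by simp only [Bool.and_eq_true, Nat.ble_eq]; omega),
          show S.card - dv = T.card by omega, show ed G S - de = ed G T by omega, one_mul]
        exact_mod_cast this
      have hN : NoCl G S → (1 : ℚ) * mis G S ≤ tN (D + 1) S.card (ed G S) := by
        intro hN
        by_cases hex : ∃ w ∈ S, dg G S w = D + 1
        · obtain ⟨w, hw, hwD⟩ := hex
          have he := ed_erase (G := G) hw
          have hce := card_erase_add_one hw
          refine chkN_sound one_pos hu hD h5 hN hw hwD ?_ (fun h => Nat.ble_eq.mpr h)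
            (fun h => Nat.ble_eq.mpr h) hc1
          intro hN'
          have := (ih _ (by omega) (S.erase w) (by omega) (D + 1) (by omega) h5
            (deg_sub (erase_subset _ _) hD) rfl).2 hN'
          rw [if_pos (by omega),
            show S.card - 1 = (S.erase w).card by omega,
            show ed G S - (D + 1) = ed G (S.erase w) by omega, one_mul]
          exact_mod_cast this
        · push Not at hex
          have := (ihD (by omega) (fun x hx => by
            have := hD x hx; have := hex x hx; omega)).2 hN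
          rw [one_mul]
          rcases hc0 with hc0 | hc0
          · omega
          · exact_mod_cast this.trans hc0
      have hU := chkU_sound one_pos hu hD h5 hN hc2
      simp only [one_mul, Nat.cast_le] at hU hN
      exact ⟨hU, hN⟩

lemma sigA (S : Finset V) (hx : (ed G S : ℤ) - S.card < -1) :
    3 ^ 30 * mis G S ≤ 2 ^ (-((ed G S : ℤ) - S.card)).toNat *
      coefA ((S.card % 3 : ℕ) + 2 * ((ed G S : ℤ) - S.card)) *
      3 ^ (28 + (((S.card % 3 : ℕ) : ℤ) + 2 * ((ed G S : ℤ) - S.card)) / 3).toNat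
      * 3 ^ (S.card / 3) := by
  have h1 := mis_le_BA (G := G) S
  generalize mis G S = N at *
  generalize S.card = v at *
  generalize ed G S = e at *
  unfold BA at h1
  have h2 := phi_le_phiInf (2 * e - v)
  have h3 : (N : ℚ) ≤ 2 ^ ((v : ℤ) - e) * phiInf (2 * e - v) :=
    h1.trans (mul_le_mul_of_nonneg_left h2 (zpow_pos (by norm_num) _).le)
  set s : ℤ := ((v % 3 : ℕ) : ℤ) + 2 * ((e : ℤ) - v) with hs
  have h4 : phiInf (2 * e - v) = coefA s * 3 ^ (s / 3 - 2) * 3 ^ (v / 3 : ℕ) := by
    unfold phiInf coefA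
    rw [show (2 * (e : ℤ) - v) % 3 = s % 3 by omega,
      show (2 * (e : ℤ) - v) / 3 - 2 = s / 3 - 2 + (v / 3 : ℕ) by omega,
      zpow_add₀ (by norm_num), zpow_natCast]
    split_ifs <;> push_cast <;> ring
  have h5 : (2 : ℚ) ^ ((v : ℤ) - e) = 2 ^ (-((e : ℤ) - v)).toNat := by
    rw [← zpow_natCast]; congr 1; omega
  have h6 : (3 : ℚ) ^ 30 * 3 ^ (s / 3 - 2) ≤ 3 ^ (28 + s / 3).toNat := by
    rw [← zpow_natCast, ← zpow_natCast, ← zpow_add₀ (by norm_num)]
    exact zpow_le_zpow_right₀ (by norm_num) (by omega)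
  rw [h4, h5] at h3
  have h7 : (3 : ℚ) ^ 30 * N ≤ 2 ^ (-((e : ℤ) - v)).toNat * coefA s * 3 ^ (28 + s / 3).toNat
      * 3 ^ (v / 3) := by
    calc (3 : ℚ) ^ 30 * N ≤ 3 ^ 30 * (2 ^ (-((e : ℤ) - v)).toNat *
          (coefA s * 3 ^ (s / 3 - 2) * 3 ^ (v / 3 : ℕ))) :=
          mul_le_mul_of_nonneg_left h3 (by positivity)
      _ = 2 ^ (-((e : ℤ) - v)).toNat * coefA s * (3 ^ 30 * 3 ^ (s / 3 - 2)) * 3 ^ (v / 3) := by
          ring
      _ ≤ _ := by gcongr
  exact_mod_cast h7

lemma tail_gen (S : Finset V) (h5 : ∀ x ∈ S, dg G S x ≤ 5) {k : ℕ} (hx : S.card + k ≤ ed G S) :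
    (mis G S : ℚ) * (36 / 35) ^ k ≤ gg S.card := by
  have h1 := mis_tail S h5
  have h2 : ((36 : ℚ) / 35) ^ (k + S.card) ≤ (36 / 35) ^ ed G S :=
    pow_le_pow_right₀ (by norm_num) (by omega)
  have h3 := (mul_le_mul_of_nonneg_left h2 (Nat.cast_nonneg (mis G S))).trans h1
  rw [pow_add, ← mul_assoc] at h3
  exact le_of_mul_le_mul_right h3 (by positivity)

lemma sigT (S : Finset V) (h5 : ∀ x ∈ S, dg G S x ≤ 5) (hx : S.card + 16 ≤ ed G S) :
    3 ^ 30 * mis G S ≤ tailC (S.card % 3) * 3 ^ (S.card / 3) := by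
  have h1 := tail_gen S h5 hx
  have h2 : gg S.card = 3 ^ (S.card / 3) * gg (S.card % 3) := by
    rw [← gg_three_mul, Nat.div_add_mod]
  have h3 : 3 ^ 30 * gg (S.card % 3) ≤ tailC (S.card % 3) * (36 / 35) ^ 16 := by
    have : S.card % 3 < 3 := Nat.mod_lt _ (by norm_num)
    generalize S.card % 3 = i at *
    interval_cases i <;> decide +kernel
  have h4 : (3 : ℚ) ^ 30 * mis G S * (36 / 35) ^ 16
      ≤ tailC (S.card % 3) * 3 ^ (S.card / 3) * (36 / 35) ^ 16 := by
    calc _ = 3 ^ 30 * ((mis G S : ℚ) * (36 / 35) ^ 16) := by ring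
      _ ≤ 3 ^ 30 * (3 ^ (S.card / 3) * gg (S.card % 3)) := by rw [← h2]; gcongr
      _ = 3 ^ (S.card / 3) * (3 ^ 30 * gg (S.card % 3)) := by ring
      _ ≤ 3 ^ (S.card / 3) * (tailC (S.card % 3) * (36 / 35) ^ 16) := by gcongr
      _ = _ := by ring
  have h5 := le_of_mul_le_mul_right h4 (by positivity)
  exact_mod_cast h5

lemma sig_out (t : ℕ → ℕ → ℕ → ℕ) (S : Finset V) {D : ℕ} (h5 : D ≤ 5)
    (hD : ∀ x ∈ S, dg G S x ≤ D) (hx : ed G S + 1 < S.card ∨ S.card + 15 < ed G S) :
    3 ^ 30 * mis G S ≤ sig t D (S.card % 3) ((ed G S : ℤ) - S.card) * 3 ^ (S.card / 3) := by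
  unfold sig
  rcases hx with hx | hx
  · rw [if_pos (by omega)]; exact sigA S (by omega)
  · rw [if_neg (by omega), if_pos (by omega), if_neg]
    · exact sigT S (fun x hx => (hD x hx).trans h5) hx
    · rintro rfl
      have := handshake_le hD
      omega

lemma sig_in (t : ℕ → ℕ → ℕ → ℕ) (D i v e y : ℕ) (hy : y < 17) (h : e + 1 = v + y) :
    sig t D i ((e : ℤ) - v) = t D i y := by
  unfold sig
  rw [if_neg (by omega), if_neg (by omega)]
  congr 1; omega

theorem sc_valid (S : Finset V) (h24 : 24 ≤ S.card) (D : ℕ) (h2 : 2 ≤ D) (h5 : D ≤ 5)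
    (hD : ∀ x ∈ S, dg G S x ≤ D) :
    3 ^ 30 * mis G S ≤ sig tSU D (S.card % 3) ((ed G S : ℤ) - S.card) * 3 ^ (S.card / 3) ∧
    (NoCl G S → 3 ^ 30 * mis G S
      ≤ sig tSN D (S.card % 3) ((ed G S : ℤ) - S.card) * 3 ^ (S.card / 3)) := by
  induction hn : S.card using Nat.strong_induction_on generalizing S D with
  | _ n ih =>
    subst hn
    by_cases hx : ed G S + 1 < S.card ∨ S.card + 15 < ed G S
    · exact ⟨sig_out _ S h5 hD hx, fun _ => sig_out _ S h5 hD hx⟩
    obtain ⟨y, hy, hy'⟩ : ∃ y, y < 17 ∧ ed G S + 1 = S.card + y :=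
      ⟨ed G S + 1 - S.card, by omega, by omega⟩
    rw [sig_in _ _ _ _ _ y hy hy', sig_in _ _ _ _ _ y hy hy']
    by_cases h30 : S.card ≤ 30
    · have h1 := fin_valid S h30 D h2 h5 hD
      have h3 := al_spec (al_spec (al_spec ov_all (i := D - 2) (by omega))
        (i := S.card - 24) (by omega)) hy
      rw [show D - 2 + 2 = D by omega, show S.card - 24 + 24 = S.card by omega] at h3
      simp only [ovChk, Bool.and_eq_true, Nat.ble_eq] at h3
      rw [show S.card + y - 1 = ed G S by omega] at h3
      exact ⟨(Nat.mul_le_mul_left _ h1.1).trans h3.1,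
        fun hN => (Nat.mul_le_mul_left _ (h1.2 hN)).trans h3.2⟩
    have hS : S.Nonempty := card_pos.1 (by omega)
    set c : ℚ := 3 ^ 30 / 3 ^ (S.card / 3 - 3) with hc
    have hcp : 0 < c := by positivity
    have conv : ∀ (N a k j : ℕ), j = S.card / 3 - 3 + k →
        (3 ^ 30 * N ≤ a * 3 ^ j ↔ c * N ≤ (a * 3 ^ k : ℕ)) := by
      intro N a k j hj
      rw [hc, div_mul_eq_mul_div, div_le_iff₀ (by positivity), hj, pow_add]
      constructor
      · intro h
        have : ((3 ^ 30 * N : ℕ) : ℚ) ≤ (a * (3 ^ (S.card / 3 - 3) * 3 ^ k) : ℕ) :=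
          Nat.cast_le.2 h
        push_cast at this ⊢
        linarith
      · intro h
        have : ((3 ^ 30 * N : ℕ) : ℚ) ≤ (a * (3 ^ (S.card / 3 - 3) * 3 ^ k) : ℕ) := by
          push_cast at h ⊢
          linarith
        exact Nat.cast_le.1 this
    have hi : S.card % 3 < 3 := Nat.mod_lt _ (by norm_num)
    have hview : ∀ D, 2 ≤ D → D ≤ 5 → (∀ x ∈ S, dg G S x ≤ D) →
        View G S c (scU D (S.card % 3) ((y : ℤ) - 1)) := by
      intro D h2 h5 hD T hT dv de h0 h7 h1 h3
      have := (ih T.card (by omega) T (by omega) D h2 h5 (deg_sub hT hD) rfl).1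
      unfold scU
      rw [show (9 + S.card % 3 - dv) % 3 = T.card % 3 by omega,
        show (y : ℤ) - 1 + dv - de = (ed G T : ℤ) - T.card by omega]
      exact (conv _ _ _ _ (by omega)).1 this
    have hchk : ∀ D, 2 ≤ D → D ≤ 5 → scChk D (S.card % 3) y = true := by
      intro D h2 h5
      have h3 := al_spec (al_spec (al_spec sc_all (i := D - 2) (by omega)) hi) hy
      rwa [show D - 2 + 2 = D by omega] at h3
    have hNw : ∀ D, 2 ≤ D → D ≤ 5 → (∀ x ∈ S, dg G S x ≤ D) → ∀ w ∈ S, dg G S w = D →
        NoCl G (S.erase w) → c * mis G (S.erase w) ≤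
          (sig tSN D ((8 + S.card % 3) % 3) ((y : ℤ) - D) * 3 ^ ((8 + S.card % 3) / 3) : ℕ) := by
      intro D h2 h5 hD w hw hwD hN
      have he := ed_erase (G := G) hw
      have hce := card_erase_add_one hw
      have := (ih _ (by omega) (S.erase w) (by omega) D h2 h5
        (deg_sub (erase_subset _ _) hD) rfl).2 hN
      rw [show (8 + S.card % 3) % 3 = (S.erase w).card % 3 by omega,
        show (y : ℤ) - D = (ed G (S.erase w) : ℤ) - (S.erase w).card by omega]
      exact (conv _ _ _ _ (by omega)).1 this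
    have main : c * mis G S ≤ (27 * tSU D (S.card % 3) y : ℕ) ∧
        (NoCl G S → c * mis G S ≤ (27 * tSN D (S.card % 3) y : ℕ)) := by
      induction D, h2 using Nat.le_induction with
      | base =>
        have hh := handshake_le hD
        have hc := hchk 2 le_rfl h5
        simp only [scChk, Bool.or_eq_true, Bool.and_eq_true, Nat.ble_eq] at hc
        rcases hc with hc | ⟨⟨_, hc1⟩, hc2⟩
        · omega
        have hu := hview 2 le_rfl h5 hD
        have hN : NoCl G S → c * mis G S ≤ (27 * tSN 2 (S.card % 3) y : ℕ) := by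
          intro hN
          obtain ⟨w, hw, hw2⟩ := noCl_deg hN hS
          have hwD : dg G S w = 2 := le_antisymm (hD w hw) hw2
          exact chkN_sound hcp hu hD h5 hN hw hwD (hNw 2 le_rfl h5 hD w hw hwD)
            (fun h => Nat.ble_eq.mpr (by omega)) (fun h => by omega) hc1
        exact ⟨chkU_sound hcp hu hD h5 hN hc2, hN⟩
      | succ D h2 ihD =>
        have hc := hchk (D + 1) (by omega) h5
        simp only [scChk, Bool.or_eq_true, Bool.and_eq_true, Nat.ble_eq, beq_iff_eq,
          Nat.add_sub_cancel] at hc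
        rcases hc with hc | ⟨⟨hc0, hc1⟩, hc2⟩
        · omega
        have hu := hview (D + 1) (by omega) h5 hD
        have hN : NoCl G S → c * mis G S ≤ (27 * tSN (D + 1) (S.card % 3) y : ℕ) := by
          intro hN
          by_cases hex : ∃ w ∈ S, dg G S w = D + 1
          · obtain ⟨w, hw, hwD⟩ := hex
            exact chkN_sound hcp hu hD h5 hN hw hwD (hNw (D + 1) (by omega) h5 hD w hw hwD)
              (fun h => Nat.ble_eq.mpr (by omega)) (fun h => by omega) hc1
          · push Not at hex
            have := (ihD (by omega) (fun x hx => by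
              have := hD x hx; have := hex x hx; omega)).2 hN
            rcases hc0 with hc0 | hc0
            · omega
            · exact this.trans (Nat.cast_le.2 (by omega))
        exact ⟨chkU_sound hcp hu hD h5 hN hc2, hN⟩
    rw [mul_comm 27, mul_comm 27] at main
    exact ⟨(conv _ _ 3 _ (by omega)).2 main.1, fun hN => (conv _ _ 3 _ (by omega)).2 (main.2 hN)⟩

end Pool.Agent.P.MP_88303f_co
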